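import Pool.Agent.R953.LV.Defs

set_option autoImplicit false

/-!
# (LV-AE) for almost every `x` the starting points `±J` stay close together on average
-/
namespace Pool.Agent.R953.LV

open Filter Topology MeasureTheory

namespace AEAux

theorem Ex_succ (p : ℤ → ℝ) (t : ℕ) (f : ℤ → ℝ) (k : ℤ) :
    Ex p (t + 1) f k = p k * Ex p t f (k + 1) + (1 - p k) * Ex p t f (k - 1) := by
  unfold Ex
  rw [Function.iterate_succ_apply']
  rfl

theorem Ex_succ' (p : ℤ → ℝ) (t : ℕ) (f : ℤ → ℝ) (k : ℤ) :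
    Ex p (t + 1) f k = Ex p t (P p f) k := by
  unfold Ex
  rw [Function.iterate_succ_apply]

theorem Ex_lin (p : ℤ → ℝ) (t : ℕ) (f g : ℤ → ℝ) (α β γ : ℝ) (k : ℤ) :
    Ex p t (fun i => α * f i + β * g i + γ) k = α * Ex p t f k + β * Ex p t g k + γ := by
  induction t generalizing k with
  | zero => rfl
  | succ t ih => rw [Ex_succ, Ex_succ, Ex_succ, ih, ih]; ring

theorem Ex_mono (p : ℤ → ℝ) (h0 : ∀ k, 0 ≤ p k) (h1 : ∀ k, p k ≤ 1) (t : ℕ) (f g : ℤ → ℝ) (k : ℤ)
    (h : ∀ i : ℤ, f i ≤ g i) : Ex p t f k ≤ Ex p t g k := by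
  induction t generalizing k with
  | zero => exact h k
  | succ t ih =>
    rw [Ex_succ, Ex_succ]
    have a1 := ih (k + 1)
    have a2 := ih (k - 1)
    have b1 := h0 k
    have b2 : 0 ≤ 1 - p k := by linarith [h1 k]
    have c1 := mul_le_mul_of_nonneg_left a1 b1
    have c2 := mul_le_mul_of_nonneg_left a2 b2
    linarith

/-- one more step changes the mean by at most one -/
theorem Ex_idf_step (p : ℤ → ℝ) (h0 : ∀ k, 0 ≤ p k) (h1 : ∀ k, p k ≤ 1) (t : ℕ) (k : ℤ) :
    |Ex p (t + 1) idf k - Ex p t idf k| ≤ 1 := by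
  rw [Ex_succ']
  have hP : ∀ i : ℤ, P p idf i = i + (2 * p i - 1) := by
    intro i; simp only [P, idf]; push_cast; ring
  have u := Ex_mono p h0 h1 t (P p idf) (fun i => 1 * idf i + 0 * idf i + 1) k (by
    intro i; rw [hP]; simp only [idf]; linarith [h1 i])
  have l := Ex_mono p h0 h1 t (fun i => 1 * idf i + 0 * idf i + (-1)) (P p idf) k (by
    intro i; rw [hP]; simp only [idf]; linarith [h0 i])
  rw [Ex_lin] at u l
  rw [abs_le]
  constructor <;> linarith

theorem Ex_idf_steps (p : ℤ → ℝ) (h0 : ∀ k, 0 ≤ p k) (h1 : ∀ k, p k ≤ 1) (t s : ℕ) (k : ℤ) :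
    |Ex p (t + s) idf k - Ex p t idf k| ≤ s := by
  induction s with
  | zero => simp
  | succ s ih =>
    have := Ex_idf_step p h0 h1 (t + s) k
    rw [← add_assoc]
    push_cast
    rw [abs_le] at this ih ⊢
    constructor <;> linarith [this.1, this.2, ih.1, ih.2]

/-- two-step monotonicity -/
theorem Ex_two (p : ℤ → ℝ) (h0 : ∀ k, 0 ≤ p k) (h1 : ∀ k, p k ≤ 1) (t : ℕ) (f : ℤ → ℝ)
    (hf : ∀ k, f k ≤ f (k + 2)) (k : ℤ) : Ex p t f k ≤ Ex p t f (k + 2) := by
  induction t generalizing k with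
  | zero => exact hf k
  | succ t ih =>
    rw [Ex_succ, Ex_succ]
    have a1 := ih (k + 1)
    have a2 := ih (k - 1)
    have e1 : k - 1 + 2 = k + 1 := by ring
    have e2 : k + 2 - 1 = k + 1 := by ring
    have e3 : k + 1 + 2 = k + 2 + 1 := by ring
    rw [e1] at a2
    rw [e3] at a1
    rw [e2]
    have b1 := h0 (k + 2)
    have b2 : 0 ≤ 1 - p k := by linarith [h1 k]
    have c1 := mul_le_mul_of_nonneg_left a1 b1
    have c2 := mul_le_mul_of_nonneg_left a2 b2
    linarith

theorem Ex_J (p : ℤ → ℝ) (h0 : ∀ k, 0 ≤ p k) (h1 : ∀ k, p k ≤ 1) (t : ℕ) (J : ℕ) :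
    Ex p t idf (-(J : ℤ)) ≤ Ex p t idf J := by
  have : ∀ m : ℕ, ∀ k : ℤ, Ex p t idf k ≤ Ex p t idf (k + 2 * m) := by
    intro m
    induction m with
    | zero => intro k; simp
    | succ m ih =>
      intro k
      refine (ih k).trans ?_
      have := Ex_two p h0 h1 t idf (by intro k; simp [idf]) (k + 2 * m)
      have e : k + 2 * ((m + 1 : ℕ) : ℤ) = k + 2 * m + 2 := by push_cast; ring
      rwa [e]
  have h := this J (-(J : ℤ))
  have e : -(J : ℤ) + 2 * J = J := by ring
  rwa [e] at h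

theorem Ex_translate (π : ℝ → ℝ) (α x : ℝ) (t : ℕ) (k j : ℤ) :
    Ex (env π α x) t idf (j + k) = k + Ex (env π α (x + k * α)) t idf j := by
  induction t generalizing j with
  | zero => show ((j + k : ℤ) : ℝ) = k + (j : ℝ); push_cast; ring
  | succ t ih =>
    rw [Ex_succ, Ex_succ]
    have e1 : j + k + 1 = (j + 1) + k := by ring
    have e2 : j + k - 1 = (j - 1) + k := by ring
    rw [e1, e2, ih, ih]
    have e3 : env π α x (j + k) = env π α (x + k * α) j := by
      simp only [env]; push_cast; congr 1; ring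
    rw [e3]; ring

theorem cont (π : ℝ → ℝ) (hπ : Continuous π) (α : ℝ) (t : ℕ) (k : ℤ) (f : ℤ → ℝ) :
    Continuous (fun x => Ex (env π α x) t f k) := by
  induction t generalizing k with
  | zero => exact continuous_const
  | succ t ih =>
    simp only [Ex_succ]
    have : Continuous (fun x => env π α x k) := by
      simp only [env]; fun_prop
    exact (this.mul (ih _)).add ((continuous_const.sub this).mul (ih _))

theorem per (π : ℝ → ℝ) (hper : Function.Periodic π 1) (α : ℝ) (t : ℕ) (k : ℤ) (f : ℤ → ℝ) :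
    Function.Periodic (fun x => Ex (env π α x) t f k) 1 := by
  intro x
  have : env π α (x + 1) = env π α x := by
    funext i
    simp only [env]
    rw [show x + 1 + i * α = (x + i * α) + 1 by ring]
    exact hper _
  simp only [this]

/-- the integral over a period -/
theorem integ (π : ℝ → ℝ) (hπ : Continuous π) (hper : Function.Periodic π 1) (α : ℝ) (t : ℕ)
    (J : ℕ) (m : ℝ) :
    ∫ x in m..(m + 1), (Ex (env π α x) t idf J - Ex (env π α x) t idf (-(J : ℤ))) = 2 * J := by
  have key : ∀ k : ℤ, ∫ x in m..(m + 1), Ex (env π α x) t idf k =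
      k + ∫ x in (0 : ℝ)..(0 + 1), Ex (env π α x) t idf 0 := by
    intro k
    have e1 : ∀ x, Ex (env π α x) t idf k = k + Ex (env π α (x + k * α)) t idf 0 := by
      intro x
      have := Ex_translate π α x t k 0
      rwa [zero_add] at this
    simp only [e1]
    rw [intervalIntegral.integral_add (by simp)]
    · rw [intervalIntegral.integral_const]
      have e2 : ∫ x in m..(m + 1), Ex (env π α (x + k * α)) t idf 0 =
          ∫ x in (m + k * α)..(m + 1 + k * α), Ex (env π α x) t idf 0 :=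
        intervalIntegral.integral_comp_add_right (fun x => Ex (env π α x) t idf 0) _
      have e3 : m + 1 + k * α = (m + k * α) + 1 := by ring
      rw [e2, e3, (per π hper α t 0 idf).intervalIntegral_add_eq (m + k * α) 0]
      simp
    · have := (cont π hπ α t 0 idf).comp (continuous_id.add (continuous_const (y := (k : ℝ) * α)))
      exact this.intervalIntegrable _ _
  rw [intervalIntegral.integral_sub ((cont π hπ α t _ idf).intervalIntegrable _ _)
    ((cont π hπ α t _ idf).intervalIntegrable _ _), key, key]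
  push_cast
  ring

/-- Markov -/
theorem markov (π : ℝ → ℝ) (hπ : Continuous π) (h0 : ∀ y, 0 ≤ π y) (h1 : ∀ y, π y ≤ 1)
    (hper : Function.Periodic π 1) (α : ℝ) (t : ℕ) (J : ℕ) (m : ℝ) (X : ℝ) (hX : 0 < X) :
    (volume.restrict (Set.Ioc m (m + 1))).real
      {x | X / 2 ≤ Ex (env π α x) t idf J - Ex (env π α x) t idf (-(J : ℤ))} ≤ 4 * J / X := by
  have hnn : ∀ x, 0 ≤ Ex (env π α x) t idf J - Ex (env π α x) t idf (-(J : ℤ)) := by
    intro x
    have := Ex_J (env π α x) (fun k => h0 _) (fun k => h1 _) t J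
    linarith
  have hc : Continuous (fun x => Ex (env π α x) t idf J - Ex (env π α x) t idf (-(J : ℤ))) :=
    (cont π hπ α t _ idf).sub (cont π hπ α t _ idf)
  have hint : Integrable (fun x => Ex (env π α x) t idf J - Ex (env π α x) t idf (-(J : ℤ)))
      (volume.restrict (Set.Ioc m (m + 1))) :=
    (intervalIntegrable_iff_integrableOn_Ioc_of_le (by linarith)).1 (hc.intervalIntegrable _ _)
  have hmk := mul_meas_ge_le_integral_of_nonneg (μ := volume.restrict (Set.Ioc m (m + 1)))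
    (Eventually.of_forall hnn) hint (X / 2)
  rw [← intervalIntegral.integral_of_le (by linarith), integ π hπ hper α t J m] at hmk
  rw [le_div_iff₀ hX]
  linarith

/-- the grid argument, deterministic part -/
theorem grid (p : ℤ → ℝ) (h0 : ∀ k, 0 ≤ p k) (h1 : ∀ k, p k ≤ 1) (J N : ℕ) (X : ℝ) (hX : 0 < X)
    (hg : ∀ i ≤ ⌊4 * (N : ℝ) / X⌋₊, Ex p ⌈(i : ℝ) * X / 4⌉₊ idf J -
      Ex p ⌈(i : ℝ) * X / 4⌉₊ idf (-(J : ℤ)) < X / 2) (T : ℕ) (hT : T ≤ N) :
    Ex p T idf J - Ex p T idf (-(J : ℤ)) ≤ X := by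
  set i := ⌊4 * (T : ℝ) / X⌋₊ with hi
  have hTN : (T : ℝ) ≤ N := by exact_mod_cast hT
  have hiN : i ≤ ⌊4 * (N : ℝ) / X⌋₊ := Nat.floor_le_floor (by gcongr)
  have hi1 : (i : ℝ) * X / 4 ≤ T := by
    have := Nat.floor_le (show 0 ≤ 4 * (T : ℝ) / X by positivity)
    rw [← hi, le_div_iff₀ hX] at this
    linarith
  have hi2 : (T : ℝ) < (i : ℝ) * X / 4 + X / 4 := by
    have := Nat.lt_floor_add_one (4 * (T : ℝ) / X)
    rw [← hi, div_lt_iff₀ hX] at this
    linarith
  set t := ⌈(i : ℝ) * X / 4⌉₊ with ht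
  have ht1 : t ≤ T := Nat.ceil_le.2 hi1
  have ht2 : (i : ℝ) * X / 4 ≤ t := Nat.le_ceil _
  obtain ⟨s, hs⟩ := Nat.exists_eq_add_of_le ht1
  have hsX : (s : ℝ) ≤ X / 4 := by
    have : (T : ℝ) = t + s := by rw [hs]; push_cast; ring
    linarith
  have a1 := Ex_idf_steps p h0 h1 t s J
  have a2 := Ex_idf_steps p h0 h1 t s (-(J : ℤ))
  rw [← hs] at a1 a2
  rw [abs_le] at a1 a2
  have a3 := hg i hiN
  linarith [a1.2, a2.1]

end AEAux

open AEAux

theorem s_AE : S_AE := by
  intro π hπ h0 h1 hper α J N X hX hsum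
  -- for every period interval
  have main : ∀ m : ℤ, ∀ᵐ x ∂(volume.restrict (Set.Ioc (m : ℝ) (m + 1))), ∀ᶠ n in atTop,
      ∀ T : ℕ, T ≤ N n →
        Ex (env π α x) T idf (J n) - Ex (env π α x) T idf (-(J n : ℤ)) ≤ X n := by
    intro m
    set μ := volume.restrict (Set.Ioc (m : ℝ) (m + 1)) with hμ
    have hfm : IsFiniteMeasure μ := by rw [hμ]; infer_instance
    set A : ℕ → Set ℝ := fun n => ⋃ i ∈ Finset.range (⌊4 * (N n : ℝ) / X n⌋₊ + 1),
      {x | X n / 2 ≤ Ex (env π α x) ⌈(i : ℝ) * X n / 4⌉₊ idf (J n) -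
        Ex (env π α x) ⌈(i : ℝ) * X n / 4⌉₊ idf (-(J n : ℤ))} with hA
    have hAm : ∀ n, μ.real (A n) ≤ (4 * (N n : ℝ) / X n + 1) * (4 * J n / X n) := by
      intro n
      refine (measureReal_biUnion_finset_le _ _).trans ?_
      refine (Finset.sum_le_sum fun i _ => markov π hπ h0 h1 hper α _ (J n) m (X n) (hX n)).trans ?_
      rw [Finset.sum_const, Finset.card_range, nsmul_eq_mul]
      have hXn := hX n
      refine mul_le_mul_of_nonneg_right ?_ (by positivity)
      push_cast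
      have := Nat.floor_le (show 0 ≤ 4 * (N n : ℝ) / X n by positivity)
      linarith
    have hfin : ∑' n, μ (A n) ≠ ⊤ := by
      refine ne_top_of_le_ne_top hsum.tsum_ofReal_ne_top (ENNReal.tsum_le_tsum fun n => ?_)
      rw [← ofReal_measureReal (measure_ne_top _ _)]
      exact ENNReal.ofReal_le_ofReal (hAm n)
    filter_upwards [ae_eventually_notMem hfin] with x hx
    filter_upwards [hx] with n hn T hT
    refine grid (env π α x) (fun k => h0 _) (fun k => h1 _) (J n) (N n) (X n) (hX n) ?_ T hT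
    intro i hi
    by_contra hcon
    push Not at hcon
    refine hn ?_
    simp only [hA, Set.mem_iUnion]
    exact ⟨i, Finset.mem_range.2 (by omega), hcon⟩
  have := (ae_restrict_iUnion_iff (μ := (volume : Measure ℝ))
    (fun m : ℤ => Set.Ioc (m : ℝ) (m + 1)) _).2 main
  rwa [iUnion_Ioc_intCast, Measure.restrict_univ] at this

end Pool.Agent.R953.LV
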