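import Pool.Agent.R953.LV.Defs

/-!
Project LV, piece LV-ALPHA: a very well approximable number. Author: helper978.
-/

set_option autoImplicit false

namespace Pool.Agent.R953.LV

open Filter Topology

namespace Alpha

/-- the denominators -/
def q : ℕ → ℕ
  | 0 => 16
  | n + 1 => 2 ^ (q n ^ 2)

/-- the exponents of the denominators -/
def ex : ℕ → ℕ
  | 0 => 4
  | n + 1 => q n ^ 2

theorem q_eq (n : ℕ) : q n = 2 ^ ex n := by
  cases n with
  | zero => rfl
  | succ n => rfl

theorem q_succ (n : ℕ) : q (n + 1) = 2 ^ (q n ^ 2) := rfl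

theorem ex_lt (n : ℕ) : ex n < q n := by
  rw [q_eq]; exact Nat.lt_two_pow_self

theorem q_ge (n : ℕ) : 16 ≤ q n := by
  induction n with
  | zero => exact le_rfl
  | succ n ih =>
    rw [q_succ]
    calc 16 = 2 ^ 4 := by norm_num
      _ ≤ 2 ^ (q n ^ 2) := Nat.pow_le_pow_right (by norm_num) (by nlinarith)

theorem ex_lt' (n : ℕ) : ex n + 1 ≤ q n ^ 2 := by
  have h1 := ex_lt n
  have h2 := q_ge n
  nlinarith

theorem q_double (n : ℕ) : 2 * q n ≤ q (n + 1) := by
  rw [q_succ, q_eq n, ← pow_succ']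
  apply Nat.pow_le_pow_right (by norm_num)
  rw [← q_eq]
  exact ex_lt' n

theorem q_lin (n j : ℕ) : 2 ^ j * q n ≤ q (n + j) := by
  induction j with
  | zero => simp
  | succ j ih =>
    have h := q_double (n + j)
    rw [pow_succ]
    calc 2 ^ j * 2 * q n = 2 * (2 ^ j * q n) := by ring
      _ ≤ 2 * q (n + j) := by omega
      _ ≤ q (n + (j + 1)) := h

theorem q_large (n : ℕ) : n + 1 ≤ q n := by
  have h := q_lin 0 n
  rw [zero_add] at h
  have h2 : n < 2 ^ n := Nat.lt_two_pow_self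
  have h3 := q_ge 0
  nlinarith

theorem q_pos (n : ℕ) : (0 : ℝ) < q n := by
  have := q_ge n
  exact_mod_cast (by omega : 0 < q n)

/-- the ratios of consecutive denominators -/
def ra (n : ℕ) : ℕ := 2 ^ (q n ^ 2 - ex n)

theorem q_ratio (n : ℕ) : q (n + 1) = ra n * q n := by
  unfold ra
  rw [q_succ, q_eq n, ← pow_add]
  congr 1
  have := ex_lt' n
  rw [q_eq n] at this
  omega

theorem ra_even (n : ℕ) : 2 ∣ ra n := by
  unfold ra
  have := ex_lt' n
  exact dvd_pow_self _ (by omega)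

/-- the numerators -/
def a : ℕ → ℤ
  | 0 => 1
  | n + 1 => a n * (ra n : ℤ) + 1

theorem a_odd (n : ℕ) : a n % 2 = 1 := by
  cases n with
  | zero => rfl
  | succ n =>
    obtain ⟨c, hc⟩ := ra_even n
    show (a n * (ra n : ℤ) + 1) % 2 = 1
    rw [hc]
    push_cast
    have : a n * (2 * (c : ℤ)) = 2 * (a n * c) := by ring
    rw [this]
    omega

theorem a_cop (n : ℕ) : Int.gcd (a n) (q n) = 1 := by
  rw [← Int.isCoprime_iff_gcd_eq_one, q_eq]
  push_cast
  apply IsCoprime.pow_right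
  have h := a_odd n
  refine ⟨1, -(a n / 2), ?_⟩
  omega

theorem a_div (n : ℕ) : (a n : ℝ) / q n = ∑ j ∈ Finset.range (n + 1), 1 / (q j : ℝ) := by
  induction n with
  | zero => simp [a, q]
  | succ n ih =>
    rw [Finset.sum_range_succ, ← ih, q_ratio]
    have h1 := q_pos n
    have h2 : (0 : ℝ) < ra n := by
      have : 0 < ra n := by unfold ra; positivity
      exact_mod_cast this
    show ((a n * (ra n : ℤ) + 1 : ℤ) : ℝ) / ((ra n * q n : ℕ) : ℝ) = _
    push_cast
    field_simp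

theorem inv_le (n j : ℕ) : 1 / (q (n + j) : ℝ) ≤ 1 / (q n : ℝ) * (1 / 2) ^ j := by
  have h := q_lin n j
  have h1 := q_pos n
  have h2 : (2 : ℝ) ^ j * q n ≤ q (n + j) := by exact_mod_cast h
  rw [one_div_pow, one_div_mul_one_div]
  apply one_div_le_one_div_of_le (by positivity)
  linarith

theorem summ (n : ℕ) : Summable (fun j : ℕ => 1 / (q (n + j) : ℝ)) := by
  apply Summable.of_nonneg_of_le (fun j => by have := q_pos (n + j); positivity) (inv_le n)
  exact (summable_geometric_of_lt_one (by norm_num) (by norm_num)).mul_left _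

/-- the number -/
noncomputable def al : ℝ := ∑' j : ℕ, 1 / (q j : ℝ)

theorem summ0 : Summable (fun j : ℕ => 1 / (q j : ℝ)) := by
  have := summ 0
  simpa only [zero_add] using this

theorem al_sub (n : ℕ) : al - a n / q n = ∑' j : ℕ, 1 / (q (n + 1 + j) : ℝ) := by
  rw [a_div]
  unfold al
  rw [← summ0.sum_add_tsum_nat_add (n + 1), add_sub_cancel_left]
  congr 1
  funext j
  rw [add_comm j]

theorem al_sub_pos (n : ℕ) : 0 < al - a n / q n := by
  rw [al_sub]
  exact (summ (n + 1)).tsum_pos (fun j => by have := q_pos (n + 1 + j); positivity) 0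
    (by have := q_pos (n + 1 + 0); positivity)

theorem al_sub_le (n : ℕ) : al - a n / q n ≤ 2 / q (n + 1) := by
  rw [al_sub]
  have hg : Summable (fun j : ℕ => 1 / (q (n + 1) : ℝ) * (1 / 2) ^ j) :=
    (summable_geometric_of_lt_one (by norm_num) (by norm_num)).mul_left _
  refine ((summ (n + 1)).tsum_le_tsum (inv_le (n + 1)) hg).trans (le_of_eq ?_)
  rw [tsum_mul_left, tsum_geometric_of_lt_one (by norm_num) (by norm_num)]
  ring

theorem al_abs (n : ℕ) : |al - a n / q n| ≤ 2 / q (n + 1) := by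
  rw [abs_of_pos (al_sub_pos n)]
  exact al_sub_le n

/-- super-polynomial quality -/
theorem super (N n : ℕ) (h : N ≤ n) : 2 * q n ^ N < q (n + 1) := by
  have h1 := q_large n
  set Q := q n with hQ
  rw [q_succ, ← hQ]
  have hQ2 : Q < 2 ^ Q := Nat.lt_two_pow_self
  have h2 : Q ^ N ≤ (2 ^ Q) ^ N := Nat.pow_le_pow_left hQ2.le N
  rw [← pow_mul] at h2
  have h16 := q_ge n
  rw [← hQ] at h16
  have h3 : Q * N + 1 < Q ^ 2 := by
    have : Q * (N + 1) ≤ Q * Q := Nat.mul_le_mul_left Q (by omega)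
    nlinarith
  calc 2 * Q ^ N ≤ 2 * 2 ^ (Q * N) := by omega
    _ = 2 ^ (Q * N + 1) := by rw [pow_succ]; ring
    _ < 2 ^ (Q ^ 2) := Nat.pow_lt_pow_right (by norm_num) h3

theorem al_liouville : Liouville al := by
  intro N
  have h1 := super N N le_rfl
  have h2 := q_ge N
  refine ⟨a N, (q N : ℤ), by exact_mod_cast (by omega : 1 < q N), ?_, ?_⟩
  · have h3 := al_sub_pos N
    intro h4
    rw [Int.cast_natCast] at h4
    linarith
  · rw [Int.cast_natCast]
    refine lt_of_le_of_lt (al_abs N) ?_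
    have h3 := q_pos N
    have h4 := q_pos (N + 1)
    rw [div_lt_div_iff₀ h4 (by positivity), one_mul]
    exact_mod_cast h1

theorem al_not_dioph : ¬ Dioph al := by
  rintro ⟨γ, τ, hγ, hτ, h⟩
  obtain ⟨N, hN⟩ := exists_nat_ge (2 + τ)
  obtain ⟨m, hm⟩ := exists_nat_gt (1 / γ)
  set n := max (N + 1) m with hn
  have h1 := super (N + 1) n (le_max_left _ _)
  have h2 := h (a n) (q n) (by have := q_ge n; omega)
  have h3 := h2.trans (al_abs n)
  have hq := q_pos n
  have hq1 := q_pos (n + 1)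
  have hq2 : (1 : ℝ) ≤ q n := by
    have := q_ge n
    exact_mod_cast (by omega : 1 ≤ q n)
  have h4 : ((q n : ℝ) ^ N)⁻¹ ≤ (q n : ℝ) ^ (-2 - τ) := by
    rw [← Real.rpow_natCast, ← Real.rpow_neg hq.le]
    apply Real.rpow_le_rpow_of_exponent_le hq2
    linarith
  have h5 : γ * ((q n : ℝ) ^ N)⁻¹ ≤ 2 / q (n + 1) := (mul_le_mul_of_nonneg_left h4 hγ.le).trans h3
  have h6 : (2 : ℝ) * (q n : ℝ) ^ (N + 1) < q (n + 1) := by exact_mod_cast h1
  rw [← div_eq_mul_inv, div_le_div_iff₀ (by positivity) hq1] at h5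
  have h7 : (1 : ℝ) / γ < q n := by
    have h8 : (m : ℝ) ≤ q n := by
      have := q_large n
      have h9 : m ≤ n := le_max_right _ _
      exact_mod_cast (by omega : m ≤ q n)
    linarith
  have h8 : 1 < γ * q n := by
    rw [div_lt_iff₀ hγ] at h7
    linarith
  have h9 : (0 : ℝ) < (q n : ℝ) ^ N := by positivity
  have h10 : γ * (2 * (q n : ℝ) ^ (N + 1)) < γ * q (n + 1) := mul_lt_mul_of_pos_left h6 hγ
  have h11 : γ * (2 * (q n : ℝ) ^ (N + 1)) = 2 * (q n : ℝ) ^ N * (γ * q n) := by ring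
  nlinarith

end Alpha

/-- LV-ALPHA -/
theorem s_Alpha : S_Alpha := by
  refine ⟨Alpha.al, Alpha.q, Alpha.a, ?_, ?_, Alpha.al_liouville.irrational, Alpha.al_not_dioph, rfl,
    fun n => rfl, Alpha.a_cop, Alpha.al_abs⟩
  · have h := Alpha.al_sub_pos 0
    have h1 : (Alpha.a 0 : ℝ) / Alpha.q 0 = 1 / 16 := by simp [Alpha.a, Alpha.q]
    rw [h1] at h
    linarith
  · have h := Alpha.al_sub_le 0
    have h1 : (Alpha.a 0 : ℝ) / Alpha.q 0 = 1 / 16 := by simp [Alpha.a, Alpha.q]
    rw [h1] at h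
    have h2 : (2 : ℝ) / Alpha.q (0 + 1) ≤ 2 / 16 := by
      apply div_le_div_of_nonneg_left (by norm_num) (by norm_num)
      exact_mod_cast Alpha.q_ge 1
    linarith

end Pool.Agent.R953.LV
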