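import Pool.Agent.R953.LV.Defs

set_option autoImplicit false
open Filter Topology MeasureTheory

namespace Pool.Agent.R953.LV

theorem partB (hKey : S_Key) (hVar : S_Var) (hGap : S_Gap) {κ C : ℝ} {p V : ℤ → ℝ} (h : Env κ p V)
    (hC : 0 ≤ C) (q M T : ℕ) (S : ℝ) (hq : 1 ≤ q) (hMR : (M : ℝ) = S ^ 110)
    (hs1 : (q : ℝ) ^ 4 ≤ S) (hs2 : (1024 : ℝ) ≤ S) (hs3 : 4 * C ≤ S) (hs4 : 4 / κ ^ 2 ≤ S)
    (hs5 : Real.exp (2 * Real.log (1 / κ) * q + 2) ≤ S) (hs6 : 800 / Real.sqrt κ ≤ S)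
    (hT1 : S ^ 128 ≤ T * q) (hT2 : (T : ℝ) ≤ S ^ 136)
    (hE : ∀ k : ℤ, |V (k + (M + 1) * q) - V (k - M * q) - (2 * M + 1) * (V (k + q) - V k)| ≤
      4 * C * (q : ℝ) ^ 3 * S ^ 74)
    (hgap : Ex p T idf ((4 * M * q : ℕ) : ℤ) - Ex p T idf (-((4 * M * q : ℕ) : ℤ)) ≤ S ^ 124) :
    va p T 0 < (T : ℝ) ^ 2 / S := by
  by_contra hcon
  push Not at hcon
  have hκ := h.pos
  have hS0 : 0 < S := by linarith
  have hS1 : 1 ≤ S := by linarith
  have hqR : (1 : ℝ) ≤ q := by exact_mod_cast hq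
  have hq0 : (0 : ℝ) < q := by linarith
  -- powers
  have pw : ∀ i j : ℕ, i ≤ j → S ^ i ≤ S ^ j := fun i j hij => pow_le_pow_right₀ hS1 hij
  have hq34 : (q : ℝ) ^ 3 ≤ (q : ℝ) ^ 4 := pow_le_pow_right₀ hqR (by norm_num)
  have hq3 : (q : ℝ) ^ 3 ≤ S := hq34.trans hs1
  have hq1 : (q : ℝ) ≤ S := by
    calc (q : ℝ) = (q : ℝ) ^ 1 := (pow_one _).symm
      _ ≤ (q : ℝ) ^ 4 := pow_le_pow_right₀ hqR (by norm_num)
      _ ≤ S := hs1
  have hq24 : (q : ℝ) ^ 2 ≤ (q : ℝ) ^ 4 := pow_le_pow_right₀ hqR (by norm_num)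
  have hq2 : (q : ℝ) ^ 2 ≤ S := hq24.trans hs1
  have hT127 : S ^ 127 ≤ T := by
    have h1 : S ^ 127 * q ≤ T * q := by
      refine le_trans ?_ hT1
      calc S ^ 127 * q ≤ S ^ 127 * S := mul_le_mul_of_nonneg_left hq1 (by positivity)
        _ = S ^ 128 := by ring
    exact le_of_mul_le_mul_right h1 hq0
  have hT0 : (0 : ℝ) < T := lt_of_lt_of_le (by positivity) hT127
  have hTR : (1 : ℝ) ≤ T := (one_le_pow₀ hS1).trans hT127
  have hT : 1 ≤ T := by exact_mod_cast hTR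
  -- the variance
  obtain ⟨r, hr⟩ : ∃ r : ℝ, r = Real.sqrt (2 * S) := ⟨_, rfl⟩
  have hr0 : 0 < r := by rw [hr]; positivity
  have hrr : r ^ 2 = 2 * S := by rw [hr, Real.sq_sqrt (by positivity)]
  have hrS : r ≤ S := by
    rw [hr, Real.sqrt_le_left hS0.le]
    nlinarith
  have hr1 : 1 ≤ r := by nlinarith
  have hv0 : 0 < (T : ℝ) ^ 2 / S := by positivity
  obtain ⟨a, b, hab, hpa, hpb⟩ := hVar p (fun k => h.pos.le.trans (h.lo k)) (fun k => by linarith [h.hi k, h.pos]) T ((T : ℝ) ^ 2 / S) hT hv0 hcon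
  have hB : Real.sqrt ((T : ℝ) ^ 2 / S / 2) = T / r := by
    rw [show (T : ℝ) ^ 2 / S / 2 = (T / r) ^ 2 by rw [div_pow, hrr]; field_simp]
    exact Real.sqrt_sq (by positivity)
  rw [hB] at hab hpa hpb
  obtain ⟨ε1, hε1⟩ : ∃ ε1 : ℝ, ε1 = 1 / (32 * r * S) := ⟨_, rfl⟩
  have he : (T : ℝ) / r * ((T : ℝ) ^ 2 / S) / (32 * (T : ℝ) ^ 3) = ε1 := by
    rw [hε1]; field_simp
  rw [he] at hpa hpb
  have hε10 : 0 < ε1 := by rw [hε1]; positivity
  have hba : (S ^ 126 : ℝ) ≤ (b : ℝ) - a := by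
    refine le_trans ?_ hab
    rw [le_div_iff₀ hr0]
    calc S ^ 126 * r ≤ S ^ 126 * S := mul_le_mul_of_nonneg_left hrS (by positivity)
      _ = S ^ 127 := by ring
      _ ≤ T := hT127
  have h1024 : (1024 : ℝ) ≤ S ^ 2 := by nlinarith
  have hba8 : (1024 : ℝ) ≤ (b : ℝ) - a := h1024.trans ((pw 2 126 (by norm_num)).trans hba)
  have hbaZ : (1024 : ℤ) ≤ b - a := by exact_mod_cast hba8
  obtain ⟨D, hD⟩ : ∃ D : ℕ, (D : ℤ) = (b - a) / 4 := ⟨((b - a) / 4).toNat, by omega⟩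
  have hD4 : 4 * (D : ℤ) ≤ b - a := by omega
  have hD8 : b - a ≤ 8 * (D : ℤ) := by omega
  have hD1 : 1 ≤ D := by omega
  have hD8R : ((b : ℝ) - a) / 8 ≤ D := by
    have : ((b - a : ℤ) : ℝ) ≤ ((8 * (D : ℤ) : ℤ) : ℝ) := by exact_mod_cast hD8
    push_cast at this; linarith
  have hgap2 : Ex p T idf ((4 * M * q : ℕ) : ℤ) - Ex p T idf (-((4 * M * q : ℕ) : ℤ)) ≤ D * ε1 / 2 := by
    refine hgap.trans ?_
    have h1 : (T : ℝ) / r / 8 ≤ D := by
      refine le_trans ?_ hD8R; linarith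
    have h2 : (T : ℝ) / r / 8 * ε1 / 2 ≤ D * ε1 / 2 := by
      have := mul_le_mul_of_nonneg_right h1 hε10.le
      linarith
    refine le_trans ?_ h2
    have h3 : (T : ℝ) / r / 8 * ε1 / 2 = T / (1024 * S ^ 2) := by
      rw [hε1]
      have : (T : ℝ) / r / 8 * (1 / (32 * r * S)) / 2 = T / (512 * r ^ 2 * S) := by
        field_simp; ring
      rw [this, hrr]
      congr 1; ring
    rw [h3, le_div_iff₀ (by positivity)]
    calc S ^ 124 * (1024 * S ^ 2) = 1024 * S ^ 126 := by ring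
      _ ≤ S * S ^ 126 := mul_le_mul_of_nonneg_right hs2 (by positivity)
      _ = S ^ 127 := by ring
      _ ≤ T := hT127
  obtain ⟨g1, g2⟩ := hGap p (fun k => h.pos.le.trans (h.lo k)) (fun k => by linarith [h.hi k, h.pos]) T (4 * M * q) D ε1 a b hD1 ⟨2 * M * q, by ring⟩ hgap2 hpa hpb
  -- apply the key lemma
  have hJc : (((4 * M * q : ℕ)) : ℤ) = 4 * (M : ℤ) * q := by push_cast; ring
  rw [hJc] at g1 g2
  obtain ⟨ε, hε⟩ : ∃ ε : ℝ, ε = ε1 / 2 := ⟨_, rfl⟩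
  rw [← hε] at g1 g2
  have hε' : ε = 1 / (64 * r * S) := by rw [hε, hε1]; field_simp; norm_num
  have hε0 : 0 < ε := by rw [hε']; positivity
  have h64 : (1 : ℝ) ≤ 64 * r * S := by nlinarith
  have hεle : ε ≤ 1 := by
    rw [hε', div_le_one (by positivity)]; exact h64
  have h4ε : 4 / ε ≤ 256 * S ^ 2 := by
    rw [hε', div_div_eq_mul_div, div_one]
    calc 4 * (64 * r * S) = 256 * (r * S) := by ring
      _ ≤ 256 * (S * S) := by
        apply mul_le_mul_of_nonneg_left _ (by norm_num)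
        exact mul_le_mul_of_nonneg_right hrS hS0.le
      _ = 256 * S ^ 2 := by ring
  have hMq : ((M : ℝ) * q) ^ 2 ≥ S ^ 220 := by
    rw [hMR]
    calc (S ^ 110 * (q : ℝ)) ^ 2 = S ^ 220 * (q : ℝ) ^ 2 := by ring
      _ ≥ S ^ 220 * 1 := mul_le_mul_of_nonneg_left (one_le_pow₀ hqR) (by positivity)
      _ = S ^ 220 := by ring
  have hκs : 0 < Real.sqrt κ := Real.sqrt_pos.mpr hκ
  have hLg : Lg κ T ε ≤ 278 * S := by
    unfold Lg
    have h1 : 2 * ((T : ℝ) + 1) / (Real.sqrt κ * ε) ≤ S ^ 139 := by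
      rw [hε', div_le_iff₀ (by positivity)]
      have e1 : S ^ 139 * (Real.sqrt κ * (1 / (64 * r * S))) = S ^ 138 * Real.sqrt κ / (64 * r) := by
        field_simp
      rw [e1, le_div_iff₀ (by positivity)]
      have e2 : 800 ≤ S * Real.sqrt κ := by
        rwa [div_le_iff₀ hκs] at hs6
      have e3 : (T : ℝ) + 1 ≤ 2 * S ^ 136 := by
        have : (1 : ℝ) ≤ S ^ 136 := one_le_pow₀ hS1
        linarith
      calc 2 * ((T : ℝ) + 1) * (64 * r) ≤ 2 * (2 * S ^ 136) * (64 * S) := by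
            apply mul_le_mul _ _ (by positivity) (by positivity)
            · linarith
            · linarith
        _ = 256 * S ^ 137 := by ring
        _ ≤ 800 * S ^ 137 := by
            apply mul_le_mul_of_nonneg_right (by norm_num) (by positivity)
        _ ≤ (S * Real.sqrt κ) * S ^ 137 := mul_le_mul_of_nonneg_right e2 (by positivity)
        _ = S ^ 138 * Real.sqrt κ := by ring
    have h2 : Real.log (2 * ((T : ℝ) + 1) / (Real.sqrt κ * ε)) ≤ Real.log (S ^ 139) :=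
      Real.log_le_log (by positivity) h1
    rw [Real.log_pow] at h2
    have h3 := Real.log_le_sub_one_of_pos hS0
    push_cast at h2
    nlinarith
  obtain ⟨E, hEd⟩ : ∃ E : ℝ, E = 4 * C * (q : ℝ) ^ 3 * S ^ 74 := ⟨_, rfl⟩
  have hE0 : 0 ≤ E := by rw [hEd]; positivity
  have hE76 : E ≤ S ^ 76 := by
    rw [hEd]
    calc 4 * C * (q : ℝ) ^ 3 * S ^ 74 ≤ S * S * S ^ 74 := by
          apply mul_le_mul_of_nonneg_right _ (by positivity)
          exact mul_le_mul hs3 hq3 (by positivity) hS0.le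
      _ = S ^ 76 := by ring
  have hC1 : (T : ℝ) * (Lg κ T ε + E) ≤ ((M : ℝ) * q) ^ 2 := by
    have h1 : Lg κ T ε + E ≤ S ^ 77 := by
      have a1 : 278 * S ≤ S ^ 76 := by
        calc 278 * S ≤ S * S := mul_le_mul_of_nonneg_right (by linarith) hS0.le
          _ = S ^ 2 := by ring
          _ ≤ S ^ 76 := pw 2 76 (by norm_num)
      have a2 : S ^ 76 + S ^ 76 ≤ S ^ 77 := by
        calc S ^ 76 + S ^ 76 = 2 * S ^ 76 := by ring
          _ ≤ S * S ^ 76 := mul_le_mul_of_nonneg_right (by linarith) (by positivity)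
          _ = S ^ 77 := by ring
      linarith
    calc (T : ℝ) * (Lg κ T ε + E) ≤ T * S ^ 77 := mul_le_mul_of_nonneg_left h1 hT0.le
      _ ≤ S ^ 136 * S ^ 77 := mul_le_mul_of_nonneg_right hT2 (by positivity)
      _ = S ^ 213 := by ring
      _ ≤ S ^ 220 := pw 213 220 (by norm_num)
      _ ≤ ((M : ℝ) * q) ^ 2 := hMq
  have hJT : 4 * M * q ≤ T := by
    have : (4 : ℝ) * M * q ≤ T := by
      rw [hMR]
      calc 4 * S ^ 110 * (q : ℝ) ≤ S * S ^ 110 * S := by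
            apply mul_le_mul _ hq1 hq0.le (by positivity)
            exact mul_le_mul_of_nonneg_right (by linarith) (by positivity)
        _ = S ^ 112 := by ring
        _ ≤ S ^ 127 := pw 112 127 (by norm_num)
        _ ≤ T := hT127
    exact_mod_cast this
  have hMT : M * q ^ 2 ≤ T := by
    have : (M : ℝ) * (q : ℝ) ^ 2 ≤ T := by
      rw [hMR]
      calc S ^ 110 * (q : ℝ) ^ 2 ≤ S ^ 110 * S := mul_le_mul_of_nonneg_left hq2 (by positivity)
        _ = S ^ 111 := by ring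
        _ ≤ S ^ 127 := pw 111 127 (by norm_num)
        _ ≤ T := hT127
    exact_mod_cast this
  have hM1 : 1 ≤ M := by
    have : (1 : ℝ) ≤ M := by rw [hMR]; exact one_le_pow₀ hS1
    exact_mod_cast this
  have hC3 : Real.log (4 / ε) < κ ^ 2 * ((M : ℝ) * q) ^ 4 /
      (4 * Real.exp (2 * Real.log (1 / κ) * q + 2) * (T : ℝ) ^ 3) := by
    have h1 : Real.log (4 / ε) ≤ 256 * S ^ 2 := by
      have := Real.log_le_sub_one_of_pos (show 0 < 4 / ε by positivity)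
      linarith
    have h2 : 256 * S ^ 2 < S ^ 4 := by
      have : 256 * S ^ 2 < S ^ 2 * S ^ 2 := by
        apply mul_lt_mul_of_pos_right _ (by positivity)
        nlinarith
      calc 256 * S ^ 2 < S ^ 2 * S ^ 2 := this
        _ = S ^ 4 := by ring
    have h3 : S ^ 4 ≤ κ ^ 2 * ((M : ℝ) * q) ^ 4 /
      (4 * Real.exp (2 * Real.log (1 / κ) * q + 2) * (T : ℝ) ^ 3) := by
      rw [le_div_iff₀ (by positivity)]
      have b1 : (T : ℝ) ^ 3 ≤ S ^ 408 := by
        calc (T : ℝ) ^ 3 ≤ (S ^ 136) ^ 3 := pow_le_pow_left₀ hT0.le hT2 3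
          _ = S ^ 408 := by ring
      have b2 : S ^ 440 ≤ ((M : ℝ) * q) ^ 4 := by
        calc S ^ 440 = (S ^ 220) ^ 2 := by ring
          _ ≤ (((M : ℝ) * q) ^ 2) ^ 2 := pow_le_pow_left₀ (by positivity) hMq 2
          _ = ((M : ℝ) * q) ^ 4 := by ring
      have b3 : 4 ≤ S * κ ^ 2 := by rwa [div_le_iff₀ (by positivity)] at hs4
      calc S ^ 4 * (4 * Real.exp (2 * Real.log (1 / κ) * q + 2) * (T : ℝ) ^ 3)
          ≤ S ^ 4 * ((S * κ ^ 2) * S * S ^ 408) := by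
            apply mul_le_mul_of_nonneg_left _ (by positivity)
            apply mul_le_mul _ b1 (by positivity) (by positivity)
            exact mul_le_mul b3 hs5 (Real.exp_pos _).le (by positivity)
        _ = κ ^ 2 * S ^ 414 := by ring
        _ ≤ κ ^ 2 * S ^ 440 := mul_le_mul_of_nonneg_left (pw 414 440 (by norm_num)) (by positivity)
        _ ≤ κ ^ 2 * ((M : ℝ) * q) ^ 4 := mul_le_mul_of_nonneg_left b2 (by positivity)
    linarith
  have hfin : a + D + 6 * (M : ℤ) * q ≤ b - D := by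
    have h1 : 12 * (M : ℝ) * q ≤ (b : ℝ) - a := by
      refine le_trans ?_ hba
      rw [hMR]
      calc 12 * S ^ 110 * (q : ℝ) ≤ S * S ^ 110 * S := by
            apply mul_le_mul _ hq1 hq0.le (by positivity)
            exact mul_le_mul_of_nonneg_right (by linarith) (by positivity)
        _ = S ^ 112 := by ring
        _ ≤ S ^ 126 := pw 112 126 (by norm_num)
    have h2 : 12 * (M : ℤ) * q ≤ b - a := by exact_mod_cast h1
    have h3 : 12 * (M : ℤ) * q = 2 * (6 * (M : ℤ) * q) := by ring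
    omega
  exact hKey κ p V h q M T E ε (a + D) (b - D) hq hM1 hT hE0 (by rw [hEd]; exact hE) hε0 hεle hC1 hJT hMT hC3
    hfin g2 g1

end Pool.Agent.R953.LV
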