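import Pool.Agent.R953.LV.Defs
import Pool.Agent.R953.LV.PartB

set_option autoImplicit false
open Filter Topology MeasureTheory

namespace Pool.Agent.R953.LV

lemma exists_pot (h : ℤ → ℝ) : ∃ V : ℤ → ℝ, ∀ k, V (k + 1) - V k = h k := by
  refine ⟨fun k => if 0 ≤ k then ∑ i ∈ Finset.range k.toNat, h i
    else -∑ i ∈ Finset.range (-k).toNat, h (-(i : ℤ) - 1), ?_⟩
  intro k
  beta_reduce
  by_cases hk : 0 ≤ k
  · rw [if_pos hk, if_pos (by omega), show (k + 1).toNat = k.toNat + 1 by omega, Finset.sum_range_succ]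
    rw [show ((k.toNat : ℕ) : ℤ) = k by omega]
    ring
  · rw [if_neg hk]
    obtain ⟨n, hn⟩ : ∃ n : ℕ, k = -((n : ℤ) + 1) := ⟨(-k - 1).toNat, by omega⟩
    have e1 : (-k).toNat = n + 1 := by omega
    rw [e1, Finset.sum_range_succ]
    have e2 : h (-(n : ℤ) - 1) = h k := by rw [hn]; congr 1; ring
    by_cases hn0 : n = 0
    · subst hn0
      rw [if_pos (by omega), show (k + 1).toNat = 0 by omega]
      simp
      rw [hn]; simp
    · rw [if_neg (by omega), show (-(k + 1)).toNat = n by omega, e2]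
      ring

lemma tele {V : ℤ → ℝ} {g : ℝ → ℝ} {α x : ℝ} (hV : ∀ k : ℤ, V (k + 1) - V k = g (x + k * α)) (k : ℤ) :
    ∀ n : ℕ, V (k + n) - V k = ∑ i ∈ Finset.range n, g ((x + k * α) + i * α) := by
  intro n
  induction n with
  | zero => simp
  | succ n ih =>
    rw [Finset.sum_range_succ, ← ih]
    have := hV (k + n)
    push_cast at this ⊢
    rw [show (x + ((k : ℝ) + n) * α) = x + k * α + n * α by ring] at this
    rw [show k + ((n : ℤ) + 1) = k + n + 1 by ring]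
    linarith

/-- the long period regime -/
lemma partA (hG : S_Gron) {π : ℝ → ℝ} {L : ℝ} (hL : 0 ≤ L) (h0 : ∀ y, 0 ≤ π y) (h1 : ∀ y, π y ≤ 1)
    (hper : Function.Periodic π 1) (hlip : ∀ y z, |π y - π z| ≤ L * |y - z|) {α x : ℝ} {q Q T : ℕ} {a : ℤ}
    (hq : 1 ≤ q) (hQ : 1 ≤ Q) (hT : 1 ≤ T) (hα : |α - a / q| ≤ 2 / Q) (hTQ : T * q ≤ Q) (hqT : q ^ 3 ≤ T)
    (hLq : Real.exp (16 * L) ≤ q) : va (env π α x) T 0 ≤ (T : ℝ) ^ (2 - 1 / 200 : ℝ) := by
  have hqR : (1 : ℝ) ≤ q := by exact_mod_cast hq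
  have hq0 : (0 : ℝ) < q := by linarith
  have hQR : (1 : ℝ) ≤ Q := by exact_mod_cast hQ
  have hQ0 : (0 : ℝ) < Q := by linarith
  have hTR : (1 : ℝ) ≤ T := by exact_mod_cast hT
  have hT0 : (0 : ℝ) < T := by linarith
  have hTQR : (T : ℝ) * q ≤ Q := by exact_mod_cast hTQ
  have hqTR : (q : ℝ) ^ 3 ≤ T := by exact_mod_cast hqT
  have h2 := hG π L hL h0 h1 hper hlip α x q a T hq
  have h3 : |q * α - a| ≤ q * (2 / Q) := by
    have : (q : ℝ) * α - a = q * (α - a / q) := by field_simp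
    rw [this, abs_mul, abs_of_pos hq0]
    exact mul_le_mul_of_nonneg_left hα hq0.le
  have h4 : 4 * |q * α - a| * L * T ≤ 8 * L := by
    have e1 : 4 * |q * α - a| * L * T ≤ 4 * (q * (2 / Q)) * L * T := by
      gcongr
    have e2 : 4 * (q * (2 / Q)) * L * T = 8 * L * (T * q / Q) := by ring
    have e3 : (T : ℝ) * q / Q ≤ 1 := by rw [div_le_one hQ0]; exact hTQR
    have e4 : 8 * L * (T * q / Q) ≤ 8 * L * 1 := mul_le_mul_of_nonneg_left e3 (by positivity)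
    linarith
  have h5 : Real.exp (4 * |q * α - a| * L * T) ≤ Real.exp (8 * L) := Real.exp_le_exp.mpr h4
  have h6 : Real.exp (8 * L) ≤ (q : ℝ) ^ (1 / 2 : ℝ) := by
    have : Real.exp (8 * L) = (Real.exp (16 * L)) ^ (1 / 2 : ℝ) := by
      rw [← Real.exp_mul]; congr 1; ring
    rw [this]
    exact Real.rpow_le_rpow (Real.exp_pos _).le hLq (by norm_num)
  have h7 : (q : ℝ) ^ 2 * Real.exp (4 * |q * α - a| * L * T) ≤ (T : ℝ) ^ (1 - 1 / 200 : ℝ) := by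
    calc (q : ℝ) ^ 2 * Real.exp (4 * |q * α - a| * L * T) ≤ (q : ℝ) ^ 2 * (q : ℝ) ^ (1 / 2 : ℝ) :=
          mul_le_mul_of_nonneg_left (h5.trans h6) (by positivity)
      _ = (q : ℝ) ^ (5 / 2 : ℝ) := by
          rw [← Real.rpow_natCast, ← Real.rpow_add hq0]; norm_num
      _ ≤ (q : ℝ) ^ (3 * (1 - 1 / 200) : ℝ) := Real.rpow_le_rpow_of_exponent_le hqR (by norm_num)
      _ = ((q : ℝ) ^ 3) ^ (1 - 1 / 200 : ℝ) := by
          rw [Real.rpow_mul hq0.le]; norm_num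
      _ ≤ (T : ℝ) ^ (1 - 1 / 200 : ℝ) := Real.rpow_le_rpow (by positivity) hqTR (by norm_num)
  calc va (env π α x) T 0 ≤ T * (q : ℝ) ^ 2 * Real.exp (4 * |q * α - a| * L * T) := h2
    _ = T * ((q : ℝ) ^ 2 * Real.exp (4 * |q * α - a| * L * T)) := by ring
    _ ≤ T * (T : ℝ) ^ (1 - 1 / 200 : ℝ) := mul_le_mul_of_nonneg_left h7 hT0.le
    _ = (T : ℝ) ^ (2 - 1 / 200 : ℝ) := by
        rw [show (2 - 1 / 200 : ℝ) = 1 + (1 - 1 / 200) by norm_num, Real.rpow_add hT0, Real.rpow_one]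

/-- from the middle regime -/
lemma partB_exp {v S : ℝ} {T : ℕ} (hS : 1 ≤ S) (hT : 1 ≤ T) (hT2 : (T : ℝ) ≤ S ^ 136)
    (hv : v < (T : ℝ) ^ 2 / S) : v ≤ (T : ℝ) ^ (2 - 1 / 200 : ℝ) := by
  have hTR : (1 : ℝ) ≤ T := by exact_mod_cast hT
  have hT0 : (0 : ℝ) < T := by linarith
  have hS0 : 0 < S := by linarith
  have h1 : (T : ℝ) ^ (1 / 200 : ℝ) ≤ S := by
    calc (T : ℝ) ^ (1 / 200 : ℝ) ≤ (S ^ 136) ^ (1 / 200 : ℝ) := Real.rpow_le_rpow hT0.le hT2 (by norm_num)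
      _ = S ^ (136 / 200 : ℝ) := by
          rw [← Real.rpow_natCast, ← Real.rpow_mul hS0.le]; norm_num
      _ ≤ S ^ (1 : ℝ) := Real.rpow_le_rpow_of_exponent_le hS (by norm_num)
      _ = S := Real.rpow_one _
  refine hv.le.trans ?_
  rw [Real.rpow_sub hT0]
  have : (T : ℝ) ^ (2 : ℝ) = (T : ℝ) ^ 2 := by exact_mod_cast Real.rpow_natCast (T : ℝ) 2
  rw [this]
  exact div_le_div_of_nonneg_left (by positivity) (by positivity) h1

/-- the diffusive upper regime -/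
lemma partC_exp {v K S Q : ℝ} {T : ℕ} (hS : 1 ≤ S) (hT : 1 ≤ T) (hK : K ≤ S) (hQ : Q = S ^ 128)
    (hT1 : S ^ 136 ≤ T) (hv : v ≤ K * Q * T) : v ≤ (T : ℝ) ^ (2 - 1 / 200 : ℝ) := by
  have hTR : (1 : ℝ) ≤ T := by exact_mod_cast hT
  have hT0 : (0 : ℝ) < T := by linarith
  have hS0 : 0 < S := by linarith
  have h1 : K * Q ≤ (T : ℝ) ^ (1 - 1 / 200 : ℝ) := by
    calc K * Q ≤ S * S ^ 128 := by
          rw [hQ]; exact mul_le_mul_of_nonneg_right hK (by positivity)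
      _ = S ^ (129 : ℝ) := by
          have : S ^ (129 : ℝ) = S ^ 129 := by exact_mod_cast Real.rpow_natCast S 129
          rw [this]; ring
      _ ≤ S ^ (136 * (1 - 1 / 200) : ℝ) := Real.rpow_le_rpow_of_exponent_le hS (by norm_num)
      _ = (S ^ 136) ^ (1 - 1 / 200 : ℝ) := by
          rw [Real.rpow_mul hS0.le]; norm_num
      _ ≤ (T : ℝ) ^ (1 - 1 / 200 : ℝ) := Real.rpow_le_rpow (by positivity) hT1 (by norm_num)
  calc v ≤ K * Q * T := hv
    _ ≤ (T : ℝ) ^ (1 - 1 / 200 : ℝ) * T := mul_le_mul_of_nonneg_right h1 hT0.le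
    _ = (T : ℝ) ^ (2 - 1 / 200 : ℝ) := by
        rw [show (2 - 1 / 200 : ℝ) = (1 - 1 / 200) + 1 by norm_num, Real.rpow_add hT0, Real.rpow_one]

section seq
variable {q : ℕ → ℕ} (h0 : q 0 = 16) (hs : ∀ n, q (n + 1) = 2 ^ ((q n) ^ 2))
include h0 hs

lemma q_ge (n : ℕ) : 16 ≤ q n := by
  induction n with
  | zero => rw [h0]
  | succ n ih =>
    rw [hs]
    calc 16 = 2 ^ 4 := by norm_num
      _ ≤ 2 ^ ((q n) ^ 2) := Nat.pow_le_pow_right (by norm_num) (by nlinarith)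

lemma q_pow (n : ℕ) : ∃ m, 4 ≤ m ∧ q n = 2 ^ m := by
  cases n with
  | zero => exact ⟨4, le_rfl, by rw [h0]; norm_num⟩
  | succ n =>
    have := q_ge h0 hs n
    exact ⟨(q n) ^ 2, by nlinarith, hs n⟩

lemma q_dvd (n : ℕ) : 128 ∣ (q n) ^ 2 := by
  obtain ⟨m, hm, e⟩ := q_pow h0 hs n
  rw [e, ← pow_mul, show (128 : ℕ) = 2 ^ 7 by norm_num]
  exact pow_dvd_pow 2 (by omega)

lemma q_S (n : ℕ) : ((2 ^ ((q n) ^ 2 / 128) : ℕ)) ^ 128 = q (n + 1) := by
  rw [hs, ← pow_mul, Nat.div_mul_cancel (q_dvd h0 hs n)]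

lemma q_double (n : ℕ) : 2 * q n ≤ q (n + 1) := by
  rw [hs]
  have h1 := q_ge h0 hs n
  have h2 : q n < 2 ^ (q n) := Nat.lt_two_pow_self
  calc 2 * q n ≤ 2 * 2 ^ (q n) := by omega
    _ = 2 ^ (q n + 1) := by ring
    _ ≤ 2 ^ ((q n) ^ 2) := Nat.pow_le_pow_right (by norm_num) (by nlinarith)

lemma q_exp (n : ℕ) : 16 * 2 ^ n ≤ q n := by
  induction n with
  | zero => rw [h0]; norm_num
  | succ n ih =>
    have := q_double h0 hs n
    calc 16 * 2 ^ (n + 1) = 2 * (16 * 2 ^ n) := by ring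
      _ ≤ 2 * q n := by omega
      _ ≤ q (n + 1) := this

lemma q_tendsto : Tendsto q atTop atTop := by
  apply tendsto_atTop_mono (f := fun n : ℕ => n) _ tendsto_id
  intro n
  have h1 := q_exp h0 hs n
  have h2 : n < 2 ^ n := Nat.lt_two_pow_self
  omega

lemma S_ge (n : ℕ) : 2 ^ n ≤ 2 ^ ((q n) ^ 2 / 128) := by
  apply Nat.pow_le_pow_right (by norm_num)
  rw [Nat.le_div_iff_mul_le (by norm_num)]
  have h1 := q_exp h0 hs n
  have h2 : n < 2 ^ n := Nat.lt_two_pow_self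
  have h3 : (16 * 2 ^ n) ^ 2 ≤ (q n) ^ 2 := Nat.pow_le_pow_left h1 2
  nlinarith

lemma S_big (K : ℝ) (hK : 0 ≤ K) : ∀ᶠ n in atTop, K * Real.exp (K * q n) ≤ ((2 ^ ((q n) ^ 2 / 128) : ℕ) : ℝ) := by
  have h1 : Tendsto (fun n => ((q n : ℕ) : ℝ)) atTop atTop :=
    tendsto_natCast_atTop_atTop.comp (q_tendsto h0 hs)
  filter_upwards [h1.eventually_ge_atTop (256 * K / Real.log 2)] with n hn
  have hlog : 0 < Real.log 2 := Real.log_pos (by norm_num)
  have hq1 : (1 : ℝ) ≤ q n := by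
    have := q_ge h0 hs n
    exact_mod_cast (by omega : 1 ≤ q n)
  have e1 : ((2 ^ ((q n) ^ 2 / 128) : ℕ) : ℝ) = Real.exp (Real.log 2 * ((q n : ℝ) ^ 2 / 128)) := by
    push_cast
    have : (((q n) ^ 2 / 128 : ℕ) : ℝ) = (q n : ℝ) ^ 2 / 128 := by
      rw [Nat.cast_div (q_dvd h0 hs n) (by norm_num)]; push_cast; ring
    rw [← this, mul_comm, Real.exp_nat_mul, Real.exp_log (by norm_num)]
  rw [e1]
  have e2 : K ≤ Real.exp K := by linarith [Real.add_one_le_exp K]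
  have e3 : K * Real.exp (K * q n) ≤ Real.exp (K + K * q n) := by
    rw [Real.exp_add]; exact mul_le_mul_of_nonneg_right e2 (Real.exp_pos _).le
  refine e3.trans (Real.exp_le_exp.mpr ?_)
  have e4 : 256 * K ≤ Real.log 2 * q n := by
    rw [div_le_iff₀ hlog] at hn; linarith
  have e5 : K + K * q n ≤ 2 * K * q n := by nlinarith
  have e6 : 256 * K * q n ≤ Real.log 2 * q n * q n := mul_le_mul_of_nonneg_right e4 (by linarith)
  nlinarith

end seq

end Pool.Agent.R953.LV
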