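import Pool.Agent.R953.LV.Defs

set_option autoImplicit false
open Filter Topology MeasureTheory

/-!
Project LV (MP_545af4_pr), piece LV-C2: second differences of the potential.
-/
namespace Pool.Agent.R953.LV

namespace C2

theorem tele (g : ℝ → ℝ) (α x : ℝ) (V : ℤ → ℝ) (hV : ∀ k : ℤ, V (k + 1) - V k = g (x + k * α))
    (k : ℤ) (n : ℕ) : V (k + n) - V k = ∑ i ∈ Finset.range n, g (x + k * α + i * α) := by
  induction n with
  | zero => simp
  | succ n ih =>
    rw [Finset.sum_range_succ, ← ih]
    have h := hV (k + n)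
    have e1 : (k : ℤ) + ((n + 1 : ℕ) : ℤ) = k + n + 1 := by push_cast; ring
    rw [e1]
    have e2 : x + ((k + n : ℤ) : ℝ) * α = x + k * α + n * α := by push_cast; ring
    rw [e2] at h
    linarith

end C2

theorem s_C2 : S_C2 := by
  intro g C hC hper hg α x V hV q M a _ _ k
  set γ : ℝ := q * α - a with hγ
  set H : ℤ → ℝ := fun j => ∑ i ∈ Finset.range q, g (x + k * α + j * γ + i * α) with hH
  have hW : ∀ j : ℤ, V (k + (j + 1) * q) - V (k + j * q) = H j := by
    intro j
    have h := C2.tele g α x V hV (k + j * q) q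
    have e1 : k + (j + 1) * (q : ℤ) = k + j * q + q := by ring
    rw [e1, h, hH]
    apply Finset.sum_congr rfl
    intro i _
    have h2 := hper.sub_zsmul_eq (x := x + ((k + j * q : ℤ) : ℝ) * α + i * α) (j * a)
    rw [← h2]
    congr 1
    rw [hγ]
    simp only [zsmul_eq_mul, mul_one]
    push_cast
    ring
  have hHb : ∀ m : ℝ, ∀ j : ℤ, (j : ℝ) = m → |H j + H (-j) - 2 * H 0| ≤ q * C * γ ^ 2 * m ^ 2 := by
    intro m j hj
    have e1 : H j + H (-j) - 2 * H 0 = ∑ i ∈ Finset.range q, (g ((x + k * α + i * α) + j * γ) +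
        g ((x + k * α + i * α) - j * γ) - 2 * g (x + k * α + i * α)) := by
      rw [Finset.sum_sub_distrib, Finset.sum_add_distrib, ← Finset.mul_sum, hH]
      simp only
      congr 1
      · congr 1
        · apply Finset.sum_congr rfl; intro i _; congr 1; ring
        · apply Finset.sum_congr rfl; intro i _; congr 1; push_cast; ring
      · congr 1
        apply Finset.sum_congr rfl; intro i _; congr 1; push_cast; ring
    rw [e1]
    refine (Finset.abs_sum_le_sum_abs _ _).trans ?_
    calc ∑ i ∈ Finset.range q, |g ((x + k * α + i * α) + j * γ) +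
        g ((x + k * α + i * α) - j * γ) - 2 * g (x + k * α + i * α)|
        ≤ ∑ i ∈ Finset.range q, C * (j * γ) ^ 2 := Finset.sum_le_sum fun i _ => hg _ _
      _ = q * C * γ ^ 2 * m ^ 2 := by
          rw [Finset.sum_const, Finset.card_range, nsmul_eq_mul, hj]; ring
  have key : ∀ M : ℕ, |V (k + (M + 1) * q) - V (k - M * q) - (2 * M + 1) * (V (k + q) - V k)|
      ≤ q * C * γ ^ 2 * (M : ℝ) ^ 3 := by
    intro M
    induction M with
    | zero => simp
    | succ M ih =>
      have h1 := hW (M + 1)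
      have h2 := hW (-(M + 1))
      have h3 := hW 0
      have h4 := hHb (M + 1) (M + 1) (by push_cast; ring)
      have e1 : k + ((M : ℤ) + 1 + 1) * q = k + (((M + 1 : ℕ) : ℤ) + 1) * q := by push_cast; ring
      have e2 : k + (-((M : ℤ) + 1)) * q = k - ((M + 1 : ℕ) : ℤ) * q := by push_cast; ring
      have e3 : k + (-((M : ℤ) + 1) + 1) * q = k - M * q := by ring
      have e4 : k + ((0 : ℤ) + 1) * q = k + q := by ring
      have e5 : k + (0 : ℤ) * q = k := by ring
      rw [e1] at h1
      rw [e2, e3] at h2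
      rw [e4, e5] at h3
      have e6 : V (k + (((M + 1 : ℕ) : ℤ) + 1) * q) - V (k - ((M + 1 : ℕ) : ℤ) * q) -
          (2 * ((M + 1 : ℕ) : ℝ) + 1) * (V (k + q) - V k)
          = (V (k + (M + 1) * q) - V (k - M * q) - (2 * M + 1) * (V (k + q) - V k)) +
            (H (M + 1) + H (-(M + 1)) - 2 * H 0) := by
        push_cast
        push_cast at h1 h2 h3
        linear_combination h1 + h2 - 2 * h3
      rw [e6]
      refine (abs_add_le _ _).trans ?_
      have hB : 0 ≤ q * C * γ ^ 2 := by positivity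
      calc _ ≤ q * C * γ ^ 2 * (M : ℝ) ^ 3 + q * C * γ ^ 2 * ((M : ℝ) + 1) ^ 2 := add_le_add ih h4
        _ = q * C * γ ^ 2 * ((M : ℝ) ^ 3 + ((M : ℝ) + 1) ^ 2) := by ring
        _ ≤ q * C * γ ^ 2 * ((M + 1 : ℕ) : ℝ) ^ 3 := by
            apply mul_le_mul_of_nonneg_left _ hB
            push_cast
            have : (0 : ℝ) ≤ M := Nat.cast_nonneg M
            nlinarith
  exact key M

end Pool.Agent.R953.LV
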