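import Pool.Agent.R953.LV.Defs

set_option autoImplicit false
open Filter Topology MeasureTheory

/-!
# Piece LV-CV: the Carne–Varopoulos bound for birth and death chains
-/
namespace Pool.Agent.R953.LV

/-- the weighted bilinear form -/
noncomputable def cvB (w f h : ℤ → ℝ) : ℝ := ∑' k, w k * (f k * h k)

lemma cv_sum {f : ℤ → ℝ} (hf : (Function.support f).Finite) {g : ℤ → ℝ}
    (hg : ∀ k, f k = 0 → g k = 0) : Summable g := by
  apply summable_of_finite_support
  apply hf.subset
  intro k hk h
  exact hk (hg k h)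

lemma cv_sum_r {f : ℤ → ℝ} (hf : (Function.support f).Finite) {g : ℤ → ℝ}
    (hg : ∀ k, f (k + 1) = 0 → g k = 0) : Summable g := by
  have h1 : Summable (fun k => g (k - 1)) := by
    apply cv_sum hf
    intro k hk
    apply hg
    simpa using hk
  have := (Equiv.subRight (1 : ℤ)).summable_iff (f := g)
  exact this.mp h1

lemma cv_sum_l {f : ℤ → ℝ} (hf : (Function.support f).Finite) {g : ℤ → ℝ}
    (hg : ∀ k, f (k - 1) = 0 → g k = 0) : Summable g := by
  have h1 : Summable (fun k => g (k + 1)) := by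
    apply cv_sum hf
    intro k hk
    apply hg
    simpa using hk
  have := (Equiv.addRight (1 : ℤ)).summable_iff (f := g)
  exact this.mp h1

lemma cv_shift (g : ℤ → ℝ) : ∑' k, g (k + 1) = ∑' k, g k :=
  (Equiv.addRight (1 : ℤ)).tsum_eq g

lemma cv_fs_P {p f : ℤ → ℝ} (hf : (Function.support f).Finite) :
    (Function.support (P p f)).Finite := by
  have h1 : ((fun k : ℤ => k - 1) '' Function.support f ∪
      (fun k : ℤ => k + 1) '' Function.support f).Finite := (hf.image _).union (hf.image _)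
  apply h1.subset
  intro k hk
  by_contra hcon
  rw [Set.mem_union, not_or] at hcon
  apply hk
  have e1 : f (k + 1) = 0 := by
    by_contra h
    exact hcon.1 ⟨k + 1, h, by simp⟩
  have e2 : f (k - 1) = 0 := by
    by_contra h
    exact hcon.2 ⟨k - 1, h, by simp⟩
  simp [P, e1, e2]

lemma cv_fs_add {f g : ℤ → ℝ} (hf : (Function.support f).Finite)
    (hg : (Function.support g).Finite) : (Function.support (f + g)).Finite :=
  (hf.union hg).subset (Function.support_add f g)

lemma cv_fs_sub {f g : ℤ → ℝ} (hf : (Function.support f).Finite)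
    (hg : (Function.support g).Finite) : (Function.support (f - g)).Finite :=
  (hf.union hg).subset (Function.support_sub f g)

lemma cv_sym {p w : ℤ → ℝ} (hw : ∀ k, w k * p k = w (k + 1) * (1 - p (k + 1))) {f h : ℤ → ℝ}
    (hf : (Function.support f).Finite) : cvB w f (P p h) = cvB w (P p f) h := by
  have h1 : cvB w f (P p h) = ∑' k, w k * p k * (f k * h (k + 1)) +
      ∑' k, w k * (1 - p k) * (f k * h (k - 1)) := by
    rw [← Summable.tsum_add (cv_sum hf (by intro k hk; simp [hk]))
      (cv_sum hf (by intro k hk; simp [hk]))]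
    apply tsum_congr
    intro k
    simp only [P]
    ring
  have h2 : cvB w (P p f) h = ∑' k, w k * p k * (f (k + 1) * h k) +
      ∑' k, w k * (1 - p k) * (f (k - 1) * h k) := by
    rw [← Summable.tsum_add (cv_sum_r hf (by intro k hk; simp [hk]))
      (cv_sum_l hf (by intro k hk; simp [hk]))]
    apply tsum_congr
    intro k
    simp only [P]
    ring
  rw [h1, h2, ← cv_shift (fun k => w k * (1 - p k) * (f k * h (k - 1))),
    ← cv_shift (fun k => w k * (1 - p k) * (f (k - 1) * h k)), add_comm]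
  congr 1
  · apply tsum_congr
    intro k
    simp only [add_sub_cancel_right]
    rw [hw k]
  · apply tsum_congr
    intro k
    simp only [add_sub_cancel_right]
    rw [hw k]

lemma cv_comm (w f h : ℤ → ℝ) : cvB w f h = cvB w h f := by
  unfold cvB
  apply tsum_congr
  intro k
  ring

lemma cv_contr {p w : ℤ → ℝ} (hw : ∀ k, w k * p k = w (k + 1) * (1 - p (k + 1)))
    (hw0 : ∀ k, 0 ≤ w k) (hp0 : ∀ k, 0 ≤ p k) (hp1 : ∀ k, p k ≤ 1) {f : ℤ → ℝ}
    (hf : (Function.support f).Finite) : cvB w (P p f) (P p f) ≤ cvB w f f := by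
  have s1 : Summable (fun k => w k * p k * (f (k + 1) * f (k + 1))) :=
    cv_sum_r hf (by intro k hk; simp [hk])
  have s2 : Summable (fun k => w k * (1 - p k) * (f (k - 1) * f (k - 1))) :=
    cv_sum_l hf (by intro k hk; simp [hk])
  have h1 : cvB w (P p f) (P p f) ≤ ∑' k, w k * p k * (f (k + 1) * f (k + 1)) +
      ∑' k, w k * (1 - p k) * (f (k - 1) * f (k - 1)) := by
    rw [← Summable.tsum_add s1 s2]
    apply Summable.tsum_le_tsum _ (cv_sum (cv_fs_P (p := p) hf) (by intro k hk; simp [hk]))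
      (s1.add s2)
    intro k
    simp only [P]
    have : (p k * f (k + 1) + (1 - p k) * f (k - 1)) * (p k * f (k + 1) + (1 - p k) * f (k - 1)) ≤
        p k * (f (k + 1) * f (k + 1)) + (1 - p k) * (f (k - 1) * f (k - 1)) := by
      nlinarith [mul_nonneg (mul_nonneg (hp0 k) (sub_nonneg.2 (hp1 k)))
        (sq_nonneg (f (k + 1) - f (k - 1)))]
    calc w k * ((p k * f (k + 1) + (1 - p k) * f (k - 1)) *
          (p k * f (k + 1) + (1 - p k) * f (k - 1)))
        ≤ w k * (p k * (f (k + 1) * f (k + 1)) + (1 - p k) * (f (k - 1) * f (k - 1))) :=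
          mul_le_mul_of_nonneg_left this (hw0 k)
      _ = _ := by ring
  have h2 : ∑' k, w k * p k * (f (k + 1) * f (k + 1)) = ∑' k, w k * (1 - p k) * (f k * f k) := by
    rw [← cv_shift (fun k => w k * (1 - p k) * (f k * f k))]
    apply tsum_congr
    intro k
    rw [hw k]
  have h3 : ∑' k, w k * (1 - p k) * (f (k - 1) * f (k - 1)) = ∑' k, w k * p k * (f k * f k) := by
    rw [← cv_shift (fun k => w k * (1 - p k) * (f (k - 1) * f (k - 1)))]
    apply tsum_congr
    intro k
    simp only [add_sub_cancel_right]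
    rw [hw k]
  rw [h2, h3, ← Summable.tsum_add (cv_sum hf (by intro k hk; simp [hk]))
    (cv_sum hf (by intro k hk; simp [hk]))] at h1
  refine h1.trans (le_of_eq ?_)
  unfold cvB
  apply tsum_congr
  intro k
  ring

lemma cv_add_left (w : ℤ → ℝ) {f g h : ℤ → ℝ} (hf : (Function.support f).Finite)
    (hg : (Function.support g).Finite) : cvB w (f + g) h = cvB w f h + cvB w g h := by
  unfold cvB
  rw [← Summable.tsum_add (cv_sum hf (by intro k hk; simp [hk]))
    (cv_sum hg (by intro k hk; simp [hk]))]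
  apply tsum_congr
  intro k
  simp only [Pi.add_apply]
  ring

lemma cv_sub_left (w : ℤ → ℝ) {f g h : ℤ → ℝ} (hf : (Function.support f).Finite)
    (hg : (Function.support g).Finite) : cvB w (f - g) h = cvB w f h - cvB w g h := by
  unfold cvB
  rw [← Summable.tsum_sub (cv_sum hf (by intro k hk; simp [hk]))
    (cv_sum hg (by intro k hk; simp [hk]))]
  apply tsum_congr
  intro k
  simp only [Pi.sub_apply]
  ring

lemma cv_P_add (p f g : ℤ → ℝ) : P p (f + g) = P p f + P p g := by
  funext k
  simp only [P, Pi.add_apply]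
  ring

lemma cv_P_sub (p f g : ℤ → ℝ) : P p (f - g) = P p f - P p g := by
  funext k
  simp only [P, Pi.sub_apply]
  ring

/-- the Chebyshev recursion, pairs `(a_n, b_n)` -/
noncomputable def cvC (p f : ℤ → ℝ) : ℕ → (ℤ → ℝ) × (ℤ → ℝ)
  | 0 => (f, 0)
  | n + 1 => (P p ((cvC p f n).1 + P p (cvC p f n).2) - (cvC p f n).2,
      (cvC p f n).1 + P p (cvC p f n).2)

lemma cv_fin (p : ℤ → ℝ) {f : ℤ → ℝ} (hf : (Function.support f).Finite) (n : ℕ) :
    (Function.support (cvC p f n).1).Finite ∧ (Function.support (cvC p f n).2).Finite := by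
  induction n with
  | zero => exact ⟨hf, by simp [cvC]⟩
  | succ n ih =>
    have h2 : (Function.support ((cvC p f n).1 + P p (cvC p f n).2)).Finite :=
      cv_fs_add ih.1 (cv_fs_P ih.2)
    exact ⟨cv_fs_sub (cv_fs_P h2) ih.2, h2⟩

lemma cv_inv {p w : ℤ → ℝ} (hw : ∀ k, w k * p k = w (k + 1) * (1 - p (k + 1))) {f : ℤ → ℝ}
    (hf : (Function.support f).Finite) (n : ℕ) :
    cvB w (cvC p f n).1 (cvC p f n).1 + cvB w (cvC p f n).2 (cvC p f n).2 -
      cvB w (P p (cvC p f n).2) (P p (cvC p f n).2) = cvB w f f := by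
  induction n with
  | zero =>
    have : P p 0 = 0 := by funext k; simp [P]
    simp [cvC, cvB, this]
  | succ n ih =>
    obtain ⟨fa, fb⟩ := cv_fin p hf n
    have fPb := cv_fs_P (p := p) fb
    have fb' := cv_fs_add fa fPb
    have fc := cv_fs_P (p := p) fb'
    simp only [cvC]
    set a := (cvC p f n).1
    set b := (cvC p f n).2
    set b' := a + P p b with hb'
    have e1 : cvB w (P p b' - b) (P p b' - b) = cvB w (P p b') (P p b') -
        2 * cvB w (P p b') b + cvB w b b := by
      rw [cv_sub_left w fc fb, cv_comm w (P p b'), cv_comm w b, cv_sub_left w fc fb,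
        cv_sub_left w fc fb, cv_comm w b (P p b')]
      ring
    have e2 : cvB w b' b' = cvB w a a + 2 * cvB w a (P p b) + cvB w (P p b) (P p b) := by
      rw [hb', cv_add_left w fa fPb, cv_comm w a, cv_comm w (P p b), cv_add_left w fa fPb,
        cv_add_left w fa fPb, cv_comm w (P p b) a]
      ring
    have e3 : cvB w (P p b') b = cvB w a (P p b) + cvB w (P p b) (P p b) := by
      rw [← cv_sym hw fb', hb', cv_add_left w fa fPb]
    rw [e1, e2, e3]
    linarith

lemma cv_norm {p w : ℤ → ℝ} (hw : ∀ k, w k * p k = w (k + 1) * (1 - p (k + 1)))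
    (hw0 : ∀ k, 0 ≤ w k) (hp0 : ∀ k, 0 ≤ p k) (hp1 : ∀ k, p k ≤ 1) {f : ℤ → ℝ}
    (hf : (Function.support f).Finite) (n : ℕ) :
    cvB w (cvC p f n).1 (cvC p f n).1 ≤ cvB w f f := by
  have h1 := cv_inv hw hf n
  have h2 := cv_contr hw hw0 hp0 hp1 (cv_fin p hf n).2
  linarith

lemma cv_rec0 (p f : ℤ → ℝ) : P p (cvC p f 0).1 = (cvC p f 1).1 := by
  have : P p 0 = 0 := by funext k; simp [P]
  simp [cvC, this]

lemma cv_rec (p f : ℤ → ℝ) (n : ℕ) :
    (2 : ℝ) • P p (cvC p f (n + 1)).1 = (cvC p f (n + 2)).1 + (cvC p f n).1 := by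
  have h1 : (cvC p f (n + 1)).1 = P p (cvC p f (n + 1)).2 - (cvC p f n).2 := rfl
  have h2 : (cvC p f (n + 1)).2 = (cvC p f n).1 + P p (cvC p f n).2 := rfl
  have h3 : (cvC p f (n + 2)).1 =
      P p ((cvC p f (n + 1)).1 + P p (cvC p f (n + 1)).2) - (cvC p f (n + 1)).2 := rfl
  have h4 : P p (P p (cvC p f (n + 1)).2) =
      P p (cvC p f (n + 1)).1 + P p (cvC p f n).2 := by
    rw [h1, ← cv_P_add, sub_add_cancel]
  rw [h3, cv_P_add, h4, h2, two_smul]
  abel

lemma cv_loc (p : ℤ → ℝ) (j : ℤ) (n : ℕ) :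
    (∀ i : ℤ, (n : ℤ) < |i - j| → (cvC p (pt j) n).1 i = 0) ∧
    (∀ i : ℤ, (n : ℤ) ≤ |i - j| → (cvC p (pt j) n).2 i = 0) := by
  induction n with
  | zero =>
    constructor
    · intro i hi
      simp only [cvC, pt]
      rw [if_neg]
      rintro rfl
      simp at hi
    · intro i _
      rfl
  | succ n ih =>
    obtain ⟨ha, hb⟩ := ih
    have hb' : ∀ i : ℤ, ((n + 1 : ℕ) : ℤ) ≤ |i - j| →
        ((cvC p (pt j) n).1 + P p (cvC p (pt j) n).2) i = 0 := by
      intro i hi
      push_cast at hi
      have e1 := ha i (by omega)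
      have e2 := hb (i + 1) (by
        have := abs_sub_abs_le_abs_sub (i - j) (-1)
        have h' : |i - j - -1| = |i + 1 - j| := by congr 1; ring
        rw [h'] at this
        simp at this
        omega)
      have e3 := hb (i - 1) (by
        have := abs_sub_abs_le_abs_sub (i - j) 1
        have h' : |i - j - 1| = |i - 1 - j| := by congr 1; ring
        rw [h'] at this
        simp at this
        omega)
      simp [P, e1, e2, e3]
    refine ⟨?_, hb'⟩
    intro i hi
    push_cast at hi
    have e1 := hb' (i + 1) (by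
        have := abs_sub_abs_le_abs_sub (i - j) (-1)
        have h' : |i - j - -1| = |i + 1 - j| := by congr 1; ring
        rw [h'] at this
        simp at this
        push_cast
        omega)
    have e2 := hb' (i - 1) (by
        have := abs_sub_abs_le_abs_sub (i - j) 1
        have h' : |i - j - 1| = |i - 1 - j| := by congr 1; ring
        rw [h'] at this
        simp at this
        push_cast
        omega)
    have e3 := hb i (by omega)
    change (P p ((cvC p (pt j) n).1 + P p (cvC p (pt j) n).2) - (cvC p (pt j) n).2) i = 0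
    rw [Pi.sub_apply, e3]
    have hP : ∀ g : ℤ → ℝ, P p g i = p i * g (i + 1) + (1 - p i) * g (i - 1) := fun g => rfl
    rw [hP, e1, e2]
    ring

lemma cv_B_pt (w : ℤ → ℝ) (j : ℤ) : cvB w (pt j) (pt j) = w j := by
  unfold cvB
  rw [tsum_eq_single j]
  · simp [pt]
  · intro k hk
    simp [pt, hk]

lemma cv_le_B {w f : ℤ → ℝ} (hw0 : ∀ k, 0 ≤ w k) (hf : (Function.support f).Finite) (i : ℤ) :
    w i * (f i * f i) ≤ cvB w f f := by
  unfold cvB
  exact (cv_sum hf (by intro k hk; simp [hk])).le_tsum i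
    (fun k _ => mul_nonneg (hw0 k) (mul_self_nonneg _))

lemma cv_bound {p w : ℤ → ℝ} (hw : ∀ k, w k * p k = w (k + 1) * (1 - p (k + 1)))
    (hw0 : ∀ k, 0 < w k) (hp0 : ∀ k, 0 ≤ p k) (hp1 : ∀ k, p k ≤ 1) (i j : ℤ) (n : ℕ) :
    |(cvC p (pt j) n).1 i| ≤ Real.sqrt (w j / w i) := by
  have hpt : (Function.support (pt j)).Finite := by
    apply (Set.finite_singleton j).subset
    intro k hk
    by_contra h
    exact hk (by simp [pt]; exact fun h' => absurd h' h)
  have h1 := cv_norm hw (fun k => (hw0 k).le) hp0 hp1 hpt n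
  have h2 := cv_le_B (fun k => (hw0 k).le) (cv_fin p hpt n).1 i
  rw [cv_B_pt] at h1
  apply Real.abs_le_sqrt
  rw [le_div_iff₀ (hw0 i)]
  nlinarith

lemma cv_iter {p w : ℤ → ℝ} (hw : ∀ k, w k * p k = w (k + 1) * (1 - p (k + 1)))
    (hw0 : ∀ k, 0 < w k) (hp0 : ∀ k, 0 ≤ p k) (hp1 : ∀ k, p k ≤ 1) (i j : ℤ) (l : ℝ)
    (hl : 0 ≤ l) (t : ℕ) :
    ∀ n : ℕ, |Ex p t (cvC p (pt j) n).1 i| ≤ Real.sqrt (w j / w i) *
      (Real.cosh l ^ t * (Real.cosh (l * n) / Real.cosh (l * |(i : ℝ) - j|))) := by
  have hc : 0 < Real.cosh (l * |(i : ℝ) - j|) := Real.cosh_pos _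
  induction t with
  | zero =>
    intro n
    simp only [Ex, Function.iterate_zero, id, pow_zero, one_mul]
    by_cases hn : (n : ℤ) < |i - j|
    · rw [(cv_loc p j n).1 i hn, abs_zero]
      exact mul_nonneg (Real.sqrt_nonneg _) (div_nonneg (Real.cosh_pos _).le hc.le)
    · have h1 : 1 ≤ Real.cosh (l * n) / Real.cosh (l * |(i : ℝ) - j|) := by
        rw [one_le_div hc, Real.cosh_le_cosh, abs_mul, abs_mul, abs_abs, Nat.abs_cast]
        apply mul_le_mul_of_nonneg_left _ (abs_nonneg l)
        have h2 : |i - j| ≤ (n : ℤ) := not_lt.mp hn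
        exact_mod_cast h2
      calc |(cvC p (pt j) n).1 i| ≤ Real.sqrt (w j / w i) * 1 := by
            rw [mul_one]; exact cv_bound hw hw0 hp0 hp1 i j n
        _ ≤ _ := mul_le_mul_of_nonneg_left h1 (Real.sqrt_nonneg _)
  | succ t ih =>
    have hE : ∀ f : ℤ → ℝ, Ex p (t + 1) f = Ex p t (P p f) := by
      intro f
      simp only [Ex, Function.iterate_succ_apply]
    have hlin : ∀ (s : ℕ) (f g : ℤ → ℝ), Ex p s (f + g) = Ex p s f + Ex p s g := by
      intro s
      induction s with
      | zero => intro f g; rfl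
      | succ s ihs =>
        intro f g
        have e : ∀ f : ℤ → ℝ, Ex p (s + 1) f = Ex p s (P p f) := by
          intro f
          simp only [Ex, Function.iterate_succ_apply]
        rw [e, e, e, cv_P_add, ihs]
    intro n
    rw [hE]
    rcases n with _ | n
    · rw [cv_rec0]
      refine (ih 1).trans (le_of_eq ?_)
      simp only [Nat.cast_one, mul_one, Nat.cast_zero, mul_zero, Real.cosh_zero, pow_succ]
      ring
    · have h2 : P p (cvC p (pt j) (n + 1)).1 + P p (cvC p (pt j) (n + 1)).1 =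
          (cvC p (pt j) (n + 2)).1 + (cvC p (pt j) n).1 := by
        rw [← cv_rec, two_smul]
      have h3 := congrArg (fun f => Ex p t f i) h2
      simp only [hlin, Pi.add_apply] at h3
      have h4 := ih (n + 2)
      have h5 := ih n
      have h6 : Real.cosh (l * ((n + 2 : ℕ) : ℝ)) + Real.cosh (l * n) =
          2 * Real.cosh l * Real.cosh (l * ((n + 1 : ℕ) : ℝ)) := by
        have e1 : l * ((n + 2 : ℕ) : ℝ) = l * ((n + 1 : ℕ) : ℝ) + l := by push_cast; ring
        have e2 : l * (n : ℝ) = l * ((n + 1 : ℕ) : ℝ) - l := by push_cast; ring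
        rw [e1, e2, Real.cosh_add, Real.cosh_sub]
        ring
      have h7 : |Ex p t (P p (cvC p (pt j) (n + 1)).1) i| * 2 ≤
          |Ex p t (cvC p (pt j) (n + 2)).1 i| + |Ex p t (cvC p (pt j) n).1 i| := by
        have : Ex p t (P p (cvC p (pt j) (n + 1)).1) i * 2 =
          Ex p t (cvC p (pt j) (n + 2)).1 i + Ex p t (cvC p (pt j) n).1 i := by linarith
        calc |Ex p t (P p (cvC p (pt j) (n + 1)).1) i| * 2
            = |Ex p t (P p (cvC p (pt j) (n + 1)).1) i * 2| := by rw [abs_mul]; norm_num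
          _ ≤ _ := by rw [this]; exact abs_add_le _ _
      have h8 : Real.sqrt (w j / w i) *
          (Real.cosh l ^ (t + 1) * (Real.cosh (l * ((n + 1 : ℕ) : ℝ)) /
            Real.cosh (l * |(i : ℝ) - j|))) * 2 =
          Real.sqrt (w j / w i) * (Real.cosh l ^ t * (Real.cosh (l * ((n + 2 : ℕ) : ℝ)) /
            Real.cosh (l * |(i : ℝ) - j|))) +
          Real.sqrt (w j / w i) * (Real.cosh l ^ t * (Real.cosh (l * n) /
            Real.cosh (l * |(i : ℝ) - j|))) := by
        have : Real.sqrt (w j / w i) * (Real.cosh l ^ t * (Real.cosh (l * ((n + 2 : ℕ) : ℝ)) /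
            Real.cosh (l * |(i : ℝ) - j|))) +
          Real.sqrt (w j / w i) * (Real.cosh l ^ t * (Real.cosh (l * n) /
            Real.cosh (l * |(i : ℝ) - j|))) = Real.sqrt (w j / w i) * (Real.cosh l ^ t *
            ((Real.cosh (l * ((n + 2 : ℕ) : ℝ)) + Real.cosh (l * n)) /
            Real.cosh (l * |(i : ℝ) - j|))) := by ring
        rw [this, h6, pow_succ]
        ring
      linarith

theorem s_CV : S_CV := by
  intro κ p V hE t i j
  have hκ := hE.pos
  have hκ2 := hE.half
  have hq : ∀ k, 0 < 1 - p k := fun k => by linarith [hE.hi k]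
  have hp : ∀ k, 0 < p k := fun k => by linarith [hE.lo k]
  set w : ℤ → ℝ := fun k => Real.exp (-V k) / (1 - p k) with hwdef
  have hw0 : ∀ k, 0 < w k := fun k => div_pos (Real.exp_pos _) (hq k)
  have hw1 : ∀ k, w k * p k = Real.exp (-V (k + 1)) := by
    intro k
    have h1 : V (k + 1) = V k + Real.log ((1 - p k) / p k) := by linarith [hE.pot k]
    rw [h1, neg_add, Real.exp_add, Real.exp_neg (Real.log _),
      Real.exp_log (div_pos (hq k) (hp k)), hwdef]
    have := (hq k).ne'
    have := (hp k).ne'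
    field_simp
  have hw2 : ∀ k, w k * (1 - p k) = Real.exp (-V k) := by
    intro k
    rw [hwdef]
    have := (hq k).ne'
    field_simp
  have hw : ∀ k, w k * p k = w (k + 1) * (1 - p (k + 1)) := by
    intro k
    rw [hw1, hw2]
  have hR : Real.sqrt (w j / w i) ≤ 1 / Real.sqrt κ * Real.exp ((V i - V j) / 2) := by
    have e1 : w j / w i = Real.exp (V i - V j) * ((1 - p i) / (1 - p j)) := by
      rw [hwdef]
      have h3 := (hq i).ne'
      have h4 := (hq j).ne'
      have : Real.exp (V i - V j) = Real.exp (-V j) / Real.exp (-V i) := by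
        rw [← Real.exp_sub]
        congr 1
        ring
      rw [this]
      have h5 := (Real.exp_pos (-V i)).ne'
      field_simp
    have e2 : (1 - p i) / (1 - p j) ≤ 1 / κ := by
      apply div_le_div₀ zero_le_one (by linarith [hp i]) hκ (by linarith [hE.hi j])
    have e3 : w j / w i ≤ (1 / Real.sqrt κ * Real.exp ((V i - V j) / 2)) ^ 2 := by
      rw [e1, mul_pow, div_pow, Real.sq_sqrt hκ.le, ← Real.exp_nat_mul, one_pow]
      have : ((2 : ℕ) : ℝ) * ((V i - V j) / 2) = V i - V j := by push_cast; ring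
      rw [this, mul_comm]
      exact mul_le_mul_of_nonneg_right e2 (Real.exp_pos _).le
    rw [← Real.sqrt_sq (show 0 ≤ 1 / Real.sqrt κ * Real.exp ((V i - V j) / 2) by positivity)]
    exact Real.sqrt_le_sqrt e3
  have key : ∀ l : ℝ, 0 ≤ l → Ex p t (pt j) i ≤ Real.sqrt (w j / w i) *
      (Real.cosh l ^ t * (1 / Real.cosh (l * |(i : ℝ) - j|))) := by
    intro l hl
    have h := cv_iter hw hw0 (fun k => (hp k).le) (fun k => by linarith [hq k]) i j l hl t 0
    simp only [Nat.cast_zero, mul_zero, Real.cosh_zero] at h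
    exact (le_abs_self _).trans h
  have hfin : ∀ x : ℝ, Real.sqrt (w j / w i) * (2 * Real.exp (-x)) ≤
      2 / Real.sqrt κ * Real.exp ((V i - V j) / 2 - x) := by
    intro x
    calc Real.sqrt (w j / w i) * (2 * Real.exp (-x))
        ≤ (1 / Real.sqrt κ * Real.exp ((V i - V j) / 2)) * (2 * Real.exp (-x)) :=
          mul_le_mul_of_nonneg_right hR (by positivity)
      _ = 2 / Real.sqrt κ * Real.exp ((V i - V j) / 2 - x) := by
          have e : (V i - V j) / 2 - x = (V i - V j) / 2 + -x := by ring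
          rw [e, Real.exp_add]
          ring
  rcases Nat.eq_zero_or_pos t with rfl | ht
  · have h := key 0 le_rfl
    simp only [Real.cosh_zero, pow_zero, zero_mul, one_mul, div_one, mul_one] at h
    have h2 := hfin 0
    simp only [neg_zero, Real.exp_zero, mul_one, sub_zero] at h2
    simp only [Nat.cast_zero, mul_zero, div_zero, sub_zero]
    have := Real.sqrt_nonneg (w j / w i)
    linarith
  · set d := |(i : ℝ) - j| with hd
    have htpos : (0 : ℝ) < t := by exact_mod_cast ht
    have hd0 : 0 ≤ d := abs_nonneg _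
    have h := key (d / t) (div_nonneg hd0 htpos.le)
    have hx : ((i : ℝ) - j) ^ 2 = d ^ 2 := by rw [hd, sq_abs]
    rw [hx]
    refine h.trans (le_trans ?_ (hfin (d ^ 2 / (2 * t))))
    apply mul_le_mul_of_nonneg_left _ (Real.sqrt_nonneg _)
    have c1 : Real.cosh (d / t) ^ t ≤ Real.exp (d ^ 2 / (2 * t)) := by
      calc Real.cosh (d / t) ^ t ≤ (Real.exp ((d / t) ^ 2 / 2)) ^ t :=
            pow_le_pow_left₀ (Real.cosh_pos _).le (Real.cosh_le_exp_half_sq _) t
        _ = Real.exp (d ^ 2 / (2 * t)) := by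
            rw [← Real.exp_nat_mul]
            congr 1
            field_simp
    have c2 : Real.exp (d ^ 2 / t) / 2 ≤ Real.cosh (d / t * d) := by
      rw [Real.cosh_eq]
      have : d / t * d = d ^ 2 / t := by ring
      rw [this]
      have := Real.exp_pos (-(d ^ 2 / t))
      linarith
    have c3 : 1 / Real.cosh (d / t * d) ≤ 2 * Real.exp (-(d ^ 2 / t)) := by
      rw [div_le_iff₀ (Real.cosh_pos _)]
      have : 2 * Real.exp (-(d ^ 2 / t)) * (Real.exp (d ^ 2 / t) / 2) = 1 := by
        have : Real.exp (-(d ^ 2 / t)) * Real.exp (d ^ 2 / t) = 1 := by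
          rw [← Real.exp_add]
          simp
        linarith
      rw [← this]
      exact mul_le_mul_of_nonneg_left c2 (by positivity)
    calc Real.cosh (d / t) ^ t * (1 / Real.cosh (d / t * d))
        ≤ Real.exp (d ^ 2 / (2 * t)) * (2 * Real.exp (-(d ^ 2 / t))) :=
          mul_le_mul c1 c3 (by positivity) (Real.exp_pos _).le
      _ = 2 * Real.exp (-(d ^ 2 / (2 * t))) := by
          rw [mul_left_comm, ← Real.exp_add]
          congr 2
          field_simp
          ring

end Pool.Agent.R953.LV
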