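import Pool.Agent.R953.LV.Defs

set_option autoImplicit false

/-! Project LV, piece CVR (helper91): displacement at most `√(QT)`. -/

namespace Pool.Agent.R953.LV

namespace CVR

lemma Ex_zero (p f : ℤ → ℝ) (k : ℤ) : Ex p 0 f k = f k := rfl

lemma Ex_succ (p f : ℤ → ℝ) (t : ℕ) (k : ℤ) :
    Ex p (t + 1) f k = p k * Ex p t f (k + 1) + (1 - p k) * Ex p t f (k - 1) := by
  rw [Ex, Function.iterate_succ_apply']
  rfl

variable {p : ℤ → ℝ}

lemma mono (h0 : ∀ k, 0 ≤ p k) (h1 : ∀ k, p k ≤ 1) (f g : ℤ → ℝ) (t : ℕ) :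
    ∀ k : ℤ, (∀ j : ℤ, |j - k| ≤ t → f j ≤ g j) → Ex p t f k ≤ Ex p t g k := by
  induction t with
  | zero => intro k h; exact h k (by simp)
  | succ t ih =>
    intro k h
    rw [Ex_succ, Ex_succ]
    have e1 := ih (k + 1) fun j hj => h j (by rw [abs_le] at hj ⊢; push_cast at *; omega)
    have e2 := ih (k - 1) fun j hj => h j (by rw [abs_le] at hj ⊢; push_cast at *; omega)
    have := h0 k
    have := h1 k
    exact add_le_add (mul_le_mul_of_nonneg_left e1 (by linarith))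
      (mul_le_mul_of_nonneg_left e2 (by linarith))

lemma add (f g : ℤ → ℝ) (t : ℕ) : ∀ k : ℤ, Ex p t (fun j => f j + g j) k = Ex p t f k + Ex p t g k := by
  induction t with
  | zero => intro k; rfl
  | succ t ih => intro k; rw [Ex_succ, Ex_succ, Ex_succ, ih, ih]; ring

lemma const (c : ℝ) (t : ℕ) : ∀ k : ℤ, Ex p t (fun _ => c) k = c := by
  induction t with
  | zero => intro k; rfl
  | succ t ih => intro k; rw [Ex_succ, ih, ih]; ring

lemma smul (c : ℝ) (f : ℤ → ℝ) (t : ℕ) : ∀ k : ℤ, Ex p t (fun j => c * f j) k = c * Ex p t f k := by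
  induction t with
  | zero => intro k; rfl
  | succ t ih => intro k; rw [Ex_succ, Ex_succ, ih, ih]; ring

lemma sum (S : Finset ℤ) (c : ℤ → ℝ) (F : ℤ → ℤ → ℝ) (t : ℕ) (k : ℤ) :
    Ex p t (fun j => ∑ i ∈ S, c i * F i j) k = ∑ i ∈ S, c i * Ex p t (F i) k := by
  induction S using Finset.induction_on with
  | empty => simp only [Finset.sum_empty]; exact const 0 t k
  | insert a S ha ih =>
    simp only [Finset.sum_insert ha]
    rw [add, smul, ih]

/-- increments of the potential -/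
lemma incr {κ : ℝ} {V : ℤ → ℝ} (h : Env κ p V) (k : ℤ) : |V (k + 1) - V k| ≤ |Real.log κ| := by
  rw [h.pot k]
  have hκ := h.pos
  have h2 := h.half
  have h3 := h.lo k
  have h4 := h.hi k
  have hp : 0 < p k := by linarith
  have hq : 0 < 1 - p k := by linarith
  have hl : |Real.log κ| = -Real.log κ := abs_of_nonpos (Real.log_nonpos hκ.le (by linarith))
  rw [hl, abs_le]
  constructor
  · rw [neg_neg]
    apply Real.log_le_log hκ
    rw [le_div_iff₀ hp]
    nlinarith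
  · rw [← Real.log_inv]
    apply Real.log_le_log (by positivity)
    rw [div_le_iff₀ hp, inv_mul_eq_div, le_div_iff₀ hκ]
    nlinarith

lemma incr_nat {V : ℤ → ℝ} {c : ℝ} (h : ∀ k, |V (k + 1) - V k| ≤ c) (k : ℤ) (r : ℕ) :
    |V (k + r) - V k| ≤ c * r := by
  induction r with
  | zero => simp
  | succ r ih =>
    have h1 := h (k + r)
    have h2 : V (k + (r + 1 : ℕ)) - V k = (V (k + r + 1) - V (k + r)) + (V (k + r) - V k) := by
      push_cast; rw [← add_assoc]; ring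
    rw [h2]
    refine (abs_add_le _ _).trans ?_
    push_cast
    linarith

lemma incr_int {V : ℤ → ℝ} {c : ℝ} {Q : ℤ} (h : ∀ k, |V (k + Q) - V k| ≤ c) (m : ℤ) :
    |V (Q * m) - V 0| ≤ c * |(m : ℝ)| := by
  have hc : 0 ≤ c := (abs_nonneg _).trans (h 0)
  have h1 : ∀ n : ℕ, ∀ k, |V (k + Q * n) - V k| ≤ c * n := by
    intro n
    induction n with
    | zero => intro k; simp
    | succ n ih =>
      intro k
      have h2 : V (k + Q * (n + 1 : ℕ)) - V k = (V (k + Q * n + Q) - V (k + Q * n)) + (V (k + Q * n) - V k) := by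
        push_cast; rw [show k + Q * (↑n + 1) = k + Q * n + Q by ring]; ring
      rw [h2]
      refine (abs_add_le _ _).trans ?_
      have := h (k + Q * n)
      have := ih k
      push_cast
      linarith
  rcases le_total 0 m with hm | hm
  · obtain ⟨n, rfl⟩ := Int.eq_ofNat_of_zero_le hm
    have := h1 n 0
    rw [zero_add] at this
    simpa using this
  · obtain ⟨n, hn⟩ := Int.eq_ofNat_of_zero_le (neg_nonneg.2 hm)
    have hm' : m = -(n : ℤ) := by omega
    have := h1 n (Q * m)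
    rw [hm'] at this ⊢
    rw [show Q * -(n : ℤ) + Q * n = 0 by ring, abs_sub_comm] at this
    simpa using this

lemma tail {s : ℝ} (hs : 0 < s) {Q T : ℕ} (hQ' : (1 : ℝ) ≤ Q) (hT' : (1 : ℝ) ≤ T)
    (hTQ' : (T : ℝ) ≤ (Q : ℝ) ^ 3) :
    (2 * T + 1) * ((T : ℝ) ^ 2 * (2 / s * Real.exp (-(Q : ℝ)))) ≤ 4320 / s * Q * T := by
  have hexp6 : (Q : ℝ) ^ 6 * Real.exp (-(Q : ℝ)) ≤ 720 := by
    have := Real.pow_div_factorial_le_exp (Q : ℝ) (by linarith) 6
    rw [Real.exp_neg, ← div_eq_mul_inv, div_le_iff₀ (Real.exp_pos _)]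
    have h720 : ((Nat.factorial 6 : ℕ) : ℝ) = 720 := by norm_num [Nat.factorial]
    rw [h720, div_le_iff₀ (by norm_num)] at this
    linarith
  calc (2 * T + 1) * ((T : ℝ) ^ 2 * (2 / s * Real.exp (-(Q : ℝ))))
      ≤ (3 * T) * ((T : ℝ) ^ 2 * (2 / s * Real.exp (-(Q : ℝ)))) := by
        gcongr; linarith
    _ = (6 / s) * T * (T * T * Real.exp (-(Q : ℝ))) := by ring
    _ ≤ (6 / s) * T * ((Q : ℝ) ^ 3 * (Q : ℝ) ^ 3 * Real.exp (-(Q : ℝ))) := by gcongr
    _ = (6 / s) * T * ((Q : ℝ) ^ 6 * Real.exp (-(Q : ℝ))) := by ring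
    _ ≤ (6 / s) * T * 720 := by gcongr
    _ = 4320 / s * 1 * T := by ring
    _ ≤ 4320 / s * Q * T := by gcongr

end CVR

open CVR in
theorem s_CVR (h : S_CV) : S_CVR := by
  intro κ C hκ hC
  set C0 := |Real.log κ| with hC0
  have hC0' : 0 ≤ C0 := abs_nonneg _
  set K1 : ℝ := 16 * C ^ 2 + 4 * C + 4 * C0 + 4 with hK1
  have hK1pos : 0 < K1 := by positivity
  refine ⟨K1 + 4320 / Real.sqrt κ, by positivity, ?_⟩
  intro p V Q T hE hQ hT hTQ hV
  have hQ' : (1 : ℝ) ≤ Q := by exact_mod_cast hQ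
  have hT' : (1 : ℝ) ≤ T := by exact_mod_cast hT
  have hTQ' : (T : ℝ) ≤ (Q : ℝ) ^ 3 := by exact_mod_cast hTQ
  have hp0 : ∀ k, 0 ≤ p k := fun k => hκ.le.trans (hE.lo k)
  have hp1 : ∀ k, p k ≤ 1 := fun k => by have := hE.hi k; linarith
  set S : Finset ℤ := (Finset.Icc (-(T : ℤ)) T).filter fun j => K1 * Q * T < (j : ℝ) ^ 2 with hS
  have step1 : Ex p T sqf 0 ≤ K1 * Q * T + ∑ j ∈ S, (j : ℝ) ^ 2 * Ex p T (pt j) 0 := by
    rw [← sum S (fun j => (j : ℝ) ^ 2) pt T 0, ← const (p := p) (K1 * Q * T) T 0, ← add]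
    apply mono hp0 hp1
    intro k hk
    rw [sub_zero, abs_le] at hk
    have hnn : 0 ≤ ∑ i ∈ S, (i : ℝ) ^ 2 * pt i k :=
      Finset.sum_nonneg fun i _ => mul_nonneg (sq_nonneg _) (by unfold pt; split_ifs <;> norm_num)
    by_cases hkS : k ∈ S
    · have h1 : (k : ℝ) ^ 2 ≤ ∑ i ∈ S, (i : ℝ) ^ 2 * pt i k := by
        have : (k : ℝ) ^ 2 = (k : ℝ) ^ 2 * pt k k := by simp [pt]
        rw [this]
        exact Finset.single_le_sum (f := fun i : ℤ => (i : ℝ) ^ 2 * pt i k)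
          (fun i _ => mul_nonneg (sq_nonneg _) (by unfold pt; split_ifs <;> norm_num)) hkS
      have h2 : 0 ≤ K1 * Q * T := by positivity
      simp only [sqf]
      linarith
    · have h1 : (k : ℝ) ^ 2 ≤ K1 * Q * T := by
        by_contra hcon
        push Not at hcon
        exact hkS (Finset.mem_filter.2 ⟨Finset.mem_Icc.2 hk, hcon⟩)
      simp only [sqf]
      linarith
  have hsκ : 0 < Real.sqrt κ := Real.sqrt_pos.2 hκ
  have step2 : ∀ j ∈ S, (j : ℝ) ^ 2 * Ex p T (pt j) 0 ≤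
      (T : ℝ) ^ 2 * (2 / Real.sqrt κ * Real.exp (-(Q : ℝ))) := by
    intro j hj
    obtain ⟨hj1, hj2⟩ := Finset.mem_filter.1 hj
    rw [Finset.mem_Icc] at hj1
    have hjT : (j : ℝ) ^ 2 ≤ (T : ℝ) ^ 2 := by
      have e1 : (-(T : ℝ)) ≤ j := by exact_mod_cast hj1.1
      have e2 : (j : ℝ) ≤ T := by exact_mod_cast hj1.2
      nlinarith
    have h1 := h κ p V hE T 0 j
    have hnn : 0 ≤ Ex p T (pt j) 0 := by
      rw [← const (p := p) 0 T 0]
      exact mono hp0 hp1 _ _ _ _ fun i _ => by unfold pt; split_ifs <;> norm_num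
    -- the exponent
    have hQpos : (0 : ℤ) < Q := by exact_mod_cast (by omega : 0 < Q)
    obtain ⟨m, r, hmr, hrQ⟩ : ∃ (m : ℤ) (r : ℕ), j = Q * m + r ∧ (r : ℝ) ≤ Q := by
      refine ⟨j / Q, (j % Q).toNat, ?_, ?_⟩
      · rw [Int.toNat_of_nonneg (Int.emod_nonneg _ hQpos.ne')]
        exact (Int.mul_ediv_add_emod j Q).symm
      · have e1 := Int.emod_lt_of_pos j hQpos
        have e2 := Int.emod_nonneg j hQpos.ne'
        have e3 : (j % Q).toNat ≤ Q := by omega
        exact_mod_cast e3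
    have hVj : |V j - V 0| ≤ C0 * Q + C * (|(j : ℝ)| / Q + 1) := by
      have e1 := incr_nat (fun k => incr hE k) (Q * m) r
      have e2 := incr_int (V := V) (c := C) (Q := (Q : ℤ)) hV m
      have e3 : V j - V 0 = (V (Q * m + r) - V (Q * m)) + (V (Q * m) - V 0) := by rw [hmr]; ring
      have e4 : |(m : ℝ)| ≤ |(j : ℝ)| / Q + 1 := by
        have e5 : (m : ℝ) = (j - r) / Q := by
          rw [hmr]; push_cast; field_simp; ring
        rw [e5, abs_div, abs_of_pos (by linarith : (0 : ℝ) < Q), div_add_one (by linarith),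
          div_le_div_iff_of_pos_right (by linarith)]
        calc |(j : ℝ) - r| ≤ |(j : ℝ)| + |(r : ℝ)| := abs_sub _ _
          _ ≤ |(j : ℝ)| + Q := by
              have : |(r : ℝ)| = r := abs_of_nonneg (Nat.cast_nonneg r)
              rw [this]; linarith
      rw [e3]
      calc _ ≤ |V (Q * m + r) - V (Q * m)| + |V (Q * m) - V 0| := abs_add_le _ _
        _ ≤ C0 * r + C * |(m : ℝ)| := add_le_add e1 e2
        _ ≤ C0 * Q + C * (|(j : ℝ)| / Q + 1) := by gcongr
    have hexp : (V 0 - V j) / 2 - (((0 : ℤ) : ℝ) - j) ^ 2 / (2 * T) ≤ -(Q : ℝ) := by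
      have e1 : V 0 - V j ≤ C0 * Q + C * (|(j : ℝ)| / Q + 1) := by
        have := neg_abs_le (V j - V 0)
        linarith
      set a := |(j : ℝ)| with ha
      have ha0 : 0 ≤ a := abs_nonneg _
      have hja : (j : ℝ) ^ 2 = a ^ 2 := (sq_abs _).symm
      rw [hja] at hj2
      have e2 : (((0 : ℤ) : ℝ) - j) ^ 2 = a ^ 2 := by rw [← hja]; push_cast; ring
      rw [e2]
      -- 4 C T ≤ a Q
      have e3 : 4 * C * T ≤ a * Q := by
        apply le_of_sq_le_sq _ (by positivity)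
        calc (4 * C * T) ^ 2 = 16 * C ^ 2 * T * T := by ring
          _ ≤ 16 * C ^ 2 * T * (Q : ℝ) ^ 3 := by gcongr
          _ = (16 * C ^ 2) * Q * T * (Q : ℝ) ^ 2 := by ring
          _ ≤ K1 * Q * T * (Q : ℝ) ^ 2 := by
              have : 16 * C ^ 2 ≤ K1 := by rw [hK1]; linarith
              gcongr
          _ ≤ a ^ 2 * (Q : ℝ) ^ 2 := by gcongr
          _ = (a * Q) ^ 2 := by ring
      have e4 : C * (a / Q) / 2 ≤ a ^ 2 / (8 * T) := by
        rw [show C * (a / Q) / 2 = C * a / (2 * Q) by field_simp, div_le_div_iff₀ (by positivity) (by positivity)]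
        nlinarith [mul_le_mul_of_nonneg_left e3 ha0]
      have e5 : K1 * Q ≤ a ^ 2 / T := by
        rw [le_div_iff₀ (by linarith)]
        linarith
      have e6 : a ^ 2 / (8 * T) = (a ^ 2 / T) / 8 := by rw [div_div]; ring_nf
      have e7 : a ^ 2 / (2 * T) = (a ^ 2 / T) / 2 := by rw [div_div]; ring_nf
      rw [e6] at e4
      rw [e7]
      have e8 : C ≤ C * Q := by nlinarith
      have e9 : K1 * Q = 16 * C ^ 2 * Q + 4 * (C * Q) + 4 * (C0 * Q) + 4 * Q := by rw [hK1]; ring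
      have e10 : 0 ≤ 16 * C ^ 2 * Q := by positivity
      have e11 : 0 ≤ C0 * Q := by positivity
      have e12 : 0 ≤ C * Q := by positivity
      have e13 : C * (a / Q + 1) = C * (a / Q) + C := by ring
      rw [e13] at e1
      linarith
    calc (j : ℝ) ^ 2 * Ex p T (pt j) 0 ≤ (T : ℝ) ^ 2 * Ex p T (pt j) 0 := by gcongr
      _ ≤ (T : ℝ) ^ 2 * (2 / Real.sqrt κ * Real.exp (-(Q : ℝ))) := by
          gcongr
          refine h1.trans ?_
          gcongr
  have step3 : ∑ j ∈ S, (j : ℝ) ^ 2 * Ex p T (pt j) 0 ≤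
      (2 * T + 1) * ((T : ℝ) ^ 2 * (2 / Real.sqrt κ * Real.exp (-(Q : ℝ)))) := by
    calc _ ≤ ∑ j ∈ S, (T : ℝ) ^ 2 * (2 / Real.sqrt κ * Real.exp (-(Q : ℝ))) := Finset.sum_le_sum step2
      _ = (S.card : ℝ) * ((T : ℝ) ^ 2 * (2 / Real.sqrt κ * Real.exp (-(Q : ℝ)))) := by
          rw [Finset.sum_const, nsmul_eq_mul]
      _ ≤ _ := by
          have : S.card ≤ 2 * T + 1 := by
            refine (Finset.card_filter_le _ _).trans ?_
            rw [Int.card_Icc]
            omega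
          have h2 : (S.card : ℝ) ≤ 2 * T + 1 := by exact_mod_cast this
          gcongr
  have step4 := CVR.tail (s := Real.sqrt κ) hsκ hQ' hT' hTQ'
  calc Ex p T sqf 0 ≤ K1 * Q * T + 4320 / Real.sqrt κ * Q * T := by linarith
    _ = (K1 + 4320 / Real.sqrt κ) * Q * T := by ring

end Pool.Agent.R953.LV
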