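import Pool.Agent.R953.LV.Defs

/-! # LV-CROSS: crossing forces the potential to decrease -/

set_option autoImplicit false

namespace Pool.Agent.R953.LV.CR

open Finset

variable {p : ℤ → ℝ}

theorem P_mono (h0 : ∀ k, 0 ≤ p k) (h1 : ∀ k, p k ≤ 1) {f g : ℤ → ℝ} {k : ℤ}
    (h : f (k + 1) ≤ g (k + 1)) (h' : f (k - 1) ≤ g (k - 1)) : P p f k ≤ P p g k := by
  unfold P
  have a1 := mul_le_mul_of_nonneg_left h (h0 k)
  have a2 := mul_le_mul_of_nonneg_left h' (sub_nonneg.2 (h1 k))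
  linarith

theorem P_const (c : ℝ) (k : ℤ) : P p (fun _ => c) k = c := by
  unfold P
  ring

theorem Ex_succ (t : ℕ) (f : ℤ → ℝ) : Ex p (t + 1) f = P p (Ex p t f) := by
  unfold Ex
  rw [Function.iterate_succ_apply']

theorem Ex_zero (f : ℤ → ℝ) : Ex p 0 f = f := rfl

theorem Ex_nonneg (h0 : ∀ k, 0 ≤ p k) (h1 : ∀ k, p k ≤ 1) {f : ℤ → ℝ} (hf : ∀ k, 0 ≤ f k) (t : ℕ) :
    ∀ k, 0 ≤ Ex p t f k := by
  induction t with
  | zero => exact hf
  | succ t ih =>
    intro k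
    rw [Ex_succ, ← P_const (p := p) 0 k]
    exact P_mono h0 h1 (ih _) (ih _)

theorem Ex_le_one (h0 : ∀ k, 0 ≤ p k) (h1 : ∀ k, p k ≤ 1) {f : ℤ → ℝ} (hf : ∀ k, f k ≤ 1) (t : ℕ) :
    ∀ k, Ex p t f k ≤ 1 := by
  induction t with
  | zero => exact hf
  | succ t ih =>
    intro k
    rw [Ex_succ, ← P_const (p := p) 1 k]
    exact P_mono h0 h1 (ih _) (ih _)

/-- hitting probabilities -/
noncomputable def Rt (p : ℤ → ℝ) (b : ℤ) : ℕ → ℤ → ℝ
  | 0 => geI b
  | t + 1 => fun k => if b ≤ k then 1 else P p (Rt p b t) k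

theorem Rt_succ (b : ℤ) (t : ℕ) (k : ℤ) :
    Rt p b (t + 1) k = if b ≤ k then 1 else P p (Rt p b t) k := rfl

theorem geI_nonneg (b k : ℤ) : 0 ≤ geI b k := by
  unfold geI; split_ifs <;> norm_num

theorem geI_le (b k : ℤ) : geI b k ≤ 1 := by
  unfold geI; split_ifs <;> norm_num

theorem leI_le (b k : ℤ) : leI b k ≤ 1 := by
  unfold leI; split_ifs <;> norm_num

theorem pt_nonneg (b k : ℤ) : 0 ≤ pt b k := by
  unfold pt; split_ifs <;> norm_num

theorem Rt_ge {b k : ℤ} (h : b ≤ k) (t : ℕ) : Rt p b t k = 1 := by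
  cases t with
  | zero => show geI b k = 1; unfold geI; rw [if_pos h]
  | succ t => rw [Rt_succ, if_pos h]

theorem Rt_nonneg (h0 : ∀ k, 0 ≤ p k) (h1 : ∀ k, p k ≤ 1) (b : ℤ) (t : ℕ) :
    ∀ k, 0 ≤ Rt p b t k := by
  induction t with
  | zero => exact geI_nonneg b
  | succ t ih =>
    intro k
    rw [Rt_succ]
    split_ifs
    · norm_num
    · rw [← P_const (p := p) 0 k]
      exact P_mono h0 h1 (ih _) (ih _)

theorem Rt_le_one (h0 : ∀ k, 0 ≤ p k) (h1 : ∀ k, p k ≤ 1) (b : ℤ) (t : ℕ) :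
    ∀ k, Rt p b t k ≤ 1 := by
  induction t with
  | zero => exact geI_le b
  | succ t ih =>
    intro k
    rw [Rt_succ]
    split_ifs
    · norm_num
    · rw [← P_const (p := p) 1 k]
      exact P_mono h0 h1 (ih _) (ih _)

theorem Ex_le_Rt (h0 : ∀ k, 0 ≤ p k) (h1 : ∀ k, p k ≤ 1) (b : ℤ) (t : ℕ) :
    ∀ k, Ex p t (geI b) k ≤ Rt p b t k := by
  induction t with
  | zero => exact fun k => le_rfl
  | succ t ih =>
    intro k
    rw [Rt_succ]
    split_ifs
    · exact Ex_le_one h0 h1 (geI_le b) _ _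
    · rw [Ex_succ]
      exact P_mono h0 h1 (ih _) (ih _)

theorem Rt_mono_t (h0 : ∀ k, 0 ≤ p k) (h1 : ∀ k, p k ≤ 1) (b : ℤ) (t : ℕ) :
    ∀ k, Rt p b t k ≤ Rt p b (t + 1) k := by
  induction t with
  | zero =>
    intro k
    rw [Rt_succ]
    split_ifs with h
    · exact geI_le b k
    · show geI b k ≤ _
      have e : geI b k = 0 := by unfold geI; rw [if_neg h]
      rw [e, ← P_const (p := p) 0 k]
      exact P_mono h0 h1 (geI_nonneg _ _) (geI_nonneg _ _)
  | succ t ih =>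
    intro k
    rw [Rt_succ b (t + 1)]
    split_ifs with h
    · exact Rt_le_one h0 h1 b _ k
    · rw [Rt_succ, if_neg h]
      exact P_mono h0 h1 (ih _) (ih _)

theorem Rt_mono_k (h0 : ∀ k, 0 ≤ p k) (h1 : ∀ k, p k ≤ 1) (b : ℤ) (t : ℕ) :
    Monotone (Rt p b t) := by
  induction t with
  | zero =>
    refine monotone_int_of_le_succ fun k => ?_
    show geI b k ≤ geI b (k + 1)
    unfold geI
    split_ifs with h1 h2
    · exact le_rfl
    · omega
    · norm_num
    · exact le_rfl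
  | succ t ih =>
    refine monotone_int_of_le_succ fun k => ?_
    by_cases hk : b ≤ k
    · rw [Rt_ge hk, Rt_ge (by omega)]
    · calc Rt p b (t + 1) k = P p (Rt p b t) k := by rw [Rt_succ, if_neg hk]
        _ ≤ P p (fun _ => Rt p b t (k + 1)) k := P_mono h0 h1 le_rfl (ih (by omega))
        _ = Rt p b t (k + 1) := P_const _ _
        _ ≤ Rt p b (t + 1) (k + 1) := Rt_mono_t h0 h1 b t _

theorem Rt_anti_b (h0 : ∀ k, 0 ≤ p k) (h1 : ∀ k, p k ≤ 1) {b b' : ℤ} (hb : b' ≤ b) (t : ℕ) :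
    ∀ k, Rt p b t k ≤ Rt p b' t k := by
  induction t with
  | zero =>
    intro k
    show geI b k ≤ geI b' k
    unfold geI
    split_ifs with h1 h2
    · exact le_rfl
    · omega
    · norm_num
    · exact le_rfl
  | succ t ih =>
    intro k
    by_cases hk : b' ≤ k
    · rw [Rt_ge hk]
      exact Rt_le_one h0 h1 b _ k
    · rw [Rt_succ, Rt_succ, if_neg hk, if_neg (by omega)]
      exact P_mono h0 h1 (ih _) (ih _)

theorem P_sum (n : ℕ) (F : ℕ → ℤ → ℝ) (k : ℤ) :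
    P p (fun k => ∑ s ∈ range n, F s k) k = ∑ s ∈ range n, P p (F s) k := by
  unfold P
  rw [mul_sum, mul_sum, ← sum_add_distrib]

theorem Rt_le_sum (h0 : ∀ k, 0 ≤ p k) (h1 : ∀ k, p k ≤ 1) (b : ℤ) (t : ℕ) :
    ∀ k, k ≤ b → Rt p b t k ≤ ∑ s ∈ range (t + 1), Ex p s (pt b) k := by
  induction t with
  | zero =>
    intro k hk
    rw [zero_add, sum_range_one, Ex_zero]
    show geI b k ≤ pt b k
    unfold geI pt
    split_ifs with h1 h2
    · exact le_rfl
    · omega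
    · norm_num
    · exact le_rfl
  | succ t ih =>
    intro k hk
    rw [sum_range_succ']
    rcases eq_or_lt_of_le hk with h | h
    · have e : Ex p 0 (pt b) k = 1 := by
        rw [Ex_zero]; unfold pt; rw [if_pos h]
      rw [e]
      have h2 : 0 ≤ ∑ s ∈ range (t + 1), Ex p (s + 1) (pt b) k :=
        sum_nonneg fun s _ => Ex_nonneg h0 h1 (pt_nonneg b) _ _
      have h3 := Rt_le_one h0 h1 b (t + 1) k
      linarith
    · rw [Rt_succ, if_neg (by omega)]
      have h2 : P p (Rt p b t) k ≤ P p (fun k => ∑ s ∈ range (t + 1), Ex p s (pt b) k) k :=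
        P_mono h0 h1 (ih _ (by omega)) (ih _ (by omega))
      rw [P_sum] at h2
      have h3 : ∑ s ∈ range (t + 1), P p (Ex p s (pt b)) k
          = ∑ s ∈ range (t + 1), Ex p (s + 1) (pt b) k :=
        sum_congr rfl fun s _ => by rw [Ex_succ]
      rw [h3] at h2
      have h4 := Ex_nonneg h0 h1 (pt_nonneg b) 0 k
      linarith

theorem hit_R (h0 : ∀ k, 0 ≤ p k) (h1 : ∀ k, p k ≤ 1) (T : ℕ) {i l m b : ℤ} (hil : i ≤ l)
    (hlm : l ≤ m) (hmb : m ≤ b) :
    Ex p T (geI b) i ≤ ∑ s ∈ range (T + 1), Ex p s (pt m) l :=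
  (Ex_le_Rt h0 h1 b T i).trans <| (Rt_mono_k h0 h1 b T hil).trans <|
    (Rt_anti_b h0 h1 hmb T l).trans (Rt_le_sum h0 h1 m T l hlm)

/-- reflection -/
theorem refl_Ex (p : ℤ → ℝ) (f : ℤ → ℝ) (t : ℕ) : ∀ k,
    Ex (fun k => 1 - p (-k)) t (fun k => f (-k)) k = Ex p t f (-k) := by
  induction t with
  | zero => exact fun k => rfl
  | succ t ih =>
    intro k
    rw [Ex_succ, Ex_succ]
    unfold P
    rw [ih, ih]
    have e1 : -(k + 1) = -k - 1 := by ring
    have e2 : -(k - 1) = -k + 1 := by ring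
    rw [e1, e2]
    ring

theorem hit_L (h0 : ∀ k, 0 ≤ p k) (h1 : ∀ k, p k ≤ 1) (T : ℕ) {i l m a : ℤ} (hil : l ≤ i)
    (hlm : m ≤ l) (hmb : a ≤ m) :
    Ex p T (leI a) i ≤ ∑ s ∈ range (T + 1), Ex p s (pt m) l := by
  have h := hit_R (p := fun k => 1 - p (-k)) (fun k => sub_nonneg.2 (h1 _))
    (fun k => by have := h0 (-k); linarith) T (i := -i) (l := -l) (m := -m) (b := -a)
    (by omega) (by omega) (by omega)
  have e1 : geI (-a) = fun k => leI a (-k) := by
    funext k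
    unfold geI leI
    congr 1
    exact propext ⟨fun h => by omega, fun h => by omega⟩
  have e2 : pt (-m) = fun k => pt m (-k) := by
    funext k
    unfold pt
    congr 1
    exact propext ⟨fun h => by omega, fun h => by omega⟩
  rw [e1, e2, refl_Ex, neg_neg] at h
  refine h.trans (le_of_eq (sum_congr rfl fun s _ => ?_))
  rw [refl_Ex, neg_neg]

theorem fin (h : S_CV) {κ : ℝ} {V : ℤ → ℝ} (hE : Env κ p V) {T : ℕ} {ε : ℝ} (hT : 1 ≤ T)
    (hε : 0 < ε) (hε1 : ε ≤ 1) {l m : ℤ}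
    (hs : ε ≤ ∑ s ∈ range (T + 1), Ex p s (pt m) l) :
    ((l : ℝ) - m) ^ 2 / T - Lg κ T ε ≤ V l - V m := by
  have hκ := hE.pos
  have hκ2 := hE.half
  have hsq : 0 < Real.sqrt κ := Real.sqrt_pos.2 hκ
  have hsq1 : Real.sqrt κ ≤ 1 := by
    rw [Real.sqrt_le_left (by norm_num)]
    linarith
  have hT' : (1 : ℝ) ≤ T := by exact_mod_cast hT
  have hX : 0 < 2 * ((T : ℝ) + 1) / (Real.sqrt κ * ε) := by positivity
  by_cases hlm : l = m
  · subst hlm
    have h1 : 1 ≤ 2 * ((T : ℝ) + 1) / (Real.sqrt κ * ε) := by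
      rw [le_div_iff₀ (by positivity)]
      have : Real.sqrt κ * ε ≤ 1 * 1 := mul_le_mul hsq1 hε1 hε.le (by norm_num)
      linarith
    have h2 := Real.log_nonneg h1
    unfold Lg
    rw [sub_self, sub_self]
    have h3 : (0 : ℝ) ^ 2 / (T : ℝ) = 0 := by simp
    rw [h3]
    linarith
  · set A := (V l - V m) / 2 - ((l : ℝ) - m) ^ 2 / (2 * T) with hA
    have hterm : ∀ s ∈ range (T + 1), Ex p s (pt m) l ≤ 2 / Real.sqrt κ * Real.exp A := by
      intro s hs'
      rcases Nat.eq_zero_or_pos s with h0 | h0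
      · subst h0
        rw [Ex_zero]
        unfold pt
        rw [if_neg hlm]
        positivity
      · refine (h κ p V hE s l m).trans ?_
        refine mul_le_mul_of_nonneg_left (Real.exp_le_exp.2 ?_) (by positivity)
        rw [hA]
        have hs1 : (0 : ℝ) < s := by exact_mod_cast h0
        have hs2 : (s : ℝ) ≤ T := by
          have := mem_range.1 hs'
          have h4 : s ≤ T := by omega
          exact_mod_cast h4
        have h5 : ((l : ℝ) - m) ^ 2 / (2 * T) ≤ ((l : ℝ) - m) ^ 2 / (2 * s) :=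
          div_le_div_of_nonneg_left (sq_nonneg _) (by positivity) (by linarith)
        linarith
    have hsum : ε ≤ ((T : ℝ) + 1) * (2 / Real.sqrt κ * Real.exp A) := by
      refine hs.trans ((sum_le_card_nsmul _ _ _ hterm).trans (le_of_eq ?_))
      rw [card_range, nsmul_eq_mul]
      push_cast
      ring
    have h1 : 1 ≤ 2 * ((T : ℝ) + 1) / (Real.sqrt κ * ε) * Real.exp A := by
      rw [div_mul_eq_mul_div, le_div_iff₀ (by positivity)]
      have e : ((T : ℝ) + 1) * (2 / Real.sqrt κ * Real.exp A) * Real.sqrt κ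
          = 2 * ((T : ℝ) + 1) * Real.exp A := by
        field_simp
      have := mul_le_mul_of_nonneg_right hsum hsq.le
      rw [e] at this
      linarith
    have h2 := Real.log_nonneg h1
    rw [Real.log_mul hX.ne' (Real.exp_pos A).ne', Real.log_exp] at h2
    unfold Lg
    have e : ((l : ℝ) - m) ^ 2 / T = 2 * (((l : ℝ) - m) ^ 2 / (2 * T)) := by
      field_simp
    rw [e]
    linarith

end Pool.Agent.R953.LV.CR

namespace Pool.Agent.R953.LV

theorem s_CrossR (h : S_CV) : S_CrossR := by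
  intro κ p V hE T ε i b hT hε hx l m hil hlm hmb
  have h0 : ∀ k, 0 ≤ p k := fun k => hE.pos.le.trans (hE.lo k)
  have h1 : ∀ k, p k ≤ 1 := fun k => (hE.hi k).trans (by linarith [hE.pos])
  have e1 : ε ≤ 1 := hx.trans (CR.Ex_le_one h0 h1 (CR.geI_le b) T i)
  have := CR.fin h hE hT hε e1 (hx.trans (CR.hit_R h0 h1 T hil hlm hmb))
  have e : ((m : ℝ) - l) ^ 2 = ((l : ℝ) - m) ^ 2 := by ring
  rwa [e]

theorem s_CrossL (h : S_CV) : S_CrossL := by
  intro κ p V hE T ε i a hT hε hx l m ham hml hli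
  have h0 : ∀ k, 0 ≤ p k := fun k => hE.pos.le.trans (hE.lo k)
  have h1 : ∀ k, p k ≤ 1 := fun k => (hE.hi k).trans (by linarith [hE.pos])
  have e1 : ε ≤ 1 := hx.trans (CR.Ex_le_one h0 h1 (CR.leI_le a) T i)
  exact CR.fin h hE hT hε e1 (hx.trans (CR.hit_L h0 h1 T hli hml ham))

end Pool.Agent.R953.LV
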