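import Pool.Agent.R953.LV.Defs

set_option autoImplicit false
open Filter Topology MeasureTheory

/-!
# Project LV (MP_545af4_pr), piece LV-DK: Denjoy–Koksma for Lipschitz functions
-/
namespace Pool.Agent.R953.LV

namespace DK

theorem sum_range_zmod (Q : ℕ) [NeZero Q] (G : ZMod Q → ℝ) :
    ∑ i ∈ Finset.range Q, G (i : ZMod Q) = ∑ z : ZMod Q, G z := by
  refine Finset.sum_nbij' (fun i => (i : ZMod Q)) (fun z => z.val) ?_ ?_ ?_ ?_ ?_
  · intros; exact Finset.mem_univ _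
  · intro z _; exact Finset.mem_range.2 (ZMod.val_lt z)
  · intro i hi; exact ZMod.val_cast_of_lt (Finset.mem_range.1 hi)
  · intro z _; exact ZMod.natCast_zmod_val z
  · intros; rfl

theorem per_zmod {g : ℝ → ℝ} (hper : Function.Periodic g 1) (Q : ℕ) [NeZero Q] (x : ℝ) (m : ℤ) :
    g (x + m / Q) = g (x + ((m : ZMod Q).val : ℝ) / Q) := by
  have hQ : (Q : ℝ) ≠ 0 := Nat.cast_ne_zero.2 (NeZero.ne Q)
  have h1 : (((m : ZMod Q).val : ℕ) : ℤ) = m % Q := ZMod.val_intCast m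
  have h2 : (m : ℤ) = Q * (m / Q) + ((m : ZMod Q).val : ℤ) := by
    rw [h1]
    exact (Int.mul_ediv_add_emod m Q).symm
  have h3 : (m : ℝ) = Q * ((m / Q : ℤ) : ℝ) + (((m : ZMod Q).val : ℕ) : ℝ) := by
    exact_mod_cast h2
  have h4 : x + (m : ℝ) / Q = x + ((m : ZMod Q).val : ℝ) / Q + ((m / Q : ℤ) : ℝ) * 1 := by
    rw [h3]
    push_cast
    field_simp
    ring_nf
  rw [h4]
  exact hper.int_mul (m / Q) _

theorem sum_perm {g : ℝ → ℝ} (hper : Function.Periodic g 1) (Q : ℕ) [NeZero Q] (x : ℝ) (a : ℤ)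
    (ha : Int.gcd a Q = 1) :
    ∑ i ∈ Finset.range Q, g (x + i * ((a : ℝ) / Q)) = ∑ j ∈ Finset.range Q, g (x + j / Q) := by
  have h1 : ∀ i : ℕ, g (x + i * ((a : ℝ) / Q)) =
      g (x + (((i : ZMod Q) * (a : ZMod Q)).val : ℝ) / Q) := by
    intro i
    have h2 := per_zmod hper Q x ((i : ℤ) * a)
    push_cast at h2
    rw [← h2]
    congr 1
    ring
  have h2 : ∀ j : ℕ, g (x + (j : ℝ) / Q) = g (x + (((j : ZMod Q)).val : ℝ) / Q) := by
    intro j
    have h2 := per_zmod hper Q x (j : ℤ)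
    push_cast at h2
    exact h2
  rw [Finset.sum_congr rfl fun i _ => h1 i, Finset.sum_congr rfl fun i _ => h2 i]
  rw [sum_range_zmod Q (fun z => g (x + ((z * (a : ZMod Q)).val : ℝ) / Q)),
    sum_range_zmod Q (fun z => g (x + (z.val : ℝ) / Q))]
  have hu : IsUnit (a : ZMod Q) := by
    have := (ZMod.coe_int_isUnit_iff_isCoprime a Q).2 ?_
    · exact this
    · rw [Int.isCoprime_iff_gcd_eq_one, Int.gcd_comm]
      exact ha
  obtain ⟨u, hu⟩ := hu
  rw [← hu]
  exact Fintype.sum_equiv (Units.mulRight u) _ _ (fun z => rfl)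

theorem int_sum {g : ℝ → ℝ} (hc : Continuous g) (hper : Function.Periodic g 1)
    (h0 : ∫ y in (0 : ℝ)..1, g y = 0) (Q : ℕ) (hQ : 1 ≤ Q) (x : ℝ) :
    ∑ j ∈ Finset.range Q, ∫ y in (x + j / Q)..(x + (j + 1 : ℕ) / Q), g y = 0 := by
  have hQ' : (Q : ℝ) ≠ 0 := by positivity
  rw [intervalIntegral.sum_integral_adjacent_intervals (a := fun j : ℕ => x + (j : ℝ) / Q)]
  · have h1 := hper.intervalIntegral_add_eq x 0
    rw [zero_add, h0] at h1
    simp only [Nat.cast_zero, zero_div, add_zero]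
    rw [div_self hQ']
    exact h1
  · intro k _
    exact hc.intervalIntegrable _ _

theorem block {g : ℝ → ℝ} {L : ℝ} (hL : 0 ≤ L) (hc : Continuous g)
    (hlip : ∀ y z, |g y - g z| ≤ L * |y - z|) (Q : ℕ) (hQ : 1 ≤ Q) (x : ℝ) (j : ℕ) :
    |g (x + j / Q) - Q * ∫ y in (x + j / Q)..(x + (j + 1 : ℕ) / Q), g y| ≤ L / Q := by
  have hQ0 : (0 : ℝ) < Q := by positivity
  set y₀ := x + (j : ℝ) / Q with hy₀
  have hy₁ : x + ((j + 1 : ℕ) : ℝ) / Q = y₀ + 1 / Q := by
    rw [hy₀]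
    push_cast
    field_simp
    ring
  rw [hy₁]
  have h1 : ∫ y in y₀..(y₀ + 1 / Q), (g y₀ - g y) = g y₀ / Q - ∫ y in y₀..(y₀ + 1 / Q), g y := by
    rw [intervalIntegral.integral_sub intervalIntegrable_const (hc.intervalIntegrable _ _),
      intervalIntegral.integral_const]
    simp only [smul_eq_mul]
    ring_nf
  have h2 : ‖∫ y in y₀..(y₀ + 1 / Q), (g y₀ - g y)‖ ≤ (L * (1 / Q)) * |y₀ + 1 / Q - y₀| := by
    refine intervalIntegral.norm_integral_le_of_norm_le_const ?_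
    intro y hy
    rw [Set.uIoc_of_le (by have : (0 : ℝ) ≤ 1 / Q := by positivity
                           linarith)] at hy
    rw [Real.norm_eq_abs]
    refine (hlip _ _).trans (mul_le_mul_of_nonneg_left ?_ hL)
    rw [abs_le]
    constructor
    · linarith [hy.1, hy.2]
    · have : (0 : ℝ) ≤ 1 / Q := by positivity
      linarith [hy.1, hy.2]
  rw [h1, Real.norm_eq_abs, add_sub_cancel_left, abs_of_pos (by positivity : (0 : ℝ) < 1 / Q)] at h2
  have h3 : g y₀ - Q * ∫ y in y₀..(y₀ + 1 / Q), g y =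
      Q * (g y₀ / Q - ∫ y in y₀..(y₀ + 1 / Q), g y) := by
    field_simp
  rw [h3, abs_mul, abs_of_pos hQ0]
  calc (Q : ℝ) * |g y₀ / Q - ∫ y in y₀..(y₀ + 1 / Q), g y| ≤ Q * (L * (1 / Q) * (1 / Q)) :=
        mul_le_mul_of_nonneg_left h2 hQ0.le
    _ = L / Q := by field_simp

end DK

open DK in
/-- LV-DK -/
theorem s_DK : S_DK := by
  intro g L hL hper hlip h0 Q a α x hQ ha hα
  have hNZ : NeZero Q := ⟨by omega⟩
  have hQ0 : (0 : ℝ) < Q := by positivity
  have hc : Continuous g := by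
    have : LipschitzWith (Real.toNNReal L) g := LipschitzWith.of_dist_le_mul fun y z => by
      rw [Real.dist_eq, Real.dist_eq, Real.coe_toNNReal L hL]
      exact hlip y z
    exact this.continuous
  have h1 : |∑ i ∈ Finset.range Q, g (x + i * α) -
      ∑ i ∈ Finset.range Q, g (x + i * ((a : ℝ) / Q))| ≤ L := by
    rw [← Finset.sum_sub_distrib]
    refine (Finset.abs_sum_le_sum_abs _ _).trans ?_
    have h2 : ∀ i ∈ Finset.range Q, |g (x + i * α) - g (x + i * ((a : ℝ) / Q))| ≤ L / Q := by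
      intro i hi
      refine (hlip _ _).trans ?_
      have h3 : x + i * α - (x + i * ((a : ℝ) / Q)) = i * (α - a / Q) := by ring
      rw [h3, abs_mul, Nat.abs_cast]
      have hiQ : (i : ℝ) ≤ Q := by exact_mod_cast (Finset.mem_range.1 hi).le
      calc L * ((i : ℝ) * |α - a / Q|) ≤ L * (Q * (1 / (Q : ℝ) ^ 2)) := by
            refine mul_le_mul_of_nonneg_left ?_ hL
            exact mul_le_mul hiQ hα (abs_nonneg _) hQ0.le
        _ = L / Q := by field_simp
    refine (Finset.sum_le_sum h2).trans ?_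
    rw [Finset.sum_const, Finset.card_range, nsmul_eq_mul]
    exact le_of_eq (by field_simp)
  have h4 : |∑ j ∈ Finset.range Q, g (x + j / Q)| ≤ L := by
    have h5 : ∑ j ∈ Finset.range Q, g (x + j / Q) = ∑ j ∈ Finset.range Q,
        (g (x + j / Q) - Q * ∫ y in (x + j / Q)..(x + (j + 1 : ℕ) / Q), g y) := by
      rw [Finset.sum_sub_distrib, ← Finset.mul_sum, int_sum hc hper h0 Q hQ x, mul_zero, sub_zero]
    rw [h5]
    refine (Finset.abs_sum_le_sum_abs _ _).trans ?_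
    refine (Finset.sum_le_sum fun j _ => block hL hc hlip Q hQ x j).trans ?_
    rw [Finset.sum_const, Finset.card_range, nsmul_eq_mul]
    exact le_of_eq (by field_simp)
  rw [sum_perm hper Q x a ha] at h1
  have h6 := abs_le.1 h1
  have h7 := abs_le.1 h4
  rw [abs_le]
  constructor
  · linarith [h6.1, h7.1]
  · linarith [h6.2, h7.2]

end Pool.Agent.R953.LV
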