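import Pool.Agent.R953.LV.Defs

set_option autoImplicit false
open Filter Topology MeasureTheory

/-!
# Project LV (MP_545af4_pr): constants attached to a smooth periodic environment
-/
namespace Pool.Agent.R953.LV
namespace Data

/-- a continuous 1-periodic function is bounded -/
theorem bdd {F : ℝ → ℝ} (hF : Continuous F) (hp : Function.Periodic F 1) :
    ∃ M : ℝ, 0 ≤ M ∧ ∀ y, |F y| ≤ M := by
  have h := hp.isBounded_of_continuous one_ne_zero hF
  obtain ⟨M, hM⟩ := h.exists_norm_le
  refine ⟨max M 0, le_max_right _ _, fun y => ?_⟩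
  have := hM (F y) ⟨y, rfl⟩
  rw [Real.norm_eq_abs] at this
  exact this.trans (le_max_left _ _)

theorem per_deriv {F : ℝ → ℝ} (hp : Function.Periodic F 1) : Function.Periodic (deriv F) 1 := by
  intro y
  have h := deriv_comp_add_const F 1 y
  have h2 : (fun x => F (x + 1)) = F := funext hp
  rw [h2] at h
  exact h.symm

theorem lip {F : ℝ → ℝ} (hF : Differentiable ℝ F) {M : ℝ} (hM : ∀ y, |deriv F y| ≤ M) (y z : ℝ) :
    |F y - F z| ≤ M * |y - z| := by
  have := Convex.norm_image_sub_le_of_norm_deriv_le (f := F) (C := M) (s := Set.univ) (x := z)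
    (y := y) (fun x _ => hF x) (fun x _ => by rw [Real.norm_eq_abs]; exact hM x) convex_univ
    (Set.mem_univ _) (Set.mem_univ _)
  rwa [Real.norm_eq_abs, Real.norm_eq_abs] at this

theorem second {F : ℝ → ℝ} (hF : Differentiable ℝ F) (hF' : Differentiable ℝ (deriv F)) {M : ℝ}
    (hM : ∀ y, |deriv (deriv F) y| ≤ M) (y h : ℝ) :
    |F (y + h) + F (y - h) - 2 * F y| ≤ 2 * M * h ^ 2 := by
  have hM0 : 0 ≤ M := (abs_nonneg _).trans (hM 0)
  have hd : ∀ t : ℝ, HasDerivAt (fun t => F (y + t) + F (y - t)) (deriv F (y + t) - deriv F (y - t)) t := by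
    intro t
    have h1 : HasDerivAt (fun t => F (y + t)) (deriv F (y + t)) t := by
      have := (hF (y + t)).hasDerivAt.comp_const_add y t
      exact this
    have h2 : HasDerivAt (fun t => F (y - t)) (-deriv F (y - t)) t := by
      have := (hF (y - t)).hasDerivAt.comp_const_sub y t
      exact this
    have := h1.add h2
    rw [← sub_eq_add_neg] at this
    exact this
  have := Convex.norm_image_sub_le_of_norm_deriv_le (f := fun t => F (y + t) + F (y - t))
    (C := 2 * M * |h|) (s := Set.Icc (-|h|) |h|) (x := 0)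
    (y := h) (fun t _ => (hd t).differentiableAt) (fun t ht => by
      rw [(hd t).deriv, Real.norm_eq_abs]
      have h1 := lip hF' hM (y + t) (y - t)
      have h2 : |y + t - (y - t)| = 2 * |t| := by
        rw [show y + t - (y - t) = 2 * t by ring, abs_mul, abs_two]
      rw [h2] at h1
      have h3 : |t| ≤ |h| := abs_le.2 ht
      calc |deriv F (y + t) - deriv F (y - t)| ≤ M * (2 * |t|) := h1
        _ ≤ M * (2 * |h|) := by gcongr
        _ = 2 * M * |h| := by ring) (convex_Icc _ _)
    ⟨by simp, abs_nonneg _⟩ ⟨neg_abs_le h, le_abs_self h⟩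
  rw [Real.norm_eq_abs, Real.norm_eq_abs, sub_zero] at this
  have e : F (y + h) + F (y - h) - (F (y + 0) + F y) = F (y + h) + F (y - h) - 2 * F y := by
    rw [add_zero]
    ring
  rw [← e]
  refine this.trans (le_of_eq ?_)
  rw [sub_zero h, mul_assoc (2 * M), abs_mul_abs_self]
  ring

end Data

open Data in
theorem s_Data : S_Data := by
  intro π hπ
  have hc : Continuous π := hπ.smooth.continuous
  have hne : ∀ y, π y ≠ 0 := fun y => (hπ.pos y).ne'
  have hne1 : ∀ y, 1 - π y ≠ 0 := fun y => (sub_pos.2 (hπ.lt_one y)).ne'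
  set g : ℝ → ℝ := fun y => Real.log ((1 - π y) / π y) with hg
  have hgper : Function.Periodic g 1 := by
    intro y
    simp only [hg, hπ.per y]
  have hgs : ContDiff ℝ (⊤ : ℕ∞) g := by
    refine ContDiff.log ((contDiff_const.sub hπ.smooth).div hπ.smooth hne) (fun y => ?_)
    exact div_ne_zero (hne1 y) (hne y)
  -- the constant `κ`
  obtain ⟨M1, hM1, hb1⟩ := bdd (F := fun y => (π y)⁻¹) (hc.inv₀ hne) (fun y => by
    simp only [hπ.per y])
  obtain ⟨M2, hM2, hb2⟩ := bdd (F := fun y => (1 - π y)⁻¹) ((continuous_const.sub hc).inv₀ hne1)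
    (fun y => by simp only [hπ.per y])
  -- derivatives
  have hd1 : ContDiff ℝ (⊤ : ℕ∞) (deriv π) := (contDiff_infty_iff_deriv.1 hπ.smooth).2
  have hd0 : Differentiable ℝ π := (contDiff_infty_iff_deriv.1 hπ.smooth).1
  have hg0 : Differentiable ℝ g := (contDiff_infty_iff_deriv.1 hgs).1
  have hg1 : ContDiff ℝ (⊤ : ℕ∞) (deriv g) := (contDiff_infty_iff_deriv.1 hgs).2
  have hg1d : Differentiable ℝ (deriv g) := (contDiff_infty_iff_deriv.1 hg1).1
  have hg2 : ContDiff ℝ (⊤ : ℕ∞) (deriv (deriv g)) := (contDiff_infty_iff_deriv.1 hg1).2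
  obtain ⟨L1, hL1, hl1⟩ := bdd hd1.continuous (per_deriv hπ.per)
  obtain ⟨L2, hL2, hl2⟩ := bdd hg1.continuous (per_deriv hgper)
  obtain ⟨C, hC, hc2⟩ := bdd hg2.continuous (per_deriv (per_deriv hgper))
  have hpos : 0 < 2 + M1 + M2 := by positivity
  have hinv : ∀ x : ℝ, 0 < x → ∀ M, |x⁻¹| ≤ M → M ≤ 2 + M1 + M2 → (2 + M1 + M2)⁻¹ ≤ x := by
    intro x hx M h1 h2
    rw [abs_of_pos (inv_pos.2 hx)] at h1
    rw [inv_le_comm₀ hpos hx]
    exact h1.trans h2
  refine ⟨(2 + M1 + M2)⁻¹, L1 + L2, 2 * C, inv_pos.2 hpos, ?_, by positivity, by positivity,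
    fun y => hinv _ (hπ.pos y) M1 (hb1 y) (by linarith), fun y => ?_, fun y z => ?_, hgper,
    fun y z => ?_, fun y h => second hg0 hg1d hc2 y h, ?_⟩
  · rw [one_div]
    exact inv_anti₀ (by norm_num) (by linarith)
  · have := hinv _ (sub_pos.2 (hπ.lt_one y)) M2 (hb2 y) (by linarith)
    linarith
  · refine (lip hd0 hl1 y z).trans ?_
    gcongr
    linarith
  · refine (lip hg0 hl2 y z).trans ?_
    gcongr
    linarith
  · have e : ∀ y, g y = Real.log (1 - π y) - Real.log (π y) := fun y => Real.log_div (hne1 y) (hne y)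
    have : (∫ y in (0 : ℝ)..1, g y) =
        ∫ y in (0 : ℝ)..1, (Real.log (1 - π y) - Real.log (π y)) := by
      simp only [e]
    rw [this, intervalIntegral.integral_sub, hπ.symm, sub_self]
    · exact ((continuous_const.sub hc).log hne1).intervalIntegrable _ _
    · exact (hc.log hne).intervalIntegrable _ _

end Pool.Agent.R953.LV
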