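import Mathlib

set_option autoImplicit false
open Filter Topology MeasureTheory

/-!
# Project LV (MP_545af4_pr): quasi-periodic walks, variance growth at Liouville frequencies

Definitions and exact statements of the independent pieces.
-/
namespace Pool.Agent.R953.LV

/-- One step operator of the nearest neighbour chain on the integers which moves from `k` to `k+1` with
probability `p k` and to `k-1` with probability `1 - p k`. -/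
noncomputable def P (p : ℤ → ℝ) (f : ℤ → ℝ) : ℤ → ℝ :=
  fun k => p k * f (k + 1) + (1 - p k) * f (k - 1)

/-- `Ex p t f k` is the expectation of `f (Z_t)` for the chain started at `k`. -/
noncomputable def Ex (p : ℤ → ℝ) (t : ℕ) (f : ℤ → ℝ) : ℤ → ℝ := (P p)^[t] f

/-- indicator of `[b, ∞)` -/
noncomputable def geI (b : ℤ) : ℤ → ℝ := fun k => if b ≤ k then 1 else 0
/-- indicator of `(-∞, a]` -/
noncomputable def leI (a : ℤ) : ℤ → ℝ := fun k => if k ≤ a then 1 else 0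
/-- indicator of `{j}` -/
noncomputable def pt (j : ℤ) : ℤ → ℝ := fun k => if k = j then 1 else 0
/-- the coordinate -/
noncomputable def idf : ℤ → ℝ := fun k => (k : ℝ)
/-- the squared coordinate -/
noncomputable def sqf : ℤ → ℝ := fun k => (k : ℝ) ^ 2
/-- the variance of `Z_t` for the chain started at `k` -/
noncomputable def va (p : ℤ → ℝ) (t : ℕ) (k : ℤ) : ℝ := Ex p t sqf k - (Ex p t idf k) ^ 2

/-- Elliptic environment `p` with potential `V`. -/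
structure Env (κ : ℝ) (p V : ℤ → ℝ) : Prop where
  pos : 0 < κ
  half : κ ≤ 1 / 2
  lo : ∀ k, κ ≤ p k
  hi : ∀ k, p k ≤ 1 - κ
  pot : ∀ k, V (k + 1) - V k = Real.log ((1 - p k) / p k)

/-- the logarithmic loss -/
noncomputable def Lg (κ : ℝ) (T : ℕ) (ε : ℝ) : ℝ := 2 * Real.log (2 * (T + 1) / (Real.sqrt κ * ε))

/-- (LV-CV) Carne–Varopoulos bound. -/
def S_CV : Prop := ∀ (κ : ℝ) (p V : ℤ → ℝ), Env κ p V → ∀ (t : ℕ) (i j : ℤ),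
  Ex p t (pt j) i ≤ 2 / Real.sqrt κ * Real.exp ((V i - V j) / 2 - ((i : ℝ) - j) ^ 2 / (2 * t))

/-- (LV-CROSS) crossing to the right forces the potential to decrease -/
def S_CrossR : Prop := ∀ (κ : ℝ) (p V : ℤ → ℝ), Env κ p V → ∀ (T : ℕ) (ε : ℝ) (i b : ℤ),
  1 ≤ T → 0 < ε → ε ≤ Ex p T (geI b) i → ∀ l m : ℤ, i ≤ l → l ≤ m → m ≤ b →
  ((m : ℝ) - l) ^ 2 / T - Lg κ T ε ≤ V l - V m

/-- (LV-CROSS) crossing to the left -/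
def S_CrossL : Prop := ∀ (κ : ℝ) (p V : ℤ → ℝ), Env κ p V → ∀ (T : ℕ) (ε : ℝ) (i a : ℤ),
  1 ≤ T → 0 < ε → ε ≤ Ex p T (leI a) i → ∀ l m : ℤ, a ≤ m → m ≤ l → l ≤ i →
  ((l : ℝ) - m) ^ 2 / T - Lg κ T ε ≤ V l - V m

/-- (LV-KEYR) no random delay on the right -/
def S_KeyR : Prop := ∀ (κ : ℝ) (p V : ℤ → ℝ), Env κ p V → ∀ (q M T : ℕ) (E ε : ℝ) (a b : ℤ),
  1 ≤ q → 1 ≤ M → 1 ≤ T → 0 ≤ E →
  (∀ k : ℤ, |V (k + (M + 1) * q) - V (k - M * q) - (2 * M + 1) * (V (k + q) - V k)| ≤ E) →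
  0 < ε → ε ≤ 1 →
  (T : ℝ) * (Lg κ T ε + E) ≤ ((M : ℝ) * q) ^ 2 →
  4 * M * q ≤ T → M * q ^ 2 ≤ T →
  Real.log (4 / ε) < κ ^ 2 * ((M : ℝ) * q) ^ 4 /
    (4 * Real.exp (2 * Real.log (1 / κ) * q + 2) * (T : ℝ) ^ 3) →
  a + 6 * M * q ≤ b → 3 * M * q ≤ a →
  ε ≤ Ex p T (geI b) (-(4 * M * q)) → ε ≤ Ex p T (leI a) (4 * M * q) → False

/-- (LV-KEY) no random delay, both sides -/
def S_Key : Prop := ∀ (κ : ℝ) (p V : ℤ → ℝ), Env κ p V → ∀ (q M T : ℕ) (E ε : ℝ) (a b : ℤ),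
  1 ≤ q → 1 ≤ M → 1 ≤ T → 0 ≤ E →
  (∀ k : ℤ, |V (k + (M + 1) * q) - V (k - M * q) - (2 * M + 1) * (V (k + q) - V k)| ≤ E) →
  0 < ε → ε ≤ 1 →
  (T : ℝ) * (Lg κ T ε + E) ≤ ((M : ℝ) * q) ^ 2 →
  4 * M * q ≤ T → M * q ^ 2 ≤ T →
  Real.log (4 / ε) < κ ^ 2 * ((M : ℝ) * q) ^ 4 /
    (4 * Real.exp (2 * Real.log (1 / κ) * q + 2) * (T : ℝ) ^ 3) →
  a + 6 * M * q ≤ b →
  ε ≤ Ex p T (geI b) (-(4 * M * q)) → ε ≤ Ex p T (leI a) (4 * M * q) → False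

/-- (LV-VAR) a large variance gives two far apart tails -/
def S_Var : Prop := ∀ (p : ℤ → ℝ), (∀ k, 0 ≤ p k) → (∀ k, p k ≤ 1) → ∀ (T : ℕ) (v : ℝ), 1 ≤ T →
  0 < v → v ≤ va p T 0 → ∃ a b : ℤ, Real.sqrt (v / 2) ≤ (b : ℝ) - a ∧
    Real.sqrt (v / 2) * v / (32 * (T : ℝ) ^ 3) ≤ Ex p T (leI a) 0 ∧
    Real.sqrt (v / 2) * v / (32 * (T : ℝ) ^ 3) ≤ Ex p T (geI b) 0

/-- (LV-GAP) transfer of the tails to the starting points `±J`, `J` even -/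
def S_Gap : Prop := ∀ (p : ℤ → ℝ), (∀ k, 0 ≤ p k) → (∀ k, p k ≤ 1) →
  ∀ (T J D : ℕ) (ε : ℝ) (a b : ℤ), 1 ≤ D → Even J →
  Ex p T idf J - Ex p T idf (-J) ≤ D * ε / 2 →
  ε ≤ Ex p T (leI a) 0 → ε ≤ Ex p T (geI b) 0 →
  ε / 2 ≤ Ex p T (leI (a + D)) J ∧ ε / 2 ≤ Ex p T (geI (b - D)) (-J)

/-- the quasi-periodic environment -/
noncomputable def env (π : ℝ → ℝ) (α x : ℝ) : ℤ → ℝ := fun k => π (x + k * α)

/-- (LV-GRON) near periodicity with period `q` -/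
def S_Gron : Prop := ∀ (π : ℝ → ℝ) (L : ℝ), 0 ≤ L → (∀ y, 0 ≤ π y) → (∀ y, π y ≤ 1) →
  Function.Periodic π 1 → (∀ y z, |π y - π z| ≤ L * |y - z|) →
  ∀ (α x : ℝ) (q : ℕ) (a : ℤ) (T : ℕ), 1 ≤ q →
  va (env π α x) T 0 ≤ T * (q : ℝ) ^ 2 * Real.exp (4 * |q * α - a| * L * T)

/-- (LV-DK) Denjoy–Koksma -/
def S_DK : Prop := ∀ (g : ℝ → ℝ) (L : ℝ), 0 ≤ L → Function.Periodic g 1 →
  (∀ y z, |g y - g z| ≤ L * |y - z|) → ∫ y in (0 : ℝ)..1, g y = 0 →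
  ∀ (Q : ℕ) (a : ℤ) (α x : ℝ), 1 ≤ Q → Int.gcd a Q = 1 → |α - a / Q| ≤ 1 / (Q : ℝ) ^ 2 →
  |∑ i ∈ Finset.range Q, g (x + i * α)| ≤ 2 * L

/-- (LV-CVR) displacement at most `√(QT)` -/
def S_CVR : Prop := ∀ κ C : ℝ, 0 < κ → 0 ≤ C → ∃ K : ℝ, 0 < K ∧
  ∀ (p V : ℤ → ℝ) (Q T : ℕ), Env κ p V → 1 ≤ Q → 1 ≤ T → T ≤ Q ^ 3 →
  (∀ k : ℤ, |V (k + Q) - V k| ≤ C) → Ex p T sqf 0 ≤ K * Q * T

/-- (LV-C2) second order smoothness of the potential -/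
def S_C2 : Prop := ∀ (g : ℝ → ℝ) (C : ℝ), 0 ≤ C → Function.Periodic g 1 →
  (∀ y h, |g (y + h) + g (y - h) - 2 * g y| ≤ C * h ^ 2) →
  ∀ (α x : ℝ) (V : ℤ → ℝ), (∀ k : ℤ, V (k + 1) - V k = g (x + k * α)) →
  ∀ (q M : ℕ) (a : ℤ), 1 ≤ q → 1 ≤ M → ∀ k : ℤ,
  |V (k + (M + 1) * q) - V (k - M * q) - (2 * M + 1) * (V (k + q) - V k)|
    ≤ q * C * (q * α - a) ^ 2 * (M : ℝ) ^ 3

/-- (LV-AE) for almost every `x` the starting points `±J` stay close together on average -/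
def S_AE : Prop := ∀ (π : ℝ → ℝ), Continuous π → (∀ y, 0 ≤ π y) → (∀ y, π y ≤ 1) →
  Function.Periodic π 1 → ∀ (α : ℝ) (J N : ℕ → ℕ) (X : ℕ → ℝ), (∀ n, 0 < X n) →
  Summable (fun n => (4 * (N n : ℝ) / X n + 1) * (4 * J n / X n)) →
  ∀ᵐ x : ℝ, ∀ᶠ n in atTop, ∀ T : ℕ, T ≤ N n →
    Ex (env π α x) T idf (J n) - Ex (env π α x) T idf (-(J n : ℤ)) ≤ X n

/-- Diophantine numbers, as in the problem -/
def Dioph (α : ℝ) : Prop := ∃ γ τ : ℝ, 0 < γ ∧ 0 ≤ τ ∧ ∀ (a : ℤ) (q : ℕ), 1 ≤ q →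
  γ * (q : ℝ) ^ (-2 - τ) ≤ |α - a / q|

/-- (LV-ALPHA) a very well approximable number -/
def S_Alpha : Prop := ∃ (α : ℝ) (q : ℕ → ℕ) (a : ℕ → ℤ), 0 < α ∧ α < 1 ∧ Irrational α ∧ ¬ Dioph α ∧
  q 0 = 16 ∧ (∀ n, q (n + 1) = 2 ^ ((q n) ^ 2)) ∧ (∀ n, Int.gcd (a n) (q n) = 1) ∧
  (∀ n, |α - a n / q n| ≤ 2 / q (n + 1))

/-- the class of symmetric environments of the problem, as 1-periodic functions on the line -/
structure InP (π : ℝ → ℝ) : Prop where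
  smooth : ContDiff ℝ (⊤ : ℕ∞) π
  per : Function.Periodic π 1
  pos : ∀ y, 0 < π y
  lt_one : ∀ y, π y < 1
  symm : ∫ y in (0 : ℝ)..1, Real.log (π y) = ∫ y in (0 : ℝ)..1, Real.log (1 - π y)

/-- (LV-DATA) constants attached to an environment -/
def S_Data : Prop := ∀ π : ℝ → ℝ, InP π → ∃ κ L C : ℝ, 0 < κ ∧ κ ≤ 1 / 2 ∧ 0 ≤ L ∧ 0 ≤ C ∧
  (∀ y, κ ≤ π y) ∧ (∀ y, π y ≤ 1 - κ) ∧ (∀ y z, |π y - π z| ≤ L * |y - z|) ∧
  Function.Periodic (fun y => Real.log ((1 - π y) / π y)) 1 ∧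
  (∀ y z, |Real.log ((1 - π y) / π y) - Real.log ((1 - π z) / π z)| ≤ L * |y - z|) ∧
  (∀ y h, |Real.log ((1 - π (y + h)) / π (y + h)) + Real.log ((1 - π (y - h)) / π (y - h))
    - 2 * Real.log ((1 - π y) / π y)| ≤ C * h ^ 2) ∧
  ∫ y in (0 : ℝ)..1, Real.log ((1 - π y) / π y) = 0

/-- The law of `Z_t` for the walk started at `0`. -/
noncomputable def law (p : ℤ → ℝ) : ℕ → Measure ℤ
  | 0 => Measure.dirac 0
  | t + 1 => (law p t).bind (fun k => ENNReal.ofReal (p k) • Measure.dirac (k + 1) +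
      ENNReal.ofReal (1 - p k) • Measure.dirac (k - 1))

/-- (LV-LAW) the variance of the law -/
def S_Law : Prop := ∀ (p : ℤ → ℝ), (∀ k, 0 ≤ p k) → (∀ k, p k ≤ 1) → ∀ t : ℕ,
  IsProbabilityMeasure (law p t) ∧
  ProbabilityTheory.variance (fun k : ℤ => (k : ℝ)) (law p t) = va p t 0

end Pool.Agent.R953.LV
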