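import Pool.Agent.R953.LV.Asm

set_option autoImplicit false
open Filter Topology MeasureTheory

namespace Pool.Agent.R953.LV

theorem mainBound (hCV : S_CV) (hCVR : S_CVR) (hKey : S_Key) (hVar : S_Var) (hGap : S_Gap) (hGron : S_Gron)
    (hDK : S_DK) (hC2 : S_C2) (hAE : S_AE) (hData : S_Data)
    {α : ℝ} {q : ℕ → ℕ} {a : ℕ → ℤ} (h0 : q 0 = 16) (hs : ∀ n, q (n + 1) = 2 ^ ((q n) ^ 2))
    (hgcd : ∀ n, Int.gcd (a n) (q n) = 1) (hα : ∀ n, |α - a n / q n| ≤ 2 / q (n + 1))
    (π : ℝ → ℝ) (hπ : InP π) :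
    ∀ᵐ x : ℝ, ∀ᶠ T : ℕ in atTop, va (env π α x) T 0 ≤ (T : ℝ) ^ (2 - 1 / 200 : ℝ) := by
  obtain ⟨κ, L, C, hκ, hκ2, hL, hC, hlo, hhi, hlip, hgper, hglip, hg2, hgint⟩ := hData π hπ
  obtain ⟨K1, hK10, hK1⟩ := hCVR κ (2 * L) hκ (by positivity)
  -- scales
  obtain ⟨S, hS⟩ : ∃ S : ℕ → ℕ, S = fun n => 2 ^ ((q n) ^ 2 / 128) := ⟨_, rfl⟩
  have hSn : ∀ n, S n = 2 ^ ((q n) ^ 2 / 128) := fun n => by rw [hS]
  have hS128 : ∀ n, (S n) ^ 128 = q (n + 1) := fun n => by rw [hSn]; exact q_S h0 hs n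
  have hSge : ∀ n, 2 ^ n ≤ S n := fun n => by rw [hSn]; exact S_ge h0 hs n
  have hS1 : ∀ n, (1 : ℝ) ≤ (S n : ℝ) := fun n => by
    have h1 := hSge n
    have h2 : 1 ≤ 2 ^ n := Nat.one_le_two_pow
    exact_mod_cast (by omega : 1 ≤ S n)
  have hq16 : ∀ n, 16 ≤ q n := q_ge h0 hs
  have hlogκ : 0 ≤ Real.log (1 / κ) := by
    apply Real.log_nonneg
    rw [le_div_iff₀ hκ]; linarith
  obtain ⟨K, hK⟩ : ∃ K : ℝ, K = 1024 + 4 * C + 4 / κ ^ 2 + 2 * Real.log (1 / κ) + 800 / Real.sqrt κ + K1 +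
    Real.exp (16 * L) := ⟨_, rfl⟩
  have hKp : 0 ≤ 4 / κ ^ 2 ∧ 0 ≤ 800 / Real.sqrt κ ∧ 0 ≤ 4 * C ∧ 0 < Real.exp (16 * L) :=
    ⟨by positivity, by positivity, by positivity, Real.exp_pos _⟩
  obtain ⟨hp1, hp2, hp3, hp4⟩ := hKp
  have hK0 : 0 ≤ K := by rw [hK]; positivity
  have big : ∀ᶠ n in atTop, K * Real.exp (K * q n) ≤ (S n : ℝ) := by
    have := S_big h0 hs K hK0
    filter_upwards [this] with n hn
    rw [hSn]; exact hn
  have bigq : ∀ᶠ n in atTop, Real.exp (16 * L) ≤ (q n : ℝ) :=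
    (tendsto_natCast_atTop_atTop.comp (q_tendsto h0 hs)).eventually_ge_atTop _
  have cond : ∀ n, K * Real.exp (K * q n) ≤ (S n : ℝ) →
      (q n : ℝ) ^ 4 ≤ S n ∧ (1024 : ℝ) ≤ S n ∧ 4 * C ≤ S n ∧ 4 / κ ^ 2 ≤ (S n : ℝ) ∧
      Real.exp (2 * Real.log (1 / κ) * q n + 2) ≤ S n ∧ 800 / Real.sqrt κ ≤ (S n : ℝ) ∧ K1 ≤ S n := by
    intro n hn
    have hqn : (1 : ℝ) ≤ q n := by
      have := hq16 n
      exact_mod_cast (by omega : 1 ≤ q n)
    have hE1 : 1 ≤ Real.exp (K * q n) := Real.one_le_exp (by positivity)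
    have hKS : K ≤ S n := by nlinarith
    have hES : Real.exp (K * q n) ≤ S n := by
      have : (1 : ℝ) ≤ K := by rw [hK]; linarith
      have := mul_le_mul_of_nonneg_right this (Real.exp_pos (K * q n)).le
      linarith
    refine ⟨?_, ?_, ?_, ?_, ?_, ?_, ?_⟩
    · refine le_trans ?_ hES
      have h1 : (q n : ℝ) ≤ Real.exp (q n) := by linarith [Real.add_one_le_exp (q n : ℝ)]
      calc (q n : ℝ) ^ 4 ≤ (Real.exp (q n)) ^ 4 := pow_le_pow_left₀ (by positivity) h1 4
        _ = Real.exp (4 * q n) := by rw [← Real.exp_nat_mul]; norm_num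
        _ ≤ Real.exp (K * q n) := by
            apply Real.exp_le_exp.mpr
            apply mul_le_mul_of_nonneg_right _ (by positivity)
            rw [hK]; linarith
    · refine le_trans ?_ hKS; rw [hK]; linarith
    · refine le_trans ?_ hKS; rw [hK]; linarith
    · refine le_trans ?_ hKS; rw [hK]; linarith
    · refine le_trans ?_ hES
      apply Real.exp_le_exp.mpr
      have h1 : 2 * Real.log (1 / κ) * q n + 2 ≤ (2 * Real.log (1 / κ) + 2) * q n := by nlinarith
      refine h1.trans ?_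
      apply mul_le_mul_of_nonneg_right _ (by positivity)
      rw [hK]; linarith
    · refine le_trans ?_ hKS; rw [hK]; linarith
    · refine le_trans ?_ hKS; rw [hK]; linarith
  -- the almost everywhere statement
  have hsum : Summable (fun n => (4 * (((S n) ^ 136 : ℕ) : ℝ) / ((S n : ℝ) ^ 124) + 1) *
      (4 * ((4 * (S n) ^ 110 * q n : ℕ) : ℝ) / ((S n : ℝ) ^ 124))) := by
    apply Summable.of_norm_bounded_eventually_nat (g := fun n => 80 * (1 / 2 : ℝ) ^ n)
      (Summable.mul_left _ (summable_geometric_of_lt_one (by norm_num) (by norm_num)))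
    filter_upwards [big] with n hn
    obtain ⟨c1, -⟩ := cond n hn
    have hS0 : (0 : ℝ) < S n := by linarith [hS1 n]
    have hqn : (1 : ℝ) ≤ q n := by
      have := hq16 n
      exact_mod_cast (by omega : 1 ≤ q n)
    have hqS : (q n : ℝ) ≤ S n := by
      refine le_trans ?_ c1
      calc (q n : ℝ) = (q n : ℝ) ^ 1 := (pow_one _).symm
        _ ≤ (q n : ℝ) ^ 4 := pow_le_pow_right₀ hqn (by norm_num)
    obtain ⟨s, hsdef⟩ : ∃ s : ℝ, s = (S n : ℝ) := ⟨_, rfl⟩
    push_cast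
    rw [← hsdef] at hS0 hqS ⊢
    have hs1 : 1 ≤ s := by rw [hsdef]; exact hS1 n
    have e1 : 4 * s ^ 136 / s ^ 124 = 4 * s ^ 12 := by
      field_simp
    have e2 : 4 * (4 * s ^ 110 * (q n : ℝ)) / s ^ 124 = 16 * q n / s ^ 14 := by
      field_simp; ring
    rw [e1, e2, Real.norm_of_nonneg (by positivity)]
    have e3 : (4 * s ^ 12 + 1) * (16 * q n / s ^ 14) ≤ (5 * s ^ 12) * (16 * s / s ^ 14) := by
      have : (1 : ℝ) ≤ s ^ 12 := one_le_pow₀ hs1
      apply mul_le_mul _ _ (by positivity) (by positivity)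
      · linarith
      · apply div_le_div_of_nonneg_right _ (by positivity)
        linarith
    refine e3.trans ?_
    have e4 : (5 * s ^ 12) * (16 * s / s ^ 14) = 80 / s := by
      field_simp; ring
    rw [e4, one_div, inv_pow, ← div_eq_mul_inv]
    apply div_le_div_of_nonneg_left (by norm_num) (by positivity)
    rw [hsdef]; exact_mod_cast hSge n
  have ae := hAE π hπ.smooth.continuous (fun y => (hπ.pos y).le) (fun y => (hπ.lt_one y).le) hπ.per α
    (fun n => 4 * (S n) ^ 110 * q n) (fun n => (S n) ^ 136) (fun n => (S n : ℝ) ^ 124)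
    (fun n => by have := hS1 n; positivity) hsum
  filter_upwards [ae] with x hx
  -- combine
  obtain ⟨n1, hn1⟩ := eventually_atTop.mp (hx.and (big.and bigq))
  filter_upwards [eventually_ge_atTop ((q n1) ^ 3)] with T hT
  have hexists : ∃ m, T < (q m) ^ 3 := by
    obtain ⟨m, hm⟩ := ((q_tendsto h0 hs).eventually_gt_atTop T).exists
    refine ⟨m, lt_of_lt_of_le hm ?_⟩
    exact Nat.le_self_pow (by norm_num) _
  obtain ⟨V, hVst⟩ := exists_pot (fun k : ℤ => Real.log ((1 - π (x + k * α)) / π (x + k * α)))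
  have hmono : ∀ n, q n ≤ q (n + 1) := fun n => by
    have := q_double h0 hs n; omega
  have hmono' : Monotone q := monotone_nat_of_le_succ hmono
  classical
  set m := Nat.find hexists with hm
  have hm1 : T < (q m) ^ 3 := Nat.find_spec hexists
  have hmn : n1 < m := by
    by_contra hcon
    push Not at hcon
    have := Nat.pow_le_pow_left (hmono' hcon) 3
    omega
  obtain ⟨n, hn⟩ : ∃ n, m = n + 1 := ⟨m - 1, by omega⟩
  have hnm : n < m := by omega
  have hTn : (q n) ^ 3 ≤ T := by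
    have := Nat.find_min hexists hnm
    omega
  rw [hn] at hm1
  obtain ⟨gap, hbig, hbq⟩ := hn1 n (by omega)
  obtain ⟨c1, c2, c3, c4, c5, c6, c7⟩ := cond n hbig
  have hT1 : 1 ≤ T := by
    have := hq16 n
    have : 1 ≤ (q n) ^ 3 := Nat.one_le_pow _ _ (by omega)
    omega
  have hq1 : 1 ≤ q n := by have := hq16 n; omega
  have hQ1 : 1 ≤ q (n + 1) := by have := hq16 (n + 1); omega
  have henv : Env κ (env π α x) V := by
    refine ⟨hκ, hκ2, fun k => hlo _, fun k => hhi _, fun k => ?_⟩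
    exact hVst k
  by_cases hA : T * q n ≤ q (n + 1)
  · exact partA hGron hL (fun y => (hπ.pos y).le) (fun y => (hπ.lt_one y).le) hπ.per hlip hq1 hQ1 hT1
      (hα n) hA hTn hbq
  · push Not at hA
    have hS128R : (S n : ℝ) ^ 128 = (q (n + 1) : ℝ) := by exact_mod_cast hS128 n
    by_cases hB : T ≤ (S n) ^ 136
    · have hBR : (T : ℝ) ≤ (S n : ℝ) ^ 136 := by exact_mod_cast hB
      refine partB_exp (hS1 n) hT1 hBR ?_
      refine partB hKey hVar hGap henv hC (q n) ((S n) ^ 110) T (S n : ℝ) hq1 (by push_cast; ring) c1 c2 c3 c4 c5 c6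
        ?_ hBR ?_ (gap T hB)
      · rw [hS128R]; exact_mod_cast hA.le
      · intro k
        have hpow1 : 1 ≤ (S n) ^ 110 := Nat.one_le_pow _ _ (by exact_mod_cast hS1 n)
        refine (hC2 _ C hC hgper hg2 α x V hVst (q n) ((S n) ^ 110) (a n) hq1 hpow1 k).trans ?_
        have hq0 : (0 : ℝ) < q n := by exact_mod_cast hq1
        have hQ0 : (0 : ℝ) < q (n + 1) := by exact_mod_cast hQ1
        have hS0 : (0 : ℝ) < S n := by linarith [hS1 n]
        have g1 : |(q n : ℝ) * α - a n| ≤ q n * (2 / q (n + 1)) := by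
          have : (q n : ℝ) * α - a n = q n * (α - a n / q n) := by field_simp
          rw [this, abs_mul, abs_of_pos hq0]
          exact mul_le_mul_of_nonneg_left (hα n) hq0.le
        have g2 : ((q n : ℝ) * α - a n) ^ 2 ≤ (q n * (2 / q (n + 1))) ^ 2 := by
          rw [← sq_abs]
          exact pow_le_pow_left₀ (abs_nonneg _) g1 2
        push_cast
        rw [← hS128R] at g2
        calc (q n : ℝ) * C * ((q n : ℝ) * α - a n) ^ 2 * ((S n : ℝ) ^ 110) ^ 3
            ≤ (q n : ℝ) * C * (q n * (2 / (S n : ℝ) ^ 128)) ^ 2 * ((S n : ℝ) ^ 110) ^ 3 := by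
              apply mul_le_mul_of_nonneg_right _ (by positivity)
              exact mul_le_mul_of_nonneg_left g2 (by positivity)
          _ = 4 * C * (q n : ℝ) ^ 3 * (S n : ℝ) ^ 74 := by
              field_simp; ring
    · push Not at hB
      have hBR : (S n : ℝ) ^ 136 ≤ (T : ℝ) := by exact_mod_cast hB.le
      have hVQ : ∀ k : ℤ, |V (k + (q (n + 1) : ℕ)) - V k| ≤ 2 * L := by
        intro k
        rw [tele (g := fun y => Real.log ((1 - π y) / π y)) hVst k (q (n + 1))]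
        apply hDK _ L hL hgper hglip hgint (q (n + 1)) (a (n + 1)) α (x + k * α) hQ1 (hgcd _)
        refine (hα (n + 1)).trans ?_
        rw [hs (n + 1)]
        have hQ0 : (0 : ℝ) < q (n + 1) := by exact_mod_cast hQ1
        rw [div_le_div_iff₀ (by positivity) (by positivity)]
        have : 2 * (q (n + 1)) ^ 2 ≤ 2 ^ ((q (n + 1)) ^ 2) := by
          obtain ⟨w, hw⟩ : ∃ w : ℕ, w + 1 = (q (n + 1)) ^ 2 := ⟨(q (n + 1)) ^ 2 - 1, by
            have : 1 ≤ (q (n + 1)) ^ 2 := Nat.one_le_pow _ _ hQ1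
            omega⟩
          rw [← hw, pow_succ]
          have : w < 2 ^ w := Nat.lt_two_pow_self
          omega
        have h2 : ((2 * (q (n + 1)) ^ 2 : ℕ) : ℝ) ≤ ((2 ^ ((q (n + 1)) ^ 2) : ℕ) : ℝ) := by exact_mod_cast this
        push_cast at h2 ⊢
        linarith
      have hv := hK1 (env π α x) V (q (n + 1)) T henv hQ1 hT1 hm1.le hVQ
      have hva : va (env π α x) T 0 ≤ K1 * (q (n + 1)) * T := by
        unfold va
        nlinarith [sq_nonneg (Ex (env π α x) T idf 0)]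
      exact partC_exp (hS1 n) hT1 c7 hS128R.symm hBR hva

end Pool.Agent.R953.LV
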