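import Pool.Agent.R953.LV.Defs

set_option autoImplicit false
open Filter Topology MeasureTheory

/-!
Project LV (MP_545af4_pr), piece LV-GAP: transfer of the tails.
-/
namespace Pool.Agent.R953.LV

namespace Gap

theorem Ex_add (p : ℤ → ℝ) (t : ℕ) (f g : ℤ → ℝ) (k : ℤ) :
    Ex p t (fun k => f k + g k) k = Ex p t f k + Ex p t g k := by
  unfold Ex
  induction t generalizing k with
  | zero => rfl
  | succ t ih =>
    rw [Function.iterate_succ_apply', Function.iterate_succ_apply', Function.iterate_succ_apply']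
    simp only [P]
    rw [ih, ih]; ring

theorem Ex_mul (p : ℤ → ℝ) (t : ℕ) (c : ℝ) (f : ℤ → ℝ) (k : ℤ) :
    Ex p t (fun k => c * f k) k = c * Ex p t f k := by
  unfold Ex
  induction t generalizing k with
  | zero => rfl
  | succ t ih =>
    rw [Function.iterate_succ_apply', Function.iterate_succ_apply']
    simp only [P]
    rw [ih, ih]; ring

theorem Ex_mono (p : ℤ → ℝ) (h0 : ∀ k, 0 ≤ p k) (h1 : ∀ k, p k ≤ 1) (t : ℕ) (f g : ℤ → ℝ)
    (h : ∀ k, f k ≤ g k) (k : ℤ) : Ex p t f k ≤ Ex p t g k := by
  unfold Ex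
  induction t generalizing k with
  | zero => exact h k
  | succ t ih =>
    rw [Function.iterate_succ_apply', Function.iterate_succ_apply']
    simp only [P]
    have h2 : 0 ≤ 1 - p k := by linarith [h1 k]
    exact add_le_add (mul_le_mul_of_nonneg_left (ih _) (h0 k)) (mul_le_mul_of_nonneg_left (ih _) h2)

theorem Ex_mono2 (p : ℤ → ℝ) (h0 : ∀ k, 0 ≤ p k) (h1 : ∀ k, p k ≤ 1) (t : ℕ) (f : ℤ → ℝ)
    (h : ∀ k, f k ≤ f (k + 2)) (k : ℤ) : Ex p t f k ≤ Ex p t f (k + 2) := by
  unfold Ex
  induction t generalizing k with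
  | zero => exact h k
  | succ t ih =>
    rw [Function.iterate_succ_apply']
    simp only [P]
    have a1 := ih (k + 1)
    have a2 := ih (k - 1)
    have e1 : k + 2 + 1 = k + 1 + 2 := by ring
    have e2 : k + 2 - 1 = k + 1 := by ring
    have e3 : k - 1 + 2 = k + 1 := by ring
    rw [e1, e2]
    rw [e3] at a2
    have b1 := h0 k
    have b2 := h1 k
    have c1 := h0 (k + 2)
    have c2 := h1 (k + 2)
    nlinarith [mul_nonneg (sub_nonneg.2 a2) (sub_nonneg.2 b2),
      mul_nonneg (sub_nonneg.2 a1) c1]

theorem Ex_mono2n (p : ℤ → ℝ) (h0 : ∀ k, 0 ≤ p k) (h1 : ∀ k, p k ≤ 1) (t : ℕ) (f : ℤ → ℝ)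
    (h : ∀ k, f k ≤ f (k + 2)) (k : ℤ) (n : ℕ) : Ex p t f k ≤ Ex p t f (k + 2 * n) := by
  induction n with
  | zero => simp
  | succ n ih =>
    refine ih.trans ?_
    have e : k + 2 * ((n + 1 : ℕ) : ℤ) = k + 2 * n + 2 := by push_cast; ring
    rw [e]
    exact Ex_mono2 p h0 h1 t f h _

end Gap

open Gap in
theorem s_Gap : S_Gap := by
  intro p h0 h1 T J D ε a b hD hJ hgap ha hb
  obtain ⟨j, hj⟩ := hJ
  have hDR : (1 : ℝ) ≤ D := by exact_mod_cast hD
  have hD0 : (0 : ℝ) < D := by linarith
  have eJ : (J : ℤ) = 0 + 2 * j := by rw [hj]; push_cast; ring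
  have eJ2 : (0 : ℤ) = -J + 2 * j := by rw [hj]; push_cast; ring
  have hid : ∀ k, idf k ≤ idf (k + 2) := by
    intro k; unfold idf; push_cast; linarith
  have i1 : Ex p T idf (-J) ≤ Ex p T idf 0 := by
    have := Ex_mono2n p h0 h1 T idf hid (-J) j
    rwa [← eJ2] at this
  have i2 : Ex p T idf 0 ≤ Ex p T idf J := by
    have := Ex_mono2n p h0 h1 T idf hid 0 j
    rwa [← eJ] at this
  constructor
  · set φ : ℤ → ℝ := fun k => max 0 (min (D : ℝ) (a + D - k)) with hφ
    have m1 : ∀ k, D * leI a k ≤ φ k := by
      intro k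
      simp only [hφ, leI]
      split_ifs with hk
      · have : (k : ℝ) ≤ a := by exact_mod_cast hk
        rw [mul_one, min_eq_left (by linarith)]
        exact le_max_right _ _
      · simp
    have m2 : ∀ k, φ k ≤ D * leI (a + D) k := by
      intro k
      simp only [hφ, leI]
      split_ifs with hk
      · rw [mul_one]
        exact max_le hD0.le (min_le_left _ _)
      · have : (a : ℝ) + D < k := by
          have : a + D < k := by omega
          exact_mod_cast this
        rw [mul_zero]
        exact max_le le_rfl ((min_le_right _ _).trans (by linarith))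
    have m3 : ∀ k, (fun k => idf k + φ k) k ≤ (fun k => idf k + φ k) (k + 2) := by
      intro k
      simp only [hφ, idf]
      push_cast
      rcases le_total 0 (min (D : ℝ) (a + D - k)) with h | h
      · rw [max_eq_right h]
        have h5 : min (D : ℝ) (a + D - k) - 2 ≤ min (D : ℝ) (a + D - (k + 2)) := by
          rw [sub_le_iff_le_add, ← min_add_add_right]
          apply le_min
          · exact (min_le_left _ _).trans (by linarith)
          · exact (min_le_right _ _).trans (by linarith)
        have h6 := le_max_right (0 : ℝ) (min (D : ℝ) (a + D - (k + 2)))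
        linarith
      · rw [max_eq_left h]
        have h6 := le_max_left (0 : ℝ) (min (D : ℝ) (a + D - (k + 2)))
        linarith
    have n1 : D * ε ≤ Ex p T φ 0 := by
      have h5 := Ex_mono p h0 h1 T _ _ m1 0
      rw [Ex_mul] at h5
      have h6 := mul_le_mul_of_nonneg_left ha hD0.le
      linarith
    have n2 : Ex p T φ J ≤ D * Ex p T (leI (a + D)) J := by
      have h5 := Ex_mono p h0 h1 T _ _ m2 J
      rwa [Ex_mul] at h5
    have n3 := Ex_mono2n p h0 h1 T _ m3 0 j
    rw [← eJ, Ex_add, Ex_add] at n3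
    have n4 : D * (ε / 2) ≤ D * Ex p T (leI (a + D)) J := by linarith
    exact le_of_mul_le_mul_left n4 hD0
  · set ψ : ℤ → ℝ := fun k => max 0 (min (D : ℝ) (k - b + D)) with hψ
    have m1 : ∀ k, D * geI b k ≤ ψ k := by
      intro k
      simp only [hψ, geI]
      split_ifs with hk
      · have : (b : ℝ) ≤ k := by exact_mod_cast hk
        rw [mul_one, min_eq_left (by linarith)]
        exact le_max_right _ _
      · simp
    have m2 : ∀ k, ψ k ≤ D * geI (b - D) k := by
      intro k
      simp only [hψ, geI]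
      split_ifs with hk
      · rw [mul_one]
        exact max_le hD0.le (min_le_left _ _)
      · have : (k : ℝ) < b - D := by
          have : k < b - D := by omega
          exact_mod_cast this
        rw [mul_zero]
        exact max_le le_rfl ((min_le_right _ _).trans (by linarith))
    have m3 : ∀ k, (fun k => idf k + (-1) * ψ k) k ≤ (fun k => idf k + (-1) * ψ k) (k + 2) := by
      intro k
      simp only [hψ, idf]
      push_cast
      have h7 : max 0 (min (D : ℝ) (k + 2 - b + D)) ≤ max 0 (min (D : ℝ) (k - b + D)) + 2 := by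
        apply max_le
        · have := le_max_left (0 : ℝ) (min (D : ℝ) (k - b + D))
          linarith
        · have h8 := le_max_right (0 : ℝ) (min (D : ℝ) (k - b + D))
          have h9 : min (D : ℝ) (k + 2 - b + D) ≤ min (D : ℝ) (k - b + D) + 2 := by
            rw [← min_add_add_right]
            apply le_min
            · exact (min_le_left _ _).trans (by linarith)
            · exact (min_le_right _ _).trans (by linarith)
          linarith
      linarith
    have n1 : D * ε ≤ Ex p T ψ 0 := by
      have h5 := Ex_mono p h0 h1 T _ _ m1 0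
      rw [Ex_mul] at h5
      have h6 := mul_le_mul_of_nonneg_left hb hD0.le
      linarith
    have n2 : Ex p T ψ (-J) ≤ D * Ex p T (geI (b - D)) (-J) := by
      have h5 := Ex_mono p h0 h1 T _ _ m2 (-J)
      rwa [Ex_mul] at h5
    have n3 := Ex_mono2n p h0 h1 T _ m3 (-J) j
    rw [← eJ2, Ex_add, Ex_add, Ex_mul, Ex_mul] at n3
    have n4 : D * (ε / 2) ≤ D * Ex p T (geI (b - D)) (-J) := by linarith
    exact le_of_mul_le_mul_left n4 hD0

end Pool.Agent.R953.LV
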