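import Pool.Agent.R953.LV.Defs

set_option autoImplicit false
open Filter Topology MeasureTheory

/-!
# Project LV, piece GRON: near periodicity bounds the variance
-/

namespace Pool.Agent.R953.LV

namespace Gron

theorem Ex_succ (p : ℤ → ℝ) (s : ℕ) (f : ℤ → ℝ) (k : ℤ) :
    Ex p (s + 1) f k = p k * Ex p s f (k + 1) + (1 - p k) * Ex p s f (k - 1) := by
  unfold Ex
  rw [Function.iterate_succ_apply']
  rfl

theorem mono2 (p : ℤ → ℝ) (h0 : ∀ k, 0 ≤ p k) (h1 : ∀ k, p k ≤ 1) : ∀ (s : ℕ) (k : ℤ),
    Ex p s idf (k - 1) ≤ Ex p s idf (k + 1)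
  | 0, k => by
      change ((k - 1 : ℤ) : ℝ) ≤ ((k + 1 : ℤ) : ℝ)
      exact_mod_cast (by omega : k - 1 ≤ k + 1)
  | s + 1, k => by
      rw [Ex_succ, Ex_succ]
      have a := mono2 p h0 h1 s (k + 1)
      have b := mono2 p h0 h1 s k
      have c := mono2 p h0 h1 s (k - 1)
      rw [show k + 1 - 1 = k by ring] at a ⊢
      rw [show k - 1 + 1 = k by ring] at c ⊢
      have h2 := h0 (k + 1)
      have h3 := h1 (k + 1)
      have h4 := h0 (k - 1)
      have h5 := h1 (k - 1)
      nlinarith [mul_nonneg h2 (sub_nonneg.2 a), mul_nonneg (sub_nonneg.2 h5) (sub_nonneg.2 c)]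

theorem mono2n (p : ℤ → ℝ) (h0 : ∀ k, 0 ≤ p k) (h1 : ∀ k, p k ≤ 1) (s : ℕ) (k : ℤ) (n : ℕ) :
    Ex p s idf k ≤ Ex p s idf (k + 2 * n) := by
  induction n with
  | zero => simp
  | succ n ih =>
    refine ih.trans ?_
    have := mono2 p h0 h1 s (k + 2 * n + 1)
    rw [show k + 2 * (n : ℤ) + 1 - 1 = k + 2 * n by ring] at this
    refine this.trans (le_of_eq ?_)
    congr 1
    push_cast
    ring

theorem trans_idf (π : ℝ → ℝ) (α : ℝ) (m : ℤ) : ∀ (s : ℕ) (x : ℝ) (k : ℤ),
    Ex (env π α x) s idf (k + m) = m + Ex (env π α (x + m * α)) s idf k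
  | 0, x, k => by
      change ((k + m : ℤ) : ℝ) = m + (k : ℝ)
      push_cast
      ring
  | s + 1, x, k => by
      rw [Ex_succ, Ex_succ, show k + m + 1 = (k + 1) + m by ring,
        show k + m - 1 = (k - 1) + m by ring, trans_idf π α m s x (k + 1),
        trans_idf π α m s x (k - 1)]
      have e : env π α x (k + m) = env π α (x + m * α) k := by
        unfold env
        congr 1
        push_cast
        ring
      rw [e]
      ring

theorem env_add_int (π : ℝ → ℝ) (hper : Function.Periodic π 1) (α x : ℝ) (n : ℤ) :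
    env π α (x + n) = env π α x := by
  funext k
  unfold env
  have h := hper.int_mul n (x + k * α)
  rw [mul_one] at h
  rw [← h]
  congr 1
  ring

theorem lip (π : ℝ → ℝ) (L : ℝ) (h0 : ∀ y, 0 ≤ π y) (h1 : ∀ y, π y ≤ 1)
    (hL : ∀ y z, |π y - π z| ≤ L * |y - z|) (α : ℝ) (M : ℕ → ℝ) (n : ℕ)
    (hM : ∀ t < n, ∀ (k : ℤ) (y : ℝ), Ex (env π α y) t idf (k + 1) - Ex (env π α y) t idf (k - 1) ≤ M t) :
    ∀ s ≤ n, ∀ (k : ℤ) (y z : ℝ), |Ex (env π α y) s idf k - Ex (env π α z) s idf k| ≤
      L * |y - z| * ∑ t ∈ Finset.range s, M t := by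
  intro s
  induction s with
  | zero =>
    intro _ k y z
    simp [Ex]
  | succ s ih =>
    intro hs k y z
    have ih' := ih (by omega)
    rw [Ex_succ, Ex_succ, Finset.sum_range_succ]
    have hD := hM s (by omega) k y
    have hD0 := mono2 (env π α y) (fun _ => h0 _) (fun _ => h1 _) s k
    have e : env π α y k * Ex (env π α y) s idf (k + 1) +
        (1 - env π α y k) * Ex (env π α y) s idf (k - 1) -
        (env π α z k * Ex (env π α z) s idf (k + 1) +
          (1 - env π α z k) * Ex (env π α z) s idf (k - 1)) =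
        (env π α y k - env π α z k) *
            (Ex (env π α y) s idf (k + 1) - Ex (env π α y) s idf (k - 1)) +
          (env π α z k * (Ex (env π α y) s idf (k + 1) - Ex (env π α z) s idf (k + 1)) +
          (1 - env π α z k) * (Ex (env π α y) s idf (k - 1) - Ex (env π α z) s idf (k - 1))) := by
      ring
    rw [e]
    have hz0 : 0 ≤ env π α z k := h0 _
    have hz1 : env π α z k ≤ 1 := h1 _
    have hp : |env π α y k - env π α z k| ≤ L * |y - z| := by
      have := hL (y + k * α) (z + k * α)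
      rwa [show y + (k : ℝ) * α - (z + k * α) = y - z by ring] at this
    have hyz : 0 ≤ L * |y - z| := (abs_nonneg _).trans hp
    have a1 : |(env π α y k - env π α z k) *
        (Ex (env π α y) s idf (k + 1) - Ex (env π α y) s idf (k - 1))| ≤ L * |y - z| * M s := by
      rw [abs_mul, abs_of_nonneg (sub_nonneg.2 hD0)]
      exact mul_le_mul hp hD (sub_nonneg.2 hD0) hyz
    have a2 : |env π α z k * (Ex (env π α y) s idf (k + 1) - Ex (env π α z) s idf (k + 1))| ≤
        env π α z k * (L * |y - z| * ∑ t ∈ Finset.range s, M t) := by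
      rw [abs_mul, abs_of_nonneg hz0]
      exact mul_le_mul_of_nonneg_left (ih' _ _ _) hz0
    have a3 : |(1 - env π α z k) * (Ex (env π α y) s idf (k - 1) - Ex (env π α z) s idf (k - 1))| ≤
        (1 - env π α z k) * (L * |y - z| * ∑ t ∈ Finset.range s, M t) := by
      rw [abs_mul, abs_of_nonneg (sub_nonneg.2 hz1)]
      exact mul_le_mul_of_nonneg_left (ih' _ _ _) (sub_nonneg.2 hz1)
    refine (abs_add_le _ _).trans ?_
    refine (add_le_add a1 ((abs_add_le _ _).trans (add_le_add a2 a3))).trans (le_of_eq ?_)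
    ring

/-- the bound for the increments -/
theorem incr (π : ℝ → ℝ) (L : ℝ) (hL0 : 0 ≤ L) (h0 : ∀ y, 0 ≤ π y) (h1 : ∀ y, π y ≤ 1)
    (hper : Function.Periodic π 1) (hL : ∀ y z, |π y - π z| ≤ L * |y - z|) (α : ℝ)
    (q : ℕ) (a : ℤ) (hq : 1 ≤ q) : ∀ (s : ℕ) (k : ℤ) (y : ℝ),
    Ex (env π α y) s idf (k + 1) - Ex (env π α y) s idf (k - 1) ≤
      2 * q * (1 + 2 * |q * α - a| * L) ^ s := by
  intro s
  induction s using Nat.strong_induction_on with
  | _ s ih =>
  intro k y
  set g := |q * α - a| with hg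
  have hg0 : 0 ≤ g := abs_nonneg _
  have hl := lip π L h0 h1 hL α (fun t => 2 * q * (1 + 2 * g * L) ^ t) s
    (fun t ht k y => ih t ht k y) s le_rfl
  have m1 : Ex (env π α y) s idf (k + 1) ≤ Ex (env π α y) s idf ((k - 1) + ((2 * q : ℕ) : ℤ)) := by
    have := mono2n (env π α y) (fun _ => h0 _) (fun _ => h1 _) s (k + 1) (q - 1)
    refine this.trans (le_of_eq ?_)
    congr 1
    push_cast [Nat.cast_sub hq]
    ring
  rw [trans_idf π α ((2 * q : ℕ) : ℤ) s y (k - 1)] at m1
  have e1 : env π α (y + (((2 * q : ℕ) : ℤ) : ℝ) * α) = env π α (y + 2 * (q * α - a)) := by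
    rw [← env_add_int π hper α (y + 2 * (q * α - a)) (2 * a)]
    congr 1
    push_cast
    ring
  rw [e1] at m1
  have l1 := hl (k - 1) (y + 2 * (q * α - a)) y
  have l2 := (le_abs_self _).trans l1
  have e2 : |y + 2 * (q * α - a) - y| = 2 * g := by
    rw [show y + 2 * (q * α - a) - y = 2 * (q * α - a) by ring, abs_mul, ← hg]
    norm_num
  rw [e2, ← Finset.mul_sum] at l2
  have geo : (∑ t ∈ Finset.range s, (1 + 2 * g * L) ^ t) * (2 * g * L) =
      (1 + 2 * g * L) ^ s - 1 := by
    have := geom_sum_mul (1 + 2 * g * L) s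
    rw [show 1 + 2 * g * L - 1 = 2 * g * L by ring] at this
    exact this
  have e3 : L * (2 * g) * (2 * q * ∑ t ∈ Finset.range s, (1 + 2 * g * L) ^ t) =
      2 * q * ((1 + 2 * g * L) ^ s - 1) := by
    rw [← geo]
    ring
  rw [e3] at l2
  push_cast at m1
  linarith

theorem va_succ (p : ℤ → ℝ) (s : ℕ) (k : ℤ) :
    va p (s + 1) k = p k * va p s (k + 1) + (1 - p k) * va p s (k - 1) +
      p k * (1 - p k) * (Ex p s idf (k + 1) - Ex p s idf (k - 1)) ^ 2 := by
  unfold va
  rw [Ex_succ, Ex_succ]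
  ring

end Gron

open Gron in
theorem s_Gron : S_Gron := by
  intro π L hL0 h0 h1 hper hL α x q a T hq
  set g := |q * α - a| with hg
  have hg0 : 0 ≤ g := abs_nonneg _
  set B := (q : ℝ) ^ 2 * Real.exp (4 * g * L * T) with hB
  have hB0 : 0 ≤ B := by positivity
  have key : ∀ s ≤ T, ∀ k : ℤ, va (env π α x) s k ≤ s * B := by
    intro s
    induction s with
    | zero =>
      intro _ k
      simp [va, Ex, sqf, idf]
    | succ s ih =>
      intro hs k
      have ih' := ih (by omega)
      rw [va_succ]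
      have p0 : 0 ≤ env π α x k := h0 _
      have p1 : env π α x k ≤ 1 := h1 _
      have hi := incr π L hL0 h0 h1 hper hL α q a hq s k x
      have hi0 := sub_nonneg.2 (mono2 (env π α x) (fun _ => h0 _) (fun _ => h1 _) s k)
      rw [← hg] at hi
      set D := Ex (env π α x) s idf (k + 1) - Ex (env π α x) s idf (k - 1) with hD
      have hexp : (1 + 2 * g * L) ^ s ≤ Real.exp (2 * g * L * T) := by
        have hnn : 0 ≤ 2 * g * L := by positivity
        have e1 : 1 + 2 * g * L ≤ Real.exp (2 * g * L) := by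
          have := Real.add_one_le_exp (2 * g * L)
          linarith
        calc (1 + 2 * g * L) ^ s ≤ Real.exp (2 * g * L) ^ s :=
              pow_le_pow_left₀ (by positivity) e1 s
          _ = Real.exp (s * (2 * g * L)) := (Real.exp_nat_mul _ _).symm
          _ ≤ Real.exp (2 * g * L * T) := by
              apply Real.exp_le_exp.2
              have : (s : ℝ) ≤ T := by exact_mod_cast (by omega : s ≤ T)
              nlinarith
      have hq0 : (0 : ℝ) ≤ q := Nat.cast_nonneg q
      have hD2 : D ≤ 2 * q * Real.exp (2 * g * L * T) :=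
        hi.trans (mul_le_mul_of_nonneg_left hexp (by positivity))
      have hDsq : D ^ 2 ≤ 4 * B := by
        calc D ^ 2 ≤ (2 * q * Real.exp (2 * g * L * T)) ^ 2 := pow_le_pow_left₀ hi0 hD2 2
          _ = 4 * B := by
              rw [hB, mul_pow, mul_pow, ← Real.exp_nat_mul]
              rw [show ((2 : ℕ) : ℝ) * (2 * g * L * T) = 4 * g * L * T by push_cast; ring]
              ring
      have hpq : env π α x k * (1 - env π α x k) ≤ 1 / 4 := by
        nlinarith [sq_nonneg (env π α x k - 1 / 2)]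
      have hpq0 : 0 ≤ env π α x k * (1 - env π α x k) := mul_nonneg p0 (sub_nonneg.2 p1)
      have t1 : env π α x k * va (env π α x) s (k + 1) ≤ env π α x k * (s * B) :=
        mul_le_mul_of_nonneg_left (ih' _) p0
      have t2 : (1 - env π α x k) * va (env π α x) s (k - 1) ≤ (1 - env π α x k) * (s * B) :=
        mul_le_mul_of_nonneg_left (ih' _) (sub_nonneg.2 p1)
      have t3 : env π α x k * (1 - env π α x k) * D ^ 2 ≤ B := by
        calc env π α x k * (1 - env π α x k) * D ^ 2
            ≤ env π α x k * (1 - env π α x k) * (4 * B) := mul_le_mul_of_nonneg_left hDsq hpq0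
          _ ≤ 1 / 4 * (4 * B) := mul_le_mul_of_nonneg_right hpq (by positivity)
          _ = B := by ring
      push_cast
      nlinarith
  have h := key T le_rfl 0
  rw [hB, ← mul_assoc] at h
  exact h

end Pool.Agent.R953.LV
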