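import Pool.Agent.R953.LV.Defs

set_option autoImplicit false

/-! # LV-KEY: reflection -/
namespace Pool.Agent.R953.LV

theorem Ex_succ_key (p : ℤ → ℝ) (t : ℕ) (f : ℤ → ℝ) : Ex p (t + 1) f = Ex p t (P p f) := by
  simp only [Ex, Function.iterate_succ, Function.comp]

theorem Ex_refl_key (p : ℤ → ℝ) (t : ℕ) : ∀ (f : ℤ → ℝ) (k : ℤ),
    Ex (fun j => 1 - p (-j)) t (fun j => f (-j)) k = Ex p t f (-k) := by
  induction t with
  | zero => intro f k; rfl
  | succ t ih =>
    intro f k
    rw [Ex_succ_key, Ex_succ_key, ← ih (P p f) k]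
    congr 1
    funext j
    simp only [P]
    have e1 : -(j + 1) = -j - 1 := by ring
    have e2 : -(j - 1) = -j + 1 := by ring
    rw [e1, e2]; ring

theorem env_refl_key {κ : ℝ} {p V : ℤ → ℝ} (h : Env κ p V) :
    Env κ (fun j => 1 - p (-j)) (fun j => V (1 - j)) where
  pos := h.pos
  half := h.half
  lo := fun k => by have := h.hi (-k); linarith
  hi := fun k => by have := h.lo (-k); linarith
  pot := fun k => by
    have h1 := h.pot (-k)
    have e1 : (1 : ℤ) - (k + 1) = -k := by ring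
    have e2 : (1 : ℤ) - k = -k + 1 := by ring
    have e3 : (1 - (1 - p (-k))) / (1 - p (-k)) = ((1 - p (-k)) / p (-k))⁻¹ := by
      rw [inv_div]; congr 1; ring
    simp only [e1, e2]
    rw [e3, Real.log_inv, ← h1]; ring

theorem s_Key (h1 : S_KeyR) (h2 : S_CrossR) (h3 : S_CrossL) : S_Key := by
  intro κ p V hE q M T E ε a b hq hM hT hE0 hV hε hε1 hTL h4 hMq hlog hab hR hL
  have hN : (1 : ℤ) ≤ (M : ℤ) * q := by
    have : (1 : ℕ) ≤ M * q := Nat.one_le_iff_ne_zero.mpr (by positivity)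
    exact_mod_cast this
  by_cases hc1 : 3 * (M : ℤ) * q ≤ a
  · exact h1 κ p V hE q M T E ε a b hq hM hT hE0 hV hε hε1 hTL h4 hMq hlog hab hc1 hR hL
  by_cases hc2 : b ≤ -(3 * (M : ℤ) * q)
  · refine h1 κ (fun j => 1 - p (-j)) (fun j => V (1 - j)) (env_refl_key hE) q M T E ε (-b) (-a)
      hq hM hT hE0 ?_ hε hε1 hTL h4 hMq hlog (by linarith) (by linarith) ?_ ?_
    · intro k
      have := hV (1 - k - q)
      have e1 : (1 : ℤ) - k - q + (M + 1) * q = 1 - (k - M * q) := by ring
      have e2 : (1 : ℤ) - k - q - M * q = 1 - (k + (M + 1) * q) := by ring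
      have e3 : (1 : ℤ) - k - q + q = 1 - k := by ring
      have e4 : (1 : ℤ) - k - q = 1 - (k + q) := by ring
      rw [e1, e2, e3, e4, ← abs_neg] at this
      refine le_trans (le_of_eq ?_) this
      congr 1; ring
    · have e : (geI (-a) : ℤ → ℝ) = fun j => leI a (-j) := by
        funext j; simp only [geI, leI]
        by_cases h : -j ≤ a
        · rw [if_pos h, if_pos (by linarith)]
        · rw [if_neg h, if_neg (by intro h'; exact h (by linarith))]
      rw [e, Ex_refl_key, neg_neg]; exact hL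
    · have e : (leI (-b) : ℤ → ℝ) = fun j => geI b (-j) := by
        funext j; simp only [geI, leI]
        by_cases h : b ≤ -j
        · rw [if_pos h, if_pos (by linarith)]
        · rw [if_neg h, if_neg (by intro h'; exact h (by linarith))]
      rw [e, Ex_refl_key]; exact hR
  push Not at hc1 hc2
  have hN' : (M : ℤ) * q + 1 ≤ min (4 * (M : ℤ) * q) b - max (-(4 * (M : ℤ) * q)) a := by
    rcases min_choice (4 * (M : ℤ) * q) b with h | h <;>
    rcases max_choice (-(4 * (M : ℤ) * q)) a with h' | h' <;> rw [h, h'] <;> linarith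
  set l := max (-(4 * (M : ℤ) * q)) a with hl
  set m := min (4 * (M : ℤ) * q) b with hm
  have hlm : l ≤ m := by linarith
  have r1 := h2 κ p V hE T ε (-(4 * M * q)) b hT hε hR l m (le_max_left _ _) hlm (min_le_right _ _)
  have r2 := h3 κ p V hE T ε (4 * M * q) a hT hε hL m l (le_max_right _ _) hlm (min_le_left _ _)
  have hTpos : (0 : ℝ) < T := by exact_mod_cast hT
  have hd : (M : ℝ) * q + 1 ≤ (m : ℝ) - l := by exact_mod_cast hN'
  have hMq0 : (0 : ℝ) ≤ (M : ℝ) * q := by positivity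
  have h5 : ((M : ℝ) * q) ^ 2 < ((m : ℝ) - l) ^ 2 := by
    apply pow_lt_pow_left₀ _ hMq0 two_ne_zero
    linarith
  have h6 : Lg κ T ε + E ≤ ((M : ℝ) * q) ^ 2 / T := by
    rw [le_div_iff₀ hTpos]; linarith
  have h7 : ((M : ℝ) * q) ^ 2 / T < ((m : ℝ) - l) ^ 2 / T := by
    gcongr
  linarith

end Pool.Agent.R953.LV
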