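import Pool.Agent.R953.LV.Defs

set_option autoImplicit false
open Filter Topology MeasureTheory

namespace Pool.Agent.R953.LV

lemma Ex_succ (p : ℤ → ℝ) (t : ℕ) (f : ℤ → ℝ) : Ex p (t + 1) f = P p (Ex p t f) := by
  unfold Ex; rw [Function.iterate_succ_apply']

lemma Ex_zero (p : ℤ → ℝ) (f : ℤ → ℝ) : Ex p 0 f = f := rfl

lemma Ex_mono {p : ℤ → ℝ} (h0 : ∀ k, 0 ≤ p k) (h1 : ∀ k, p k ≤ 1) {f g : ℤ → ℝ}
    (hfg : ∀ k, f k ≤ g k) : ∀ (t : ℕ) (k : ℤ), Ex p t f k ≤ Ex p t g k := by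
  intro t
  induction t with
  | zero => intro k; exact hfg k
  | succ t ih =>
    intro k
    rw [Ex_succ, Ex_succ]
    unfold P
    have := mul_le_mul_of_nonneg_left (ih (k+1)) (h0 k)
    have := mul_le_mul_of_nonneg_left (ih (k-1)) (by linarith [h1 k] : 0 ≤ 1 - p k)
    linarith

lemma Ex_const {p : ℤ → ℝ} (c : ℝ) : ∀ (t : ℕ) (k : ℤ), Ex p t (fun _ => c) k = c := by
  intro t
  induction t with
  | zero => intro k; rfl
  | succ t ih =>
    intro k
    rw [Ex_succ]
    unfold P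
    rw [ih, ih]; ring

lemma Ex_nonneg {p : ℤ → ℝ} (h0 : ∀ k, 0 ≤ p k) (h1 : ∀ k, p k ≤ 1) {f : ℤ → ℝ}
    (hf : ∀ k, 0 ≤ f k) (t : ℕ) (k : ℤ) : 0 ≤ Ex p t f k := by
  have := Ex_mono h0 h1 hf t k
  rwa [Ex_const] at this

lemma Ex_le_one {p : ℤ → ℝ} (h0 : ∀ k, 0 ≤ p k) (h1 : ∀ k, p k ≤ 1) {f : ℤ → ℝ}
    (hf : ∀ k, f k ≤ 1) (t : ℕ) (k : ℤ) : Ex p t f k ≤ 1 := by
  have := Ex_mono h0 h1 hf t k
  rwa [Ex_const] at this

lemma geI_le_one (b k : ℤ) : geI b k ≤ 1 := by unfold geI; split_ifs <;> norm_num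
lemma leI_le_one (b k : ℤ) : leI b k ≤ 1 := by unfold leI; split_ifs <;> norm_num
lemma geI_nonneg (b k : ℤ) : 0 ≤ geI b k := by unfold geI; split_ifs <;> norm_num
lemma leI_nonneg (b k : ℤ) : 0 ≤ leI b k := by unfold leI; split_ifs <;> norm_num
lemma pt_nonneg (b k : ℤ) : 0 ≤ pt b k := by unfold pt; split_ifs <;> norm_num

section env
variable {κ : ℝ} {p V : ℤ → ℝ}

lemma Env.nn (h : Env κ p V) (k : ℤ) : 0 ≤ p k := h.pos.le.trans (h.lo k)
lemma Env.le1 (h : Env κ p V) (k : ℤ) : p k ≤ 1 := by linarith [h.hi k, h.pos]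
lemma Env.pp (h : Env κ p V) (k : ℤ) : 0 < p k := h.pos.trans_le (h.lo k)

lemma Env.step_le (h : Env κ p V) (k : ℤ) : V (k + 1) - V k ≤ Real.log (1 / κ) := by
  rw [h.pot]
  have hp := h.pp k
  have h1 : 0 < 1 - p k := by linarith [h.hi k, h.pos]
  apply Real.log_le_log (by positivity)
  rw [div_le_div_iff₀ hp h.pos]
  nlinarith [h.lo k, h.pos, h.nn k]

lemma Env.step_n (h : Env κ p V) (k : ℤ) : ∀ n : ℕ, V (k + n) - V k ≤ n * Real.log (1 / κ) := by
  intro n
  induction n with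
  | zero => simp
  | succ n ih =>
    have := h.step_le (k + n)
    push_cast
    rw [show k + ((n : ℤ) + 1) = k + n + 1 by ring]
    linarith

lemma Env.logk (h : Env κ p V) : 0 ≤ Real.log (1 / κ) := by
  apply Real.log_nonneg
  rw [le_div_iff₀ h.pos]; linarith [h.half]

/-- steepness on blocks gives steepness -/
lemma steep (h : Env κ p V) {q : ℕ} (hq : 1 ≤ q) {d : ℝ} (hd0 : 0 ≤ d) (hd : d ≤ 1) {k0 k1 : ℤ}
    (hG : ∀ k : ℤ, k0 ≤ k → k ≤ k1 → V (k + q) - V k ≤ -d) :
    ∀ l m : ℤ, k0 ≤ l → l ≤ m → m ≤ k1 →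
      V m - V l ≤ Real.log (1 / κ) * q + 1 - d / q * ((m : ℝ) - l) := by
  intro l m hl hlm hm
  obtain ⟨n, hn⟩ : ∃ n : ℕ, m = l + n := ⟨(m - l).toNat, by omega⟩
  subst hn
  have key : ∀ r : ℕ, l + (r : ℤ) * q ≤ k1 + q → V (l + (r : ℤ) * q) - V l ≤ -d * r := by
    intro r
    induction r with
    | zero => intro _; simp
    | succ r ih =>
      intro hr
      push_cast at hr
      have hq' : (0 : ℤ) ≤ q := by positivity
      have h1 : l + (r : ℤ) * q ≤ k1 := by nlinarith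
      have h2 := ih (by linarith)
      have hr0 : (0 : ℤ) ≤ (r : ℤ) * q := by positivity
      have h3 := hG (l + (r : ℤ) * q) (by linarith) h1
      push_cast
      rw [show l + ((r : ℤ) + 1) * q = l + (r : ℤ) * q + q by ring]
      linarith
  have hdm : q * (n / q) + n % q = n := Nat.div_add_mod n q
  have hlt : n % q < q := Nat.mod_lt _ hq
  set r := n / q with hr
  set s := n % q with hs
  have hn' : (n : ℤ) = (r : ℤ) * q + s := by
    rw [← hdm]; push_cast; ring
  have h1 := key r (by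
    have : (0 : ℤ) ≤ s := by positivity
    have : (0 : ℤ) ≤ q := by positivity
    linarith)
  have h2 := h.step_n (l + (r : ℤ) * q) s
  rw [hn', show l + ((r : ℤ) * q + s) = l + (r : ℤ) * q + s by ring]
  have hlog := h.logk
  have hs' : (s : ℝ) ≤ q := by exact_mod_cast hlt.le
  have h3 : (s : ℝ) * Real.log (1 / κ) ≤ Real.log (1 / κ) * q := by nlinarith
  have hq0 : (0 : ℝ) < q := by exact_mod_cast hq
  have h4 : d / q * (((l + (r : ℤ) * q + s : ℤ) : ℝ) - l) ≤ d * r + 1 := by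
    push_cast
    have e1 : d / q * ((l : ℝ) + r * q + s - l) = d * r + d * (s / q) := by
      field_simp; ring
    rw [e1]
    have : (s : ℝ) / q ≤ 1 := by rw [div_le_one hq0]; exact hs'
    have h5 : 0 ≤ (s : ℝ) / q := by positivity
    nlinarith
  linarith

/-- geometric sum -/
lemma geo_bound {d : ℝ} (hd0 : 0 < d) (hd : d ≤ 1) :
    ∀ n : ℕ, ∑ i ∈ Finset.range (n + 1), Real.exp (-d * ((n : ℝ) - i)) ≤ 2 / d := by
  intro n
  induction n with
  | zero =>
    simp
    rw [le_div_iff₀ hd0]; linarith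
  | succ n ih =>
    rw [Finset.sum_range_succ]
    have e1 : ∑ i ∈ Finset.range (n + 1), Real.exp (-d * (((n + 1 : ℕ) : ℝ) - i)) =
        Real.exp (-d) * ∑ i ∈ Finset.range (n + 1), Real.exp (-d * ((n : ℝ) - i)) := by
      rw [Finset.mul_sum]
      apply Finset.sum_congr rfl
      intro i _
      rw [← Real.exp_add]; congr 1; push_cast; ring
    rw [e1]
    have e2 : Real.exp (-d * (((n + 1 : ℕ) : ℝ) - ((n + 1 : ℕ) : ℝ))) = 1 := by simp
    rw [e2]
    have h1 : Real.exp (-d) ≤ 1 / (1 + d) := by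
      rw [Real.exp_neg, ← one_div]
      apply one_div_le_one_div_of_le (by linarith)
      linarith [Real.add_one_le_exp d]
    have h2 : Real.exp (-d) * ∑ i ∈ Finset.range (n + 1), Real.exp (-d * ((n : ℝ) - i)) ≤
        1 / (1 + d) * (2 / d) := by
      apply mul_le_mul h1 ih (Finset.sum_nonneg (fun i _ => (Real.exp_pos _).le)) (by positivity)
    have h3 : 1 / (1 + d) * (2 / d) + 1 ≤ 2 / d := by
      rw [div_mul_div_comm, div_add_one (by positivity), div_le_div_iff₀ (by positivity) hd0]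
      nlinarith [mul_pos hd0 hd0, mul_pos (mul_pos hd0 hd0) hd0]
    linarith


/-- expected crossing time of one edge (reflected at the left end) -/
noncomputable def EE (p V : ℤ → ℝ) (k0 : ℤ) (n : ℕ) : ℝ :=
  Real.exp (V (k0 + n + 1)) * ∑ i ∈ Finset.range (n + 1), Real.exp (-V (k0 + i + 1)) / p (k0 + i)

lemma EE_nonneg (h : Env κ p V) (k0 : ℤ) (n : ℕ) : 0 ≤ EE p V k0 n := by
  unfold EE
  apply mul_nonneg (Real.exp_pos _).le
  exact Finset.sum_nonneg (fun i _ => div_nonneg (Real.exp_pos _).le (h.nn _))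

lemma EE_zero (h : Env κ p V) (k0 : ℤ) : p k0 * EE p V k0 0 = 1 := by
  have := (h.pp k0).ne'
  unfold EE
  simp
  rw [Real.exp_neg]
  field_simp

lemma EE_succ (h : Env κ p V) (k0 : ℤ) (n : ℕ) :
    p (k0 + n + 1) * EE p V k0 (n + 1) = 1 + (1 - p (k0 + n + 1)) * EE p V k0 n := by
  have hp := (h.pp (k0 + n + 1)).ne'
  have h1 : 0 < 1 - p (k0 + n + 1) := by linarith [h.hi (k0 + n + 1), h.pos]
  have hV : Real.exp (V (k0 + n + 1 + 1)) = Real.exp (V (k0 + n + 1)) * ((1 - p (k0 + n + 1)) / p (k0 + n + 1)) := by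
    have := h.pot (k0 + n + 1)
    rw [show V (k0 + n + 1 + 1) = V (k0 + n + 1) + Real.log ((1 - p (k0 + n + 1)) / p (k0 + n + 1)) by linarith,
      Real.exp_add, Real.exp_log (div_pos h1 (h.pp _))]
  unfold EE
  rw [Finset.sum_range_succ]
  push_cast
  rw [show k0 + ((n : ℤ) + 1) + 1 = k0 + n + 1 + 1 by ring, show k0 + ((n : ℤ) + 1) = k0 + n + 1 by ring]
  set S := ∑ i ∈ Finset.range (n + 1), Real.exp (-V (k0 + i + 1)) / p (k0 + i) with hS
  have e2 : Real.exp (V (k0 + n + 1 + 1)) * (Real.exp (-V (k0 + n + 1 + 1))) = 1 := by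
    rw [← Real.exp_add]; simp
  calc p (k0 + n + 1) * (Real.exp (V (k0 + n + 1 + 1)) * (S + Real.exp (-V (k0 + n + 1 + 1)) / p (k0 + n + 1)))
      = p (k0 + n + 1) * Real.exp (V (k0 + n + 1 + 1)) * S +
        (Real.exp (V (k0 + n + 1 + 1)) * (Real.exp (-V (k0 + n + 1 + 1)))) * (p (k0 + n + 1) / p (k0 + n + 1)) := by ring
    _ = 1 + (1 - p (k0 + n + 1)) * (Real.exp (V (k0 + n + 1)) * S) := by
        rw [e2, hV, div_self hp]; field_simp; ring

lemma EE_ge_one (h : Env κ p V) (k0 : ℤ) (n : ℕ) : 1 ≤ EE p V k0 n := by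
  cases n with
  | zero =>
    have h1 := EE_zero h k0
    have h2 := h.le1 k0
    have h3 := EE_nonneg h k0 0
    nlinarith
  | succ n =>
    have h1 := EE_succ h k0 n
    have h2 := h.le1 (k0 + n + 1)
    have h3 := EE_nonneg h k0 n
    have h4 := EE_nonneg h k0 (n + 1)
    have : 0 ≤ (1 - p (k0 + n + 1)) * EE p V k0 n := mul_nonneg (by linarith) h3
    nlinarith

lemma EE_le (h : Env κ p V) {k0 k1 : ℤ} {A d : ℝ} (hd0 : 0 < d) (hd : d ≤ 1)
    (hst : ∀ l m : ℤ, k0 ≤ l → l ≤ m → m ≤ k1 → V m - V l ≤ A - d * ((m : ℝ) - l))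
    (n : ℕ) (hn : k0 + n + 1 ≤ k1) : EE p V k0 n ≤ 2 * Real.exp A / (κ * d) := by
  unfold EE
  rw [Finset.mul_sum]
  have h1 : ∀ i ∈ Finset.range (n + 1), Real.exp (V (k0 + n + 1)) * (Real.exp (-V (k0 + i + 1)) / p (k0 + i)) ≤
      Real.exp A / κ * Real.exp (-d * ((n : ℝ) - i)) := by
    intro i hi
    have hi' : i ≤ n := by simpa [Nat.lt_succ_iff] using hi
    have h2 := hst (k0 + i + 1) (k0 + n + 1) (by omega) (by omega) hn
    rw [← mul_div_assoc, ← Real.exp_add, div_mul_eq_mul_div, ← Real.exp_add]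
    apply div_le_div₀ (Real.exp_pos _).le _ h.pos (h.lo _)
    apply Real.exp_le_exp.mpr
    push_cast at h2
    linarith
  refine (Finset.sum_le_sum h1).trans ?_
  rw [← Finset.mul_sum]
  have h3 := geo_bound hd0 hd n
  have h4 : Real.exp A / κ * ∑ i ∈ Finset.range (n + 1), Real.exp (-d * ((n : ℝ) - i)) ≤ Real.exp A / κ * (2 / d) :=
    mul_le_mul_of_nonneg_left h3 (div_pos (Real.exp_pos _) h.pos).le
  refine h4.trans (le_of_eq ?_)
  have := h.pos.ne'
  field_simp

/-- crossing time of the edge at `k` -/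
noncomputable def ee (p V : ℤ → ℝ) (k0 k1 k : ℤ) : ℝ :=
  if k0 ≤ k ∧ k < k1 then EE p V k0 (k - k0).toNat else 0

/-- time to go -/
noncomputable def hh (p V : ℤ → ℝ) (k0 k1 k : ℤ) : ℝ :=
  ∑ i ∈ Finset.range (k1 - k0).toNat, if k ≤ k0 + i then EE p V k0 i else 0

lemma hh_step (k0 k1 k : ℤ) : hh p V k0 k1 k = hh p V k0 k1 (k + 1) + ee p V k0 k1 k := by
  unfold hh
  have h1 : ee p V k0 k1 k = ∑ i ∈ Finset.range (k1 - k0).toNat, if k = k0 + i then EE p V k0 i else 0 := by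
    unfold ee
    by_cases hk : k0 ≤ k ∧ k < k1
    · rw [if_pos hk, Finset.sum_eq_single (k - k0).toNat]
      · rw [if_pos (by omega)]
      · intro i _ hi
        rw [if_neg (by omega)]
      · intro hi
        exfalso; apply hi; rw [Finset.mem_range]; omega
    · rw [if_neg hk, Finset.sum_eq_zero]
      intro i hi
      rw [Finset.mem_range] at hi
      rw [if_neg (by omega)]
  rw [h1, ← Finset.sum_add_distrib]
  apply Finset.sum_congr rfl
  intro i _
  by_cases h2 : k = k0 + i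
  · rw [if_pos (by omega), if_neg (by omega), if_pos h2]; ring
  · by_cases h3 : k ≤ k0 + i
    · rw [if_pos h3, if_pos (by omega), if_neg h2]; ring
    · rw [if_neg h3, if_neg (by omega), if_neg h2]; ring

lemma hh_right {k0 k1 k : ℤ} (hk : k1 ≤ k) : hh p V k0 k1 k = 0 := by
  unfold hh
  apply Finset.sum_eq_zero
  intro i hi
  rw [Finset.mem_range] at hi
  rw [if_neg (by omega)]

lemma hh_left {k0 k1 k : ℤ} (hk : k ≤ k0) : hh p V k0 k1 k = hh p V k0 k1 k0 := by
  unfold hh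
  apply Finset.sum_congr rfl
  intro i _
  rw [if_pos (by omega), if_pos (by omega)]

lemma hh_nonneg (h : Env κ p V) (k0 k1 k : ℤ) : 0 ≤ hh p V k0 k1 k := by
  unfold hh
  apply Finset.sum_nonneg
  intro i _
  split_ifs
  · exact EE_nonneg h _ _
  · exact le_rfl

lemma ee_nonneg (h : Env κ p V) (k0 k1 k : ℤ) : 0 ≤ ee p V k0 k1 k := by
  unfold ee
  split_ifs
  · exact EE_nonneg h _ _
  · exact le_rfl

lemma ee_drift (h : Env κ p V) {k0 k1 k : ℤ} (hk : k0 ≤ k) (hk1 : k < k1) :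
    p k * ee p V k0 k1 k - (1 - p k) * ee p V k0 k1 (k - 1) = 1 := by
  by_cases h0 : k = k0
  · subst h0
    unfold ee
    rw [if_pos ⟨le_rfl, hk1⟩, if_neg (by omega)]
    simp
    exact EE_zero h k
  · obtain ⟨n, hn⟩ : ∃ n : ℕ, k = k0 + n + 1 := ⟨(k - k0 - 1).toNat, by omega⟩
    unfold ee
    rw [if_pos ⟨hk, hk1⟩, if_pos (by omega)]
    rw [show (k - k0).toNat = n + 1 by omega, show (k - 1 - k0).toNat = n by omega]
    have := EE_succ h k0 n
    rw [← hn] at this
    linarith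

lemma hh_diff (h : Env κ p V) {k0 k1 : ℤ} (n : ℕ) (hn : k0 + n ≤ k1) :
    hh p V k0 k1 (k0 + n) ≤ hh p V k0 k1 k0 - n := by
  induction n with
  | zero => simp
  | succ n ih =>
    push_cast at hn ⊢
    have h1 := ih (by omega)
    have h2 := hh_step (p := p) (V := V) k0 k1 (k0 + n)
    rw [← add_assoc]
    have h3 : 1 ≤ ee p V k0 k1 (k0 + n) := by
      unfold ee
      rw [if_pos (by omega)]
      exact EE_ge_one h _ _
    linarith


lemma exp_quad {x : ℝ} (hx : |x| ≤ 1) : Real.exp x ≤ 1 + x + x ^ 2 := by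
  have := Real.abs_exp_sub_one_sub_id_le hx
  have := (abs_le.mp this).2
  linarith

/-- not too fast -/
lemma U1 (h : Env κ p V) {k1 : ℤ} {e f : ℤ → ℝ} {H lam : ℝ} (hf : ∀ k, f k = f (k + 1) + e k)
    (hf1 : ∀ k, k1 ≤ k → f k = 0) (he0 : ∀ k, 0 ≤ e k) (heH : ∀ k, e k ≤ H)
    (hd : ∀ k, k < k1 → p k * e k - (1 - p k) * e (k - 1) ≤ 1) (hl : 0 ≤ lam) (hlH : lam * H ≤ 1) :
    ∀ (t : ℕ) (k : ℤ), Ex p t (geI k1) k ≤ Real.exp (-lam * f k + (lam + lam ^ 2 * H ^ 2) * t) := by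
  have hH : 0 ≤ H := (he0 0).trans (heH 0)
  intro t
  induction t with
  | zero =>
    intro k
    rw [Ex_zero]
    by_cases hk : k1 ≤ k
    · rw [hf1 k hk]; unfold geI; rw [if_pos hk]; simp
    · unfold geI; rw [if_neg hk]; exact (Real.exp_pos _).le
  | succ t ih =>
    intro k
    by_cases hk : k1 ≤ k
    · rw [hf1 k hk]
      refine (Ex_le_one h.nn h.le1 (geI_le_one k1) (t + 1) k).trans ?_
      apply Real.one_le_exp
      have : 0 ≤ lam + lam ^ 2 * H ^ 2 := by positivity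
      simp
      positivity
    · push Not at hk
      rw [Ex_succ]
      unfold P
      have h1 := mul_le_mul_of_nonneg_left (ih (k+1)) (h.nn k)
      have h2 := mul_le_mul_of_nonneg_left (ih (k-1)) (by linarith [h.le1 k] : 0 ≤ 1 - p k)
      have e1 : f (k + 1) = f k - e k := by linarith [hf k]
      have e2 : f (k - 1) = f k + e (k - 1) := by
        have := hf (k - 1); rw [show k - 1 + 1 = k by ring] at this; linarith
      rw [e1] at h1
      rw [e2] at h2
      have e3 : Real.exp (-lam * (f k - e k) + (lam + lam ^ 2 * H ^ 2) * t) =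
          Real.exp (-lam * f k + (lam + lam ^ 2 * H ^ 2) * t) * Real.exp (lam * e k) := by
        rw [← Real.exp_add]; congr 1; ring
      have e4 : Real.exp (-lam * (f k + e (k - 1)) + (lam + lam ^ 2 * H ^ 2) * t) =
          Real.exp (-lam * f k + (lam + lam ^ 2 * H ^ 2) * t) * Real.exp (-(lam * e (k - 1))) := by
        rw [← Real.exp_add]; congr 1; ring
      rw [e3] at h1
      rw [e4] at h2
      have q1 : Real.exp (lam * e k) ≤ 1 + lam * e k + (lam * e k) ^ 2 := by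
        apply exp_quad
        rw [abs_of_nonneg (mul_nonneg hl (he0 k))]
        exact (mul_le_mul_of_nonneg_left (heH k) hl).trans hlH
      have q2 : Real.exp (-(lam * e (k - 1))) ≤ 1 + -(lam * e (k - 1)) + (-(lam * e (k - 1))) ^ 2 := by
        apply exp_quad
        rw [abs_neg, abs_of_nonneg (mul_nonneg hl (he0 _))]
        exact (mul_le_mul_of_nonneg_left (heH _) hl).trans hlH
      have s1 : e k ^ 2 ≤ H ^ 2 := pow_le_pow_left₀ (he0 k) (heH k) 2
      have s2 : e (k - 1) ^ 2 ≤ H ^ 2 := pow_le_pow_left₀ (he0 _) (heH _) 2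
      have key : p k * Real.exp (lam * e k) + (1 - p k) * Real.exp (-(lam * e (k - 1))) ≤
          Real.exp (lam + lam ^ 2 * H ^ 2) := by
        have a1 := mul_le_mul_of_nonneg_left q1 (h.nn k)
        have a2 := mul_le_mul_of_nonneg_left q2 (by linarith [h.le1 k] : 0 ≤ 1 - p k)
        have a3 := mul_le_mul_of_nonneg_left (hd k hk) hl
        have a4 : p k * (lam * e k) ^ 2 + (1 - p k) * (-(lam * e (k - 1))) ^ 2 ≤ lam ^ 2 * H ^ 2 := by
          have b1 := mul_le_mul_of_nonneg_left s1 (mul_nonneg (h.nn k) (sq_nonneg lam))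
          have b2 := mul_le_mul_of_nonneg_left s2 (mul_nonneg (by linarith [h.le1 k] : 0 ≤ 1 - p k) (sq_nonneg lam))
          nlinarith
        have a5 := Real.add_one_le_exp (lam + lam ^ 2 * H ^ 2)
        nlinarith
      have hpos := (Real.exp_pos (-lam * f k + (lam + lam ^ 2 * H ^ 2) * t)).le
      have fin := mul_le_mul_of_nonneg_left key hpos
      have e5 : Real.exp (-lam * f k + (lam + lam ^ 2 * H ^ 2) * ((t + 1 : ℕ) : ℝ)) =
          Real.exp (-lam * f k + (lam + lam ^ 2 * H ^ 2) * t) * Real.exp (lam + lam ^ 2 * H ^ 2) := by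
        rw [← Real.exp_add]; congr 1; push_cast; ring
      rw [e5]
      nlinarith

/-- not too slow -/
lemma U2 (h : Env κ p V) {k0 k1 a : ℤ} {e f : ℤ → ℝ} {H lam Λ : ℝ} {T : ℕ} (hf : ∀ k, f k = f (k + 1) + e k)
    (hfn : ∀ k, 0 ≤ f k) (he0 : ∀ k, 0 ≤ e k) (heH : ∀ k, e k ≤ H)
    (hd : ∀ k, k0 < k → k < k1 → 1 ≤ p k * e k - (1 - p k) * e (k - 1)) (hl : 0 ≤ lam) (hlH : lam * H ≤ 1)
    (ha : a < k1) (hΛ0 : 0 ≤ Λ) (hΛ : ∀ s : ℕ, s ≤ T → Ex p s (leI a) k1 ≤ Λ) :
    ∀ (t : ℕ), t ≤ T → ∀ (k : ℤ), k0 ≤ k → k ≤ k1 → Ex p t (leI a) k ≤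
      Real.exp (lam * f k - (lam - lam ^ 2 * H ^ 2) * t) +
        ∑ s ∈ Finset.range (t + 1), Ex p s (pt k0) k + Λ := by
  have hH : 0 ≤ H := (he0 0).trans (heH 0)
  have hR0 : ∀ (t : ℕ) (k : ℤ), 0 ≤ ∑ s ∈ Finset.range (t + 1), Ex p s (pt k0) k := by
    intro t k
    exact Finset.sum_nonneg (fun s _ => Ex_nonneg h.nn h.le1 (pt_nonneg k0) s k)
  intro t
  induction t with
  | zero =>
    intro _ k hk0 hk1
    have h1 : Ex p 0 (leI a) k ≤ 1 := Ex_le_one h.nn h.le1 (leI_le_one a) 0 k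
    have h2 : 1 ≤ Real.exp (lam * f k - (lam - lam ^ 2 * H ^ 2) * ((0 : ℕ) : ℝ)) := by
      apply Real.one_le_exp
      simp
      exact mul_nonneg hl (hfn k)
    have h3 := hR0 0 k
    linarith
  | succ t ih =>
    intro ht k hk0 hk1
    have hE := Real.exp_pos (lam * f k - (lam - lam ^ 2 * H ^ 2) * ((t + 1 : ℕ) : ℝ))
    by_cases hka : k = k0
    · have h1 : Ex p (t + 1) (leI a) k ≤ 1 := Ex_le_one h.nn h.le1 (leI_le_one a) _ k
      have h2 : 1 ≤ ∑ s ∈ Finset.range (t + 1 + 1), Ex p s (pt k0) k := by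
        rw [Finset.sum_range_succ']
        have : Ex p 0 (pt k0) k = 1 := by rw [Ex_zero]; unfold pt; rw [if_pos hka]
        rw [this]
        have : 0 ≤ ∑ i ∈ Finset.range (t + 1), Ex p (i + 1) (pt k0) k :=
          Finset.sum_nonneg (fun s _ => Ex_nonneg h.nn h.le1 (pt_nonneg k0) _ k)
        linarith
      linarith
    · by_cases hkb : k = k1
      · have h1 := hΛ (t + 1) ht
        have h2 := hR0 (t + 1) k
        subst hkb
        linarith
      · have hk0' : k0 < k := lt_of_le_of_ne hk0 (Ne.symm hka)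
        have hk1' : k < k1 := lt_of_le_of_ne hk1 hkb
        have i1 := ih (by omega) (k + 1) (by omega) (by omega)
        have i2 := ih (by omega) (k - 1) (by omega) (by omega)
        rw [Ex_succ]
        unfold P
        have h1 := mul_le_mul_of_nonneg_left i1 (h.nn k)
        have h2 := mul_le_mul_of_nonneg_left i2 (by linarith [h.le1 k] : 0 ≤ 1 - p k)
        have e1 : f (k + 1) = f k - e k := by linarith [hf k]
        have e2 : f (k - 1) = f k + e (k - 1) := by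
          have := hf (k - 1); rw [show k - 1 + 1 = k by ring] at this; linarith
        have e3 : Real.exp (lam * (f k - e k) - (lam - lam ^ 2 * H ^ 2) * t) =
            Real.exp (lam * f k - (lam - lam ^ 2 * H ^ 2) * t) * Real.exp (-(lam * e k)) := by
          rw [← Real.exp_add]; congr 1; ring
        have e4 : Real.exp (lam * (f k + e (k - 1)) - (lam - lam ^ 2 * H ^ 2) * t) =
            Real.exp (lam * f k - (lam - lam ^ 2 * H ^ 2) * t) * Real.exp (lam * e (k - 1)) := by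
          rw [← Real.exp_add]; congr 1; ring
        rw [e1, e3] at h1
        rw [e2, e4] at h2
        have q1 : Real.exp (-(lam * e k)) ≤ 1 + -(lam * e k) + (-(lam * e k)) ^ 2 := by
          apply exp_quad
          rw [abs_neg, abs_of_nonneg (mul_nonneg hl (he0 k))]
          exact (mul_le_mul_of_nonneg_left (heH k) hl).trans hlH
        have q2 : Real.exp (lam * e (k - 1)) ≤ 1 + lam * e (k - 1) + (lam * e (k - 1)) ^ 2 := by
          apply exp_quad
          rw [abs_of_nonneg (mul_nonneg hl (he0 _))]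
          exact (mul_le_mul_of_nonneg_left (heH _) hl).trans hlH
        have s1 : e k ^ 2 ≤ H ^ 2 := pow_le_pow_left₀ (he0 k) (heH k) 2
        have s2 : e (k - 1) ^ 2 ≤ H ^ 2 := pow_le_pow_left₀ (he0 _) (heH _) 2
        have key : p k * Real.exp (-(lam * e k)) + (1 - p k) * Real.exp (lam * e (k - 1)) ≤
            Real.exp (-(lam - lam ^ 2 * H ^ 2)) := by
          have a1 := mul_le_mul_of_nonneg_left q1 (h.nn k)
          have a2 := mul_le_mul_of_nonneg_left q2 (by linarith [h.le1 k] : 0 ≤ 1 - p k)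
          have a3 := mul_le_mul_of_nonneg_left (hd k hk0' hk1') hl
          have a4 : p k * (-(lam * e k)) ^ 2 + (1 - p k) * (lam * e (k - 1)) ^ 2 ≤ lam ^ 2 * H ^ 2 := by
            have b1 := mul_le_mul_of_nonneg_left s1 (mul_nonneg (h.nn k) (sq_nonneg lam))
            have b2 := mul_le_mul_of_nonneg_left s2 (mul_nonneg (by linarith [h.le1 k] : 0 ≤ 1 - p k) (sq_nonneg lam))
            nlinarith
          have a5 := Real.add_one_le_exp (-(lam - lam ^ 2 * H ^ 2))
          nlinarith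
        have hpos := (Real.exp_pos (lam * f k - (lam - lam ^ 2 * H ^ 2) * t)).le
        have fin := mul_le_mul_of_nonneg_left key hpos
        have e5 : Real.exp (lam * f k - (lam - lam ^ 2 * H ^ 2) * ((t + 1 : ℕ) : ℝ)) =
            Real.exp (lam * f k - (lam - lam ^ 2 * H ^ 2) * t) * Real.exp (-(lam - lam ^ 2 * H ^ 2)) := by
          rw [← Real.exp_add]; congr 1; push_cast; ring
        have hS : p k * (∑ s ∈ Finset.range (t + 1), Ex p s (pt k0) (k + 1)) +
            (1 - p k) * (∑ s ∈ Finset.range (t + 1), Ex p s (pt k0) (k - 1)) ≤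
            ∑ s ∈ Finset.range (t + 1 + 1), Ex p s (pt k0) k := by
          rw [Finset.sum_range_succ' _ (t + 1), Finset.mul_sum, Finset.mul_sum, ← Finset.sum_add_distrib]
          have h0 : 0 ≤ Ex p 0 (pt k0) k := pt_nonneg _ _
          have : ∀ s ∈ Finset.range (t + 1), p k * Ex p s (pt k0) (k + 1) + (1 - p k) * Ex p s (pt k0) (k - 1) =
              Ex p (s + 1) (pt k0) k := by
            intro s _
            rw [Ex_succ]; rfl
          rw [Finset.sum_congr rfl this]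
          linarith
        rw [e5]
        nlinarith

end env

theorem s_KeyR (hCV : S_CV) (hR : S_CrossR) (hL : S_CrossL) : S_KeyR := by
  intro κ p V h q M T E ε a b hq hM hT hE hC2 hε hε1 hC1 hJT hMqT hC3 hab ha hge hle
  have hκ := h.pos
  have hqZ : (1 : ℤ) ≤ q := by exact_mod_cast hq
  have hMZ : (1 : ℤ) ≤ M := by exact_mod_cast hM
  have hMq : (q : ℤ) ≤ (M : ℤ) * q := by nlinarith
  have hqR : (1 : ℝ) ≤ q := by exact_mod_cast hq
  have hMR : (1 : ℝ) ≤ M := by exact_mod_cast hM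
  have hTR : (1 : ℝ) ≤ T := by exact_mod_cast hT
  have hT0 : (0 : ℝ) < T := by linarith
  obtain ⟨Y, hY⟩ : ∃ Y : ℝ, Y = (M : ℝ) * q := ⟨_, rfl⟩
  have hY1 : 1 ≤ Y := by rw [hY]; nlinarith
  have hY0 : 0 < Y := by linarith
  have hYT : 4 * Y ≤ T := by rw [hY]; have : ((4 * M * q : ℕ) : ℝ) ≤ T := by exact_mod_cast hJT
                             push_cast at this; linarith
  obtain ⟨L, hLdef⟩ : ∃ L : ℝ, L = Lg κ T ε := ⟨_, rfl⟩
  rw [← hY, ← hLdef] at hC1
  rw [← hY] at hC3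
  have hκs : 0 < Real.sqrt κ := Real.sqrt_pos.mpr hκ
  have hκs1 : Real.sqrt κ ≤ 1 := by
    rw [show (1 : ℝ) = Real.sqrt 1 by simp]
    exact Real.sqrt_le_sqrt (by linarith [h.half])
  have hX : (0 : ℝ) < 2 * (T + 1) / (Real.sqrt κ * ε) := by positivity
  have hL2 : Real.exp (L / 2) = 2 * (T + 1) / (Real.sqrt κ * ε) := by
    rw [hLdef]; unfold Lg
    rw [show 2 * Real.log (2 * ((T : ℝ) + 1) / (Real.sqrt κ * ε)) / 2 = Real.log (2 * ((T : ℝ) + 1) / (Real.sqrt κ * ε)) by ring]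
    exact Real.exp_log hX
  have hL4 : 2 * Real.log 4 ≤ L := by
    rw [hLdef]; unfold Lg
    have : Real.log 4 ≤ Real.log (2 * ((T : ℝ) + 1) / (Real.sqrt κ * ε)) := by
      apply Real.log_le_log (by norm_num)
      rw [le_div_iff₀ (by positivity)]
      have : Real.sqrt κ * ε ≤ 1 := by nlinarith
      nlinarith
    linarith
  have hlog4 : 0 < Real.log 4 := Real.log_pos (by norm_num)
  have hL0 : 0 < L := by linarith
  have hC1' : L + E ≤ Y ^ 2 / T := by
    rw [le_div_iff₀ hT0]; linarith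
  -- block drift
  obtain ⟨k0, hk0⟩ : ∃ k0 : ℤ, k0 = -(3 * (M : ℤ) * q) := ⟨_, rfl⟩
  obtain ⟨k1, hk1⟩ : ∃ k1 : ℤ, k1 = b - ((M : ℤ) + 1) * q := ⟨_, rfl⟩
  have hG : ∀ k : ℤ, k0 ≤ k → k ≤ k1 → V (k + q) - V k ≤ -((M : ℝ) * (q : ℝ) ^ 2 / T) := by
    intro k h1 h2
    have c1 := hR κ p V h T ε (-(4 * M * q)) b hT hε hge (k - M * q) (k + (M + 1) * q)
      (by rw [hk0] at h1; linarith) (by nlinarith) (by rw [hk1] at h2; linarith)
    rw [← hLdef] at c1
    have c2 := (abs_le.mp (hC2 k)).1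
    have c2' := (abs_le.mp (hC2 k)).2
    push_cast at c1
    have e1 : ((k : ℝ) + ((M : ℝ) + 1) * q - ((k : ℝ) - M * q)) ^ 2 / T = ((2 * M + 1) * q) ^ 2 / (T : ℝ) := by
      congr 1; ring
    rw [e1] at c1
    have c3 : (2 * (M : ℝ) + 1) * (V (k + q) - V k) ≤ -(((2 * M + 1) * q) ^ 2 / (T : ℝ)) + Y ^ 2 / T := by
      linarith
    have c4 : -(((2 * (M : ℝ) + 1) * q) ^ 2 / (T : ℝ)) + Y ^ 2 / T ≤ (2 * (M : ℝ) + 1) * (-((M : ℝ) * (q : ℝ) ^ 2 / T)) := by
      rw [hY]
      have : (0 : ℝ) ≤ (((2 * (M : ℝ) + 1) * q) ^ 2 - (M * q) ^ 2 - (2 * M + 1) * (M * (q : ℝ) ^ 2)) / T := by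
        apply div_nonneg _ hT0.le
        have e9 : ((2 * (M : ℝ) + 1) * q) ^ 2 - (M * q) ^ 2 - (2 * M + 1) * (M * (q : ℝ) ^ 2) =
          ((M : ℝ) ^ 2 + 3 * M + 1) * (q : ℝ) ^ 2 := by ring
        rw [e9]; positivity
      have e2 : (((2 * (M : ℝ) + 1) * q) ^ 2 - (M * q) ^ 2 - (2 * M + 1) * (M * (q : ℝ) ^ 2)) / T =
          ((2 * (M : ℝ) + 1) * q) ^ 2 / T - (M * q) ^ 2 / T - (2 * M + 1) * (M * (q : ℝ) ^ 2 / T) := by
        ring
      rw [e2] at this
      linarith
    have c5 : (0 : ℝ) < 2 * M + 1 := by positivity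
    exact le_of_mul_le_mul_left (c3.trans c4) c5
  have hd0 : 0 ≤ (M : ℝ) * (q : ℝ) ^ 2 / T := by positivity
  have hd1 : (M : ℝ) * (q : ℝ) ^ 2 / T ≤ 1 := by
    rw [div_le_one hT0]; exact_mod_cast hMqT
  have hst := steep h hq hd0 hd1 hG
  have hdq : (M : ℝ) * (q : ℝ) ^ 2 / T / q = Y / T := by
    rw [hY]; field_simp
  rw [hdq] at hst
  obtain ⟨A, hA⟩ : ∃ A : ℝ, A = Real.log (1 / κ) * q + 1 := ⟨_, rfl⟩
  rw [← hA] at hst
  have hA0 : 0 ≤ A := by
    rw [hA]; have := h.logk; positivity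
  have hδ0 : 0 < Y / T := by positivity
  have hδ1 : Y / T ≤ 1 := by rw [div_le_one hT0]; linarith
  obtain ⟨H, hH⟩ : ∃ H : ℝ, H = 2 * Real.exp A / (κ * (Y / T)) := ⟨_, rfl⟩
  have hH1 : 1 ≤ H := by
    rw [hH, le_div_iff₀ (by positivity)]
    have := Real.one_le_exp hA0
    have h2 : κ * (Y / T) ≤ 1 := by
      have := h.half
      nlinarith
    linarith
  have hH0 : 0 < H := by linarith
  have heH : ∀ k, ee p V k0 k1 k ≤ H := by
    intro k
    unfold ee
    split_ifs with hk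
    · rw [hH]
      exact EE_le h hδ0 hδ1 hst _ (by omega)
    · exact hH0.le
  obtain ⟨Θ, hΘ⟩ : ∃ Θ : ℝ, Θ = Y ^ 2 / (H ^ 2 * T) := ⟨_, rfl⟩
  have hΘ0 : 0 < Θ := by rw [hΘ]; positivity
  have hC3' : Real.log (4 / ε) < Θ := by
    refine lt_of_lt_of_eq hC3 ?_
    rw [hΘ, hH, show 2 * Real.log (1 / κ) * q + 2 = A + A by rw [hA]; ring, Real.exp_add]
    have := Real.exp_pos A
    field_simp
    ring
  have hexpΘ : Real.exp (-Θ) < ε / 4 := by
    have h1 : Real.exp (-Θ) < Real.exp (-Real.log (4 / ε)) := Real.exp_lt_exp.mpr (by linarith)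
    rw [Real.exp_neg (Real.log _), Real.exp_log (by positivity), inv_div] at h1
    exact h1
  have hfs : ∀ k, hh p V k0 k1 k = hh p V k0 k1 (k + 1) + ee p V k0 k1 k := fun k => hh_step k0 k1 k
  have hk1J : 4 * (M : ℤ) * q < k1 := by rw [hk1]; nlinarith
  have hbk : k1 ≤ b := by rw [hk1]; nlinarith
  have hak : a < k1 := by rw [hk1]; nlinarith
  -- not too fast
  have hfast : hh p V k0 k1 k0 < T + 4 * Y := by
    by_contra hcon
    push Not at hcon
    obtain ⟨lam, hlam⟩ : ∃ lam : ℝ, lam = 2 * Y / (H ^ 2 * T) := ⟨_, rfl⟩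
    have hl0 : 0 ≤ lam := by rw [hlam]; positivity
    have hlH : lam * H ≤ 1 := by
      rw [hlam, div_mul_eq_mul_div, div_le_one (by positivity)]
      nlinarith [mul_pos hH0 hT0, mul_pos hH0 hY0]
    have u := U1 h (k1 := k1) hfs (fun k hk => hh_right hk) (fun k => ee_nonneg h k0 k1 k) heH
      (fun k hk => by
        by_cases hkk : k0 ≤ k
        · exact (ee_drift h hkk hk).le
        · unfold ee
          rw [if_neg (by omega), if_neg (by omega)]; simp) hl0 hlH T (-(4 * M * q))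
    have u1 : Ex p T (geI b) (-(4 * M * q)) ≤ Ex p T (geI k1) (-(4 * M * q)) := by
      apply Ex_mono h.nn h.le1
      intro k
      unfold geI
      split_ifs with c1 c2
      · exact le_rfl
      · exfalso; omega
      · norm_num
      · exact le_rfl
    have u2 : hh p V k0 k1 (-(4 * M * q)) = hh p V k0 k1 k0 := by
      apply hh_left; rw [hk0]; nlinarith
    rw [u2] at u
    have u3 : -lam * hh p V k0 k1 k0 + (lam + lam ^ 2 * H ^ 2) * T ≤ -Θ := by
      have v1 := mul_le_mul_of_nonneg_left hcon hl0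
      have v2 : lam * (4 * Y) = 8 * Θ := by rw [hlam, hΘ]; ring
      have v3 : lam ^ 2 * H ^ 2 * T = 4 * Θ := by rw [hlam, hΘ]; field_simp; ring
      nlinarith
    have u4 := Real.exp_le_exp.mpr u3
    linarith
  -- not too slow
  have hJ : k0 + ((7 * M * q : ℕ) : ℤ) = 4 * M * q := by rw [hk0]; push_cast; ring
  have hfJ : hh p V k0 k1 (4 * M * q) ≤ hh p V k0 k1 k0 - 7 * Y := by
    have := hh_diff h (k0 := k0) (k1 := k1) (7 * M * q) (by rw [hJ]; exact hk1J.le)
    rw [hJ] at this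
    push_cast at this
    rw [hY]; linarith
  have hLam : ∀ s : ℕ, s ≤ T → Ex p s (leI a) k1 ≤ ε / 4 := by
    intro s hs
    by_contra hcon
    push Not at hcon
    rcases Nat.eq_zero_or_pos s with h0 | h0
    · subst h0
      rw [Ex_zero] at hcon
      unfold leI at hcon
      rw [if_neg (by omega)] at hcon
      linarith
    · have c1 := hL κ p V h s (ε / 4) k1 a h0 (by linarith) hcon.le k1 a le_rfl hak.le le_rfl
      have c2 := hR κ p V h T ε (-(4 * M * q)) b hT hε hge a k1 (by nlinarith) hak.le hbk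
      rw [← hLdef] at c2
      have hs0 : (0 : ℝ) < s := by exact_mod_cast h0
      have hsT : (s : ℝ) ≤ T := by exact_mod_cast hs
      have c3 : Lg κ s (ε / 4) ≤ L + 2 * Real.log 4 := by
        rw [hLdef]; unfold Lg
        have : Real.log (2 * ((s : ℝ) + 1) / (Real.sqrt κ * (ε / 4))) ≤
            Real.log (2 * ((T : ℝ) + 1) / (Real.sqrt κ * ε)) + Real.log 4 := by
          rw [← Real.log_mul hX.ne' (by norm_num)]
          apply Real.log_le_log (by positivity)
          rw [show 2 * ((s : ℝ) + 1) / (Real.sqrt κ * (ε / 4)) = 2 * ((s : ℝ) + 1) / (Real.sqrt κ * ε) * 4 by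
            field_simp]
          gcongr
        linarith
      have c4 : 4 * Y ≤ (k1 : ℝ) - a := by
        have : 4 * (M : ℤ) * q ≤ k1 - a := by rw [hk1]; nlinarith
        have h5 : ((4 * (M : ℤ) * q : ℤ) : ℝ) ≤ ((k1 - a : ℤ) : ℝ) := by exact_mod_cast this
        push_cast at h5
        rw [hY]; linarith
      have c5 : 16 * (Y ^ 2 / T) ≤ ((k1 : ℝ) - a) ^ 2 / T := by
        rw [← mul_div_assoc]
        apply div_le_div_of_nonneg_right _ hT0.le
        nlinarith
      have c6 : ((k1 : ℝ) - a) ^ 2 / T ≤ ((k1 : ℝ) - a) ^ 2 / s := by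
        apply div_le_div_of_nonneg_left (sq_nonneg _) hs0 hsT
      linarith
  obtain ⟨lam, hlam⟩ : ∃ lam : ℝ, lam = Y / (H ^ 2 * T) := ⟨_, rfl⟩
  have hl0 : 0 ≤ lam := by rw [hlam]; positivity
  have hlH : lam * H ≤ 1 := by
    rw [hlam, div_mul_eq_mul_div, div_le_one (by positivity)]
    nlinarith [mul_pos hH0 hT0, mul_pos hH0 hY0]
  have u := U2 h (k0 := k0) (k1 := k1) (a := a) (T := T) (Λ := ε / 4) hfs (fun k => hh_nonneg h k0 k1 k)
    (fun k => ee_nonneg h k0 k1 k) heH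
    (fun k hk hkk => (ee_drift h hk.le hkk).ge) hl0 hlH hak (by linarith) hLam T le_rfl (4 * M * q)
    (by rw [hk0]; nlinarith) hk1J.le
  have u3 : lam * hh p V k0 k1 (4 * M * q) - (lam - lam ^ 2 * H ^ 2) * T ≤ -Θ := by
    have v0 : hh p V k0 k1 (4 * M * q) ≤ T - 3 * Y := by linarith
    have v1 := mul_le_mul_of_nonneg_left v0 hl0
    have v2 : lam * Y = Θ := by rw [hlam, hΘ]; ring
    have v3 : lam ^ 2 * H ^ 2 * T = Θ := by rw [hlam, hΘ]; field_simp
    nlinarith
  have u4 := Real.exp_le_exp.mpr u3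
  have u5 : ∑ s ∈ Finset.range (T + 1), Ex p s (pt k0) (4 * M * q) ≤ ε / 4 := by
    have c2 := hR κ p V h T ε (-(4 * M * q)) b hT hε hge k0 (4 * M * q) (by rw [hk0]; nlinarith)
      (by rw [hk0]; nlinarith) (by linarith)
    rw [← hLdef] at c2
    have c3 : ((4 * M * q : ℤ) : ℝ) - (k0 : ℝ) = 7 * Y := by
      rw [hk0, hY]; push_cast; ring
    rw [c3] at c2
    have hb : ∀ s ∈ Finset.range (T + 1), Ex p s (pt k0) (4 * M * q) ≤
        2 / Real.sqrt κ * Real.exp ((V (4 * M * q) - V k0) / 2) := by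
      intro s _
      refine (hCV κ p V h s (4 * M * q) k0).trans ?_
      apply mul_le_mul_of_nonneg_left _ (by positivity)
      apply Real.exp_le_exp.mpr
      have : (0 : ℝ) ≤ (((4 * M * q : ℤ) : ℝ) - k0) ^ 2 / (2 * s) := by positivity
      linarith
    refine (Finset.sum_le_card_nsmul _ _ _ hb).trans ?_
    rw [Finset.card_range, nsmul_eq_mul]
    have c4 : Real.exp ((V (4 * M * q) - V k0) / 2) ≤ Real.exp (L / 2) * Real.exp (-(49 / 2 * (Y ^ 2 / T))) := by
      rw [← Real.exp_add]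
      apply Real.exp_le_exp.mpr
      have : (7 * Y) ^ 2 / T = 49 * (Y ^ 2 / T) := by ring
      rw [this] at c2
      linarith
    have c5 : Real.exp (-(49 / 2 * (Y ^ 2 / T))) ≤ Real.exp (-(L)) * (1 / 4) := by
      have : Real.exp (-(Real.log 4)) = 1 / 4 := by
        rw [Real.exp_neg, Real.exp_log (by norm_num)]; norm_num
      rw [← this, ← Real.exp_add]
      apply Real.exp_le_exp.mpr
      linarith
    have c6 : ((T + 1 : ℕ) : ℝ) * (2 / Real.sqrt κ) = ε * Real.exp (L / 2) := by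
      rw [hL2]; push_cast; field_simp
    calc ((T + 1 : ℕ) : ℝ) * (2 / Real.sqrt κ * Real.exp ((V (4 * M * q) - V k0) / 2))
        = ε * Real.exp (L / 2) * Real.exp ((V (4 * M * q) - V k0) / 2) := by rw [← c6]; ring
      _ ≤ ε * Real.exp (L / 2) * (Real.exp (L / 2) * (Real.exp (-(L)) * (1 / 4))) := by
          apply mul_le_mul_of_nonneg_left _ (by positivity)
          exact c4.trans (mul_le_mul_of_nonneg_left c5 (Real.exp_pos _).le)
      _ = ε / 4 * (Real.exp (L / 2) * Real.exp (L / 2) * Real.exp (-L)) := by ring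
      _ = ε / 4 := by
          rw [← Real.exp_add, ← Real.exp_add, show L / 2 + L / 2 + -L = 0 by ring]; simp
  linarith

end Pool.Agent.R953.LV
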