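import Pool.Agent.R953.LV.Defs

set_option autoImplicit false
open Filter Topology MeasureTheory

/-!
Project LV (MP_545af4_pr), piece LV-LAW: the variance of the law.
-/
namespace Pool.Agent.R953.LV

namespace Law

/-- the measure `μ` is a finite combination of Dirac masses which integrates to `E` -/
def Rep (μ : Measure ℤ) (E : (ℤ → ℝ) → ℝ) : Prop :=
  ∃ (n : ℕ) (w : Fin n → ℝ) (z : Fin n → ℤ), (∀ i, 0 ≤ w i) ∧
    μ = Measure.sum (fun i => ENNReal.ofReal (w i) • Measure.dirac (z i)) ∧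
    ∀ f : ℤ → ℝ, ∑ i, w i * f (z i) = E f

theorem rep_step (p : ℤ → ℝ) (h0 : ∀ k, 0 ≤ p k) (h1 : ∀ k, p k ≤ 1) (μ : Measure ℤ)
    (E : (ℤ → ℝ) → ℝ) (h : Rep μ E) :
    Rep (μ.bind (fun k => ENNReal.ofReal (p k) • Measure.dirac (k + 1) +
      ENNReal.ofReal (1 - p k) • Measure.dirac (k - 1))) (fun f => E (P p f)) := by
  obtain ⟨n, w, z, hw, rfl, hE⟩ := h
  refine ⟨n + n, fun i => Sum.elim (fun i => w i * p (z i)) (fun i => w i * (1 - p (z i)))
    (finSumFinEquiv.symm i), fun i => Sum.elim (fun i => z i + 1) (fun i => z i - 1)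
    (finSumFinEquiv.symm i), ?_, ?_, ?_⟩
  · intro i
    beta_reduce
    rcases finSumFinEquiv.symm i with j | j
    · exact mul_nonneg (hw j) (h0 _)
    · exact mul_nonneg (hw j) (sub_nonneg.2 (h1 (z j)))
  · ext s hs
    rw [Measure.bind_apply hs (Measurable.of_discrete).aemeasurable, lintegral_sum_measure,
      Measure.sum_apply _ hs, tsum_fintype, tsum_fintype,
      ← finSumFinEquiv.sum_comp, Fintype.sum_sum_type, ← Finset.sum_add_distrib]
    apply Finset.sum_congr rfl
    intro i _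
    rw [lintegral_smul_measure, lintegral_dirac]
    simp only [Equiv.symm_apply_apply, Sum.elim_inl, Sum.elim_inr, Measure.coe_add, Pi.add_apply,
      Measure.smul_apply, smul_eq_mul]
    rw [ENNReal.ofReal_mul (hw i), ENNReal.ofReal_mul (hw i)]
    ring
  · intro f
    rw [← finSumFinEquiv.sum_comp, Fintype.sum_sum_type, ← Finset.sum_add_distrib]
    show _ = E (P p f)
    rw [← hE]
    apply Finset.sum_congr rfl
    intro i _
    simp only [Equiv.symm_apply_apply, Sum.elim_inl, Sum.elim_inr, P]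
    ring

theorem rep_law (p : ℤ → ℝ) (h0 : ∀ k, 0 ≤ p k) (h1 : ∀ k, p k ≤ 1) (t : ℕ) :
    Rep (law p t) (fun f => Ex p t f 0) := by
  induction t with
  | zero =>
    refine ⟨1, fun _ => 1, fun _ => 0, fun _ => zero_le_one, ?_, ?_⟩
    · ext s hs
      rw [Measure.sum_apply _ hs]
      simp [law]
    · intro f
      simp [Ex]
  | succ t ih =>
    have := rep_step p h0 h1 _ _ ih
    have e : (fun f : ℤ → ℝ => Ex p (t + 1) f 0) = fun f => Ex p t (P p f) 0 := by
      funext f
      unfold Ex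
      rw [Function.iterate_succ_apply]
    rw [e]
    exact this

theorem Ex_one (p : ℤ → ℝ) (t : ℕ) (k : ℤ) : Ex p t (fun _ => 1) k = 1 := by
  unfold Ex
  induction t generalizing k with
  | zero => rfl
  | succ t ih =>
    rw [Function.iterate_succ_apply']
    simp only [P]
    rw [ih, ih]; ring

theorem integral_rep (μ : Measure ℤ) (E : (ℤ → ℝ) → ℝ) (h : Rep μ E) (f : ℤ → ℝ) :
    ∫ k, f k ∂μ = E f := by
  obtain ⟨n, w, z, hw, rfl, hE⟩ := h
  rw [← hE, Measure.sum_fintype, integral_finsetSum_measure]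
  · apply Finset.sum_congr rfl
    intro i _
    rw [integral_smul_measure, integral_dirac, ENNReal.toReal_ofReal (hw i), smul_eq_mul]
  · intro i _
    apply Integrable.smul_measure _ ENNReal.ofReal_ne_top
    apply integrable_dirac
    simp

end Law

open Law in
theorem s_Law : S_Law := by
  intro p h0 h1 t
  have hrep := rep_law p h0 h1 t
  have hprob : IsProbabilityMeasure (law p t) := by
    constructor
    obtain ⟨n, w, z, hw, hμ, hE⟩ := hrep
    rw [hμ, Measure.sum_apply _ MeasurableSet.univ, tsum_fintype]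
    have h2 := hE (fun _ => 1)
    simp only [mul_one, Ex_one] at h2
    simp only [Measure.smul_apply, measure_univ, smul_eq_mul, mul_one]
    rw [← ENNReal.ofReal_sum_of_nonneg (fun i _ => hw i), h2, ENNReal.ofReal_one]
  refine ⟨hprob, ?_⟩
  rw [ProbabilityTheory.variance_eq_integral (Measurable.of_discrete).aemeasurable]
  have hi := integral_rep _ _ hrep
  have e1 : ∫ k : ℤ, (k : ℝ) ∂(law p t) = Ex p t idf 0 := hi (fun k => (k : ℝ))
  rw [e1, hi]
  obtain ⟨n, w, z, hw, hμ, hE⟩ := hrep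
  have a0 := hE (fun _ => 1)
  have a1 := hE idf
  have a2 := hE sqf
  unfold va
  simp only [Ex_one, mul_one] at a0
  simp only [idf, sqf] at a1 a2
  set m := Ex p t idf 0 with hm
  have a3 := hE (fun k : ℤ => ((k : ℝ) - m) ^ 2)
  simp only at a3
  rw [← a3]
  have e2 : ∑ i, w i * ((z i : ℝ) - m) ^ 2 = ∑ i, w i * (z i : ℝ) ^ 2
      - 2 * m * (∑ i, w i * (z i : ℝ)) + m ^ 2 * ∑ i, w i := by
    rw [Finset.mul_sum, Finset.mul_sum, ← Finset.sum_sub_distrib, ← Finset.sum_add_distrib]
    apply Finset.sum_congr rfl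
    intro i _
    ring
  rw [e2, a0, a1, a2]
  change Ex p t sqf 0 - 2 * m * m + m ^ 2 * 1 = Ex p t sqf 0 - m ^ 2
  ring

end Pool.Agent.R953.LV
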