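import Pool.Agent.R953.LV.Defs

set_option autoImplicit false

/-!
# (LV-VAR) a large variance gives two far apart tails
-/
namespace Pool.Agent.R953.LV

namespace VarAux

theorem Ex_succ (p : ℤ → ℝ) (t : ℕ) (f : ℤ → ℝ) (k : ℤ) :
    Ex p (t + 1) f k = p k * Ex p t f (k + 1) + (1 - p k) * Ex p t f (k - 1) := by
  unfold Ex
  rw [Function.iterate_succ_apply']
  rfl

theorem Ex_lin (p : ℤ → ℝ) (t : ℕ) (f g : ℤ → ℝ) (α β γ : ℝ) (k : ℤ) :
    Ex p t (fun i => α * f i + β * g i + γ) k = α * Ex p t f k + β * Ex p t g k + γ := by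
  induction t generalizing k with
  | zero => rfl
  | succ t ih => rw [Ex_succ, Ex_succ, Ex_succ, ih, ih]; ring

theorem Ex_mono (p : ℤ → ℝ) (h0 : ∀ k, 0 ≤ p k) (h1 : ∀ k, p k ≤ 1) (t : ℕ) (f g : ℤ → ℝ) (k : ℤ)
    (h : ∀ i : ℤ, k - t ≤ i → i ≤ k + t → f i ≤ g i) : Ex p t f k ≤ Ex p t g k := by
  induction t generalizing k with
  | zero => exact h k (by simp) (by simp)
  | succ t ih =>
    rw [Ex_succ, Ex_succ]
    have a1 := ih (k + 1) (fun i hi1 hi2 => h i (by push_cast; linarith) (by push_cast; linarith))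
    have a2 := ih (k - 1) (fun i hi1 hi2 => h i (by push_cast; linarith) (by push_cast; linarith))
    have b1 := h0 k
    have b2 : 0 ≤ 1 - p k := by linarith [h1 k]
    have c1 := mul_le_mul_of_nonneg_left a1 b1
    have c2 := mul_le_mul_of_nonneg_left a2 b2
    linarith

end VarAux

open VarAux

theorem s_Var : S_Var := by
  intro p h0 h1 T v hT hv hva
  have hTr : (1 : ℝ) ≤ T := by exact_mod_cast hT
  set mu := Ex p T idf 0 with hmu
  set B := Real.sqrt (v / 2) with hB
  have hBpos : 0 < B := Real.sqrt_pos.2 (by positivity)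
  have hBsq : B ^ 2 = v / 2 := Real.sq_sqrt (by positivity)
  -- bounds of mu
  have hc : ∀ c : ℝ, Ex p T (fun i => 0 * idf i + 0 * idf i + c) 0 = c := by
    intro c; rw [Ex_lin]; ring
  have hmuT : mu ≤ T := by
    have := Ex_mono p h0 h1 T idf (fun i => 0 * idf i + 0 * idf i + (T : ℝ)) 0 (by
      intro i hi1 hi2
      simp only [idf, zero_mul, zero_add]
      have : i ≤ (T : ℤ) := by linarith
      exact_mod_cast this)
    rwa [hc] at this
  have hmuT' : -(T : ℝ) ≤ mu := by
    have := Ex_mono p h0 h1 T (fun i => 0 * idf i + 0 * idf i + (-(T : ℝ))) idf 0 (by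
      intro i hi1 hi2
      simp only [idf, zero_mul, zero_add]
      have : -(T : ℤ) ≤ i := by linarith
      exact_mod_cast this)
    rwa [hc] at this
  -- bound of deviation on the range
  have hdev : ∀ i : ℤ, (0 : ℤ) - T ≤ i → i ≤ 0 + T → |(i : ℝ) - mu| ≤ 2 * T := by
    intro i hi1 hi2
    have a1 : (-(T : ℝ)) ≤ i := by
      have : -(T : ℤ) ≤ i := by linarith
      exact_mod_cast this
    have a2 : (i : ℝ) ≤ T := by
      have : i ≤ (T : ℤ) := by linarith
      exact_mod_cast this
    rw [abs_le]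
    constructor <;> linarith
  -- variance
  have hvar : Ex p T (fun i => 1 * sqf i + (-2 * mu) * idf i + mu ^ 2) 0 = va p T 0 := by
    rw [Ex_lin, va, ← hmu]; ring
  have hv4 : v ≤ 4 * T ^ 2 := by
    have := Ex_mono p h0 h1 T (fun i => 1 * sqf i + (-2 * mu) * idf i + mu ^ 2)
      (fun i => 0 * idf i + 0 * idf i + (4 * (T : ℝ) ^ 2)) 0 (by
      intro i hi1 hi2
      have := hdev i hi1 hi2
      have h2 := sq_le_sq' (neg_le_of_abs_le this) (le_of_abs_le this)
      simp only [idf, sqf]
      nlinarith)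
    rw [hvar, hc] at this
    linarith
  have hB2T : B ≤ 2 * T := by
    by_contra hcon
    push Not at hcon
    nlinarith
  -- two tails
  set b1 : ℤ := ⌈mu + B⌉ with hb1
  set a1 : ℤ := ⌊mu - B⌋ with ha1
  have htails : v ≤ (4 * (T : ℝ) ^ 2) * Ex p T (geI b1) 0 + (4 * (T : ℝ) ^ 2) * Ex p T (leI a1) 0
      + v / 2 := by
    have := Ex_mono p h0 h1 T (fun i => 1 * sqf i + (-2 * mu) * idf i + mu ^ 2)
      (fun i => (4 * (T : ℝ) ^ 2) * geI b1 i + (4 * (T : ℝ) ^ 2) * leI a1 i + v / 2) 0 (by
      intro i hi1 hi2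
      have := hdev i hi1 hi2
      have h2 := sq_le_sq' (neg_le_of_abs_le this) (le_of_abs_le this)
      simp only [idf, sqf, geI, leI]
      have hTT : (0 : ℝ) ≤ 4 * (T : ℝ) ^ 2 := by positivity
      by_cases hx : b1 ≤ i
      · rw [if_pos hx]
        have : (0 : ℝ) ≤ (if i ≤ a1 then (1 : ℝ) else 0) := by split_ifs <;> norm_num
        nlinarith
      · by_cases hy : i ≤ a1
        · rw [if_pos hy, if_neg hx]
          nlinarith
        · rw [if_neg hx, if_neg hy]
          push Not at hx hy
          rw [hb1, Int.lt_ceil] at hx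
          rw [ha1, Int.floor_lt] at hy
          have h3 : ((i : ℝ) - mu) ^ 2 ≤ B ^ 2 := sq_le_sq' (by linarith) (by linarith)
          nlinarith)
    rw [hvar, Ex_lin] at this
    linarith
  have hT2 : 0 < (T : ℝ) ^ 2 := by positivity
  have hT3 : 0 < (T : ℝ) ^ 3 := by positivity
  have hzero : Ex p T (fun i => 1 * idf i + 0 * idf i + (-mu)) 0 = 0 := by
    rw [Ex_lin, ← hmu]; ring
  have hcomp : B * v / (32 * (T : ℝ) ^ 3) ≤ v / (16 * (T : ℝ) ^ 2) := by
    rw [div_le_div_iff₀ (by positivity) (by positivity)]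
    have : B * v * (16 * (T : ℝ) ^ 2) ≤ (2 * T) * v * (16 * (T : ℝ) ^ 2) := by gcongr
    nlinarith
  have hfin : ∀ G H : ℝ, v / (16 * (T : ℝ) ^ 2) ≤ G → B * G ≤ 2 * T * H →
      B * v / (32 * (T : ℝ) ^ 3) ≤ H := by
    intro G H hG hH
    have e1 : B * (v / (16 * (T : ℝ) ^ 2)) ≤ 2 * T * H :=
      (mul_le_mul_of_nonneg_left hG hBpos.le).trans hH
    have e2 : B * v / (32 * (T : ℝ) ^ 3) = B * (v / (16 * (T : ℝ) ^ 2)) / (2 * T) := by
      field_simp; ring
    rw [e2, div_le_iff₀ (by positivity)]
    linarith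
  have hcases : v / (16 * (T : ℝ) ^ 2) ≤ Ex p T (geI b1) 0 ∨
      v / (16 * (T : ℝ) ^ 2) ≤ Ex p T (leI a1) 0 := by
    by_contra hcon
    push Not at hcon
    obtain ⟨c1, c2⟩ := hcon
    rw [lt_div_iff₀ (by positivity)] at c1 c2
    nlinarith
  rcases hcases with hG | hL
  · refine ⟨⌊mu⌋, b1, ?_, ?_, hcomp.trans hG⟩
    · have e1 := Int.le_ceil (mu + B)
      have e2 := Int.floor_le mu
      rw [← hb1] at e1
      linarith
    · refine hfin _ _ hG ?_
      have := Ex_mono p h0 h1 T (fun i => B * geI b1 i + (-(2 * (T : ℝ))) * leI ⌊mu⌋ i + 0)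
        (fun i => 1 * idf i + 0 * idf i + (-mu)) 0 (by
        intro i hi1 hi2
        have := hdev i hi1 hi2
        have h2 := neg_le_of_abs_le this
        simp only [idf, geI, leI]
        by_cases hx : b1 ≤ i
        · have hx' : mu + B ≤ i := Int.ceil_le.1 hx
          have hy : ¬ i ≤ ⌊mu⌋ := by
            intro hy
            have := Int.le_floor.1 hy
            linarith
          rw [if_pos hx, if_neg hy]
          linarith
        · by_cases hy : i ≤ ⌊mu⌋
          · rw [if_neg hx, if_pos hy]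
            linarith
          · rw [if_neg hx, if_neg hy]
            have : mu < i := by
              by_contra hc
              push Not at hc
              exact hy (Int.le_floor.2 hc)
            linarith)
      rw [hzero, Ex_lin] at this
      linarith
  · refine ⟨a1, ⌈mu⌉, ?_, hcomp.trans hL, ?_⟩
    · have e1 := Int.floor_le (mu - B)
      have e2 := Int.le_ceil mu
      rw [← ha1] at e1
      linarith
    · refine hfin _ _ hL ?_
      have := Ex_mono p h0 h1 T (fun i => 1 * idf i + 0 * idf i + (-mu))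
        (fun i => (-B) * leI a1 i + (2 * (T : ℝ)) * geI ⌈mu⌉ i + 0) 0 (by
        intro i hi1 hi2
        have := hdev i hi1 hi2
        have h2 := le_of_abs_le this
        simp only [idf, geI, leI]
        by_cases hx : i ≤ a1
        · have hx' : (i : ℝ) ≤ mu - B := Int.le_floor.1 hx
          have hy : ¬ ⌈mu⌉ ≤ i := by
            intro hy
            have := Int.ceil_le.1 hy
            linarith
          rw [if_pos hx, if_neg hy]
          linarith
        · by_cases hy : ⌈mu⌉ ≤ i
          · rw [if_neg hx, if_pos hy]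
            linarith
          · rw [if_neg hx, if_neg hy]
            have : (i : ℝ) < mu := by
              by_contra hc
              push Not at hc
              exact hy (Int.ceil_le.2 hc)
            linarith)
      rw [hzero, Ex_lin] at this
      linarith

end Pool.Agent.R953.LV
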